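import Pool.Agent.Work.MP_3d425c_gt.Sm.Defs

-- merged part: Pool.Agent.Work.MP_3d425c_gt.Sm.Int
section
/-! Internal notions of the smooth front end: local models, nets, power diagrams, polytopes,
complexes. FROZEN after landing. -/

namespace Pool.Agent.Work.MP_3d425c_gt.Sm
open Set Relation Metric Topology
open scoped RealInnerProductSpace

/-- Euclidean three-space -/
abbrev E3 : Type := EuclideanSpace ℝ (Fin 3)

/-- Almost Euclidean charts of radius `R` and error `η` around every point, with heights. -/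
structure LM (Y : Type) [TopologicalSpace Y] (R η : ℝ) where
  d : Y → Y → ℝ
  χ : Y → E3 → Y
  ψ : Y → Y → E3
  l : Y → E3
  H : Y → Y → ℝ
  d_self : ∀ a, d a a = 0
  symm : ∀ x y, d x y = d y x
  tri : ∀ x y z, d x z ≤ d x y + d y z
  nhds : ∀ a r, 0 < r → {y | d a y < r} ∈ 𝓝 a
  χ0 : ∀ a, χ a 0 = a
  cont : ∀ a, ContinuousOn (χ a) (ball 0 R)
  left : ∀ a, ∀ u ∈ ball (0 : E3) R, ψ a (χ a u) = u
  right : ∀ a y, d a y < R - 1 → ψ a y ∈ ball (0 : E3) R ∧ χ a (ψ a y) = y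
  iso : ∀ a, ∀ u ∈ ball (0 : E3) R, ∀ v ∈ ball (0 : E3) R, |d (χ a u) (χ a v) - ‖u - v‖| ≤ η
  unit : ∀ a, ‖l a‖ = 1
  hcont : ∀ a, ContinuousOn (H a) {y | d a y < R - 1}
  cone : ∀ a, ∀ u ∈ ball (0 : E3) R, ∀ v ∈ ball (0 : E3) R, η * ‖v - u‖ < ⟪l a, v - u⟫ →
    H a (χ a u) < H a (χ a v)
  compat : ∀ a b x y, d a x < R - 1 → d a y < R - 1 → d b x < R - 1 → d b y < R - 1 →
    H a x < H a y → H b x < H b y

section
variable {Y : Type} [TopologicalSpace Y] {R η : ℝ} (L : LM Y R η) (G : Type) [Group G]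
  [MulAction G Y]

/-- invariance, freeness at the scale of the charts, cocompactness -/
structure LM.Inv : Prop where
  d : ∀ (g : G) x y, L.d (g • x) (g • y) = L.d x y
  χ : ∀ (g : G) a, ∀ u ∈ ball (0 : E3) R, L.χ (g • a) u = g • L.χ a u
  H : ∀ (g : G) a y, L.H (g • a) (g • y) = L.H a y
  far : ∀ (g : G) y, L.d y (g • y) < R → g = 1
  cpt : ∃ t : Set Y, t.Finite ∧ ∀ y, ∃ g : G, ∃ a ∈ t, L.d y (g • a) < 1 / 10

/-- a short step that does not descend -/
def LM.W (y z : Y) : Prop := L.d y z < 1 ∧ L.H y y ≤ L.H y z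

/-- discrete tautness -/
def LM.Taut : Prop := ∀ y, ∃ g : G, ∃ y1 y2, ReflTransGen L.W y y1 ∧ L.d y1 y2 < 1 ∧
  L.H y1 y1 < L.H y1 y2 ∧ ReflTransGen L.W y2 (g • y)

/-- an invariant separated dense set -/
structure LM.Net (V : SubMulAction G Y) : Prop where
  fin : ∃ t : Set Y, t.Finite ∧ ∀ p ∈ V, ∃ g : G, g • p ∈ t
  sep : ∀ p ∈ V, ∀ q ∈ V, p ≠ q → 1 / 2 ≤ L.d p q
  den : ∀ y, ∃ p ∈ V, L.d y p < 5 / 4

/-- `p` is robustly above `q` -/
def LM.Ab (δ : ℝ) (p q : Y) : Prop := ∀ z, L.d z p ≤ δ → L.H p q < L.H p z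

/-- heights of close points differ robustly -/
def LM.G2 (V : Set Y) (δ : ℝ) : Prop :=
  ∀ p ∈ V, ∀ q ∈ V, p ≠ q → L.d p q < 130 → L.Ab δ p q ∨ L.Ab δ q p

/-- the powers of `y` with respect to the weighted points `p i` are almost equal -/
def LM.NE {n : ℕ} (w : Y → ℝ) (δ : ℝ) (y : Y) (p : Fin n → Y) : Prop :=
  ∀ i j, |(L.d y (p i) ^ 2 - w (p i)) - (L.d y (p j) ^ 2 - w (p j))| ≤ δ

/-- no slivers -/
def LM.G4 (V : Set Y) (w : Y → ℝ) (δ : ℝ) : Prop :=
  ∀ p : Fin 4 → Y, Function.Injective p → (∀ i, p i ∈ V) → ∀ y y', (∀ i, L.d y (p i) ≤ 3) →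
    (∀ i, L.d y' (p i) ≤ 5) → 1 ≤ L.d y y' → L.NE w δ y p → ¬ L.NE w δ y' p

/-- no five points on a common sphere -/
def LM.G5 (V : Set Y) (w : Y → ℝ) (δ : ℝ) : Prop :=
  ∀ p : Fin 5 → Y, Function.Injective p → (∀ i, p i ∈ V) → ∀ y, (∀ i, L.d y (p i) ≤ 3) →
    ¬ L.NE w δ y p
end

section
variable {ι : Type}

/-- power of `u` with respect to the weighted point `p` -/
noncomputable def pw (P : ι → E3) (w : ι → ℝ) (u : E3) (p : ι) : ℝ := ‖u - P p‖ ^ 2 - w p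

/-- the nearest points -/
def Nr (S : Set ι) (P : ι → E3) (w : ι → ℝ) (u : E3) : Set ι :=
  {p | p ∈ S ∧ ∀ q ∈ S, pw P w u p ≤ pw P w u q}

/-- a generic weighted net of the ball of radius 50 -/
structure Eu (S : Set ι) (P : ι → E3) (w : ι → ℝ) : Prop where
  fin : S.Finite
  sep : ∀ p ∈ S, ∀ q ∈ S, p ≠ q → 1 / 3 ≤ ‖P p - P q‖
  wt : ∀ p, |w p| ≤ 1 / 100
  den : ∀ u ∈ ball (0 : E3) 50, ∃ q ∈ S, ‖u - P q‖ < 3 / 2
  gen : ∀ u ∈ ball (0 : E3) 50, (Nr S P w u).ncard ≤ 4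

/-- a cut of the net into lower points and upper points `U`, near the height `c` -/
structure Cut (S : Set ι) (P : ι → E3) (l : E3) (U : Set ι) (c : ℝ) : Prop where
  unit : ‖l‖ = 1
  lt : ∀ p ∈ S, ∀ q ∈ S, p ∉ U → q ∈ U → ⟪l, P p⟫ < ⟪l, P q⟫
  up : ∀ p ∈ S, c + 1 < ⟪l, P p⟫ → p ∈ U
  dn : ∀ p ∈ S, ⟪l, P p⟫ < c - 1 → p ∉ U

/-- the polytope -/
def Pt (I : Set ι) (a : ι → E3) (b : ι → ℝ) : Set E3 := {u | ∀ i ∈ I, ⟪a i, u⟫ ≤ b i}

/-- the tight constraints -/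
def Tg (I : Set ι) (a : ι → E3) (b : ι → ℝ) (u : E3) : Set ι := {i | i ∈ I ∧ ⟪a i, u⟫ = b i}

/-- a simple polytope -/
structure SP (I : Set ι) (a : ι → E3) (b : ι → ℝ) : Prop where
  fin : I.Finite
  int : ∃ o, ∀ i ∈ I, ⟪a i, o⟫ < b i
  bdd : Bornology.IsBounded (Pt I a b)
  gen : ∀ u ∈ Pt I a b, (Tg I a b u).ncard ≤ 3

/-- triangles of the dual sphere -/
def Tr (I : Set ι) (a : ι → E3) (b : ι → ℝ) : Set (Set ι) :=
  {τ | τ.ncard = 3 ∧ ∃ u ∈ Pt I a b, τ = Tg I a b u}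

/-- `σ` and `τ ∈ T` have `n` common points, and these have the property `Q` -/
def Ad (T : Set (Set ι)) (n : ℕ) (Q : Set ι → Prop) (σ τ : Set ι) : Prop :=
  τ ∈ T ∧ (σ ∩ τ).ncard = n ∧ Q (σ ∩ τ)

/-- `v` is neither the lowest nor the highest point of `σ` -/
def Mx (lt : ι → ι → Prop) (σ : Set ι) (v : ι) : Prop :=
  v ∈ σ ∧ ∃ u ∈ σ, ∃ w ∈ σ, lt u v ∧ lt v w

/-- `Z` is a cocycle on `σ` -/
def Coc {Γ : Type} [Group Γ] (Z : ι → ι → Γ) (σ : Set ι) : Prop :=
  ∀ i ∈ σ, ∀ j ∈ σ, ∀ k ∈ σ, Z i j * Z j k = Z i k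

/-- `Z` is the coboundary of `s` on `σ` -/
def Cob {Γ : Type} [Group Γ] (Z : ι → ι → Γ) (s : ι → Γ) (σ : Set ι) : Prop :=
  ∀ i ∈ σ, ∀ j ∈ σ, Z i j = s i * (s j)⁻¹

/-- the local part of an ordered complex given by its tetrahedra -/
structure SC0 (G : Type) [Group G] [MulAction G ι] (lt : ι → ι → Prop) (T : Set (Set ι)) :
    Prop where
  four : ∀ σ ∈ T, σ.ncard = 4
  asym : ∀ u v, lt u v → ¬ lt v u
  tot : ∀ σ ∈ T, ∀ u ∈ σ, ∀ v ∈ σ, u = v ∨ lt u v ∨ lt v u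
  tr : ∀ σ ∈ T, ∀ u ∈ σ, ∀ v ∈ σ, ∀ w ∈ σ, lt u v → lt v w → lt u w
  ltg : ∀ (g : G) u v, lt u v → lt (g • u) (g • v)
  inv : ∀ (g : G), ∀ σ ∈ T, (fun v => g • v) '' σ ∈ T
  fin : ∃ F : Set (Set ι), F.Finite ∧ ∀ σ ∈ T, ∃ g : G, (fun v => g • v) '' σ ∈ F
  free : ∀ (g : G) (v : ι), g • v = v → g = 1
  two : ∀ σ ∈ T, ∀ v ∈ σ, ∃! w, w ∉ σ ∧ insert w (σ \ {v}) ∈ T
  star : ∀ σ ∈ T, ∀ τ ∈ T, ∀ v ∈ σ, v ∈ τ → ReflTransGen (Ad T 3 fun _ => True) σ τ
  link : ∀ σ ∈ T, ∀ τ ∈ T, ∀ u v, u ≠ v → u ∈ σ → v ∈ σ → u ∈ τ → v ∈ τ →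
    ReflTransGen (Ad T 3 fun f => u ∈ f ∧ v ∈ f) σ τ
  equ : ∀ σ ∈ T, ∀ τ ∈ T, ∀ v, Mx lt σ v → Mx lt τ v →
    ReflTransGen (Ad T 3 fun f => Mx lt f v) σ τ
  mid : ∀ v, ∃ σ ∈ T, Mx lt σ v
  ul : ∀ v (Γ : Type) [Group Γ] (Z : ι → ι → Γ), (∀ σ ∈ T, v ∈ σ → Coc Z (σ ∩ {a | lt v a})) →
    ∃ s, ∀ σ ∈ T, v ∈ σ → Cob Z s (σ ∩ {a | lt v a})
  ll : ∀ v (Γ : Type) [Group Γ] (Z : ι → ι → Γ), (∀ σ ∈ T, v ∈ σ → Coc Z (σ ∩ {a | lt a v})) →
    ∃ s, ∀ σ ∈ T, v ∈ σ → Cob Z s (σ ∩ {a | lt a v})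

/-- a connected and simply connected ordered complex -/
structure SC (G : Type) [Group G] [MulAction G ι] (lt : ι → ι → Prop) (T : Set (Set ι)) :
    Prop extends SC0 G lt T where
  ne : T.Nonempty
  conn : ∀ σ ∈ T, ∀ τ ∈ T, ReflTransGen (Ad T 3 fun _ => True) σ τ
  sc : ∀ (Γ : Type) [Group Γ] (Z : ι → ι → Γ), (∀ σ ∈ T, Coc Z σ) → ∃ s, ∀ σ ∈ T, Cob Z s σ

/-- `h a u v t` is the height, seen from `a`, of the point `t` of the edge from `u` to `v`, and
`k a u` is the height of the vertex `u` -/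
structure Hts (G : Type) [Group G] [MulAction G ι] (lt : ι → ι → Prop) (T : Set (Set ι))
    (h : ι → ι → ι → ℝ → ℝ) (k : ι → ι → ℝ) : Prop where
  mono : ∀ σ ∈ T, ∀ a ∈ σ, ∀ u ∈ σ, ∀ v ∈ σ, lt u v → StrictMonoOn (h a u v) (Icc 0 1)
  cont : ∀ σ ∈ T, ∀ a ∈ σ, ∀ u ∈ σ, ∀ v ∈ σ, lt u v → ContinuousOn (h a u v) (Icc 0 1)
  zero : ∀ σ ∈ T, ∀ a ∈ σ, ∀ u ∈ σ, ∀ v ∈ σ, lt u v → h a u v 0 = k a u
  one : ∀ σ ∈ T, ∀ a ∈ σ, ∀ u ∈ σ, ∀ v ∈ σ, lt u v → h a u v 1 = k a v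
  compat : ∀ σ ∈ T, ∀ a ∈ σ, ∀ b ∈ σ, ∀ u ∈ σ, ∀ v ∈ σ, ∀ u' ∈ σ, ∀ v' ∈ σ, lt u v → lt u' v' →
    ∀ t ∈ Icc (0 : ℝ) 1, ∀ t' ∈ Icc (0 : ℝ) 1, h a u v t < h a u' v' t' → h b u v t < h b u' v' t'
  inv : ∀ (g : G), ∀ σ ∈ T, ∀ a ∈ σ, ∀ u ∈ σ, ∀ v ∈ σ, lt u v → ∀ t ∈ Icc (0 : ℝ) 1,
    h (g • a) (g • u) (g • v) t = h a u v t
end

section
variable {Y : Type} [TopologicalSpace Y] {η : ℝ} (L : LM Y 300 η) {G : Type} [Group G]
  [MulAction G Y] (V : SubMulAction G Y) (w : Y → ℝ)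

/-- the vertices seen from `a` -/
def LM.S (a : Y) : Set V := {p | L.d a p.1 < 60}

/-- their coordinates -/
def LM.P (a : Y) (p : V) : E3 := L.ψ a p.1

/-- the nearest vertices in the chart at `a` -/
def LM.N (a : Y) (u : E3) : Set V := Nr (L.S V a) (L.P V a) (fun p => w p.1) u

/-- the tetrahedra -/
def LM.T : Set (Set V) := {σ | σ.ncard = 4 ∧ ∃ a, ∃ u ∈ ball (0 : E3) 1, σ = L.N V w a u}

/-- the order of close vertices -/
def LM.lt (u v : V) : Prop := L.d u.1 v.1 < 10 ∧ L.H u.1 u.1 < L.H u.1 v.1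

/-- the straight edge -/
noncomputable def LM.γ (u v : Y) (t : ℝ) : Y := L.χ u (t • L.ψ u v)

/-- everything the combinatorial part uses -/
structure LM.Good : Prop where
  pos : 0 < η
  small : η ≤ 1 / 1000
  inv : L.Inv G
  net : L.Net G V
  winv : ∀ (g : G) p, w (g • p) = w p
  eu : ∀ a, Eu (L.S V a) (L.P V a) fun p => w p.1
  ht : ∀ a, ∀ p ∈ L.S V a, ∀ q ∈ L.S V a, p ≠ q →
    η * ‖L.P V a p - L.P V a q‖ < |⟪L.l a, L.P V a p - L.P V a q⟫|
  trans : ∀ a b, ∀ u ∈ ball (0 : E3) 45, L.d b (L.χ a u) < 44 → (L.N V w a u).ncard = 4 →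
    ∃ u', ‖u' - L.ψ b (L.χ a u)‖ < 1 ∧ L.N V w b u' = L.N V w a u
end

end Pool.Agent.Work.MP_3d425c_gt.Sm
end

-- merged part: Pool.Agent.Work.MP_3d425c_gt.Sm.A1
section
/-! Block A1: data at one point. Plan: c = chartAt x; e ∘ c.symm is smooth at c x, so it has a strict
derivative D (ContDiffAt.hasStrictFDerivAt), injective by the hypothesis on mfderiv; m‖v‖ ≤ ‖D v‖.
range D has finrank 3, so there is a linear isometry onto E3: B = isometry ∘ D, ‖B v‖ = ‖D v‖.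
With l0 from `tan`: l0 ∘ B.symm = κ ⟪l, ·⟫, ‖l‖ = 1, κ > 0 (InnerProductSpace.toDual). Use strict
differentiability with η m and `tan` with κ η m. -/

namespace Pool.Agent.Work.MP_3d425c_gt.Sm
open Set Relation Metric Topology Filter
open scoped RealInnerProductSpace Manifold ContDiff

variable {M : Type} [TopologicalSpace M] [ChartedSpace E3 M] [IsManifold 𝓘(ℝ, E3) ∞ M]

theorem a1_iso {n : ℕ} (D : E3 →L[ℝ] EuclideanSpace ℝ (Fin n)) (hD : Function.Injective D) :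
    ∃ B : E3 ≃L[ℝ] E3, ∀ v, ‖B v‖ = ‖D v‖ := by
  have hD' : Function.Injective (D : E3 →ₗ[ℝ] EuclideanSpace ℝ (Fin n)) := hD
  have h3 : Module.finrank ℝ (LinearMap.range (D : E3 →ₗ[ℝ] EuclideanSpace ℝ (Fin n))) = 3 := by
    rw [LinearMap.finrank_range_of_inj hD']
    simp
  let b := (stdOrthonormalBasis ℝ
    (LinearMap.range (D : E3 →ₗ[ℝ] EuclideanSpace ℝ (Fin n)))).reindex (finCongr h3)
  refine ⟨((LinearEquiv.ofInjective _ hD').trans b.repr.toLinearEquiv).toContinuousLinearEquiv,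
    fun v => ?_⟩
  have h1 := b.repr.norm_map (LinearEquiv.ofInjective _ hD' v)
  exact h1

theorem a1_dual (B : E3 ≃L[ℝ] E3) (l0 : E3 →L[ℝ] ℝ) (h : l0 ≠ 0) :
    ∃ (l : E3) (κ : ℝ), ‖l‖ = 1 ∧ 0 < κ ∧ ∀ v, l0 v = κ * ⟪l, B v⟫ := by
  set w : E3 := (InnerProductSpace.toDual ℝ E3).symm (l0.comp (B.symm : E3 →L[ℝ] E3)) with hw
  have h1 : ∀ v, ⟪w, B v⟫ = l0 v := fun v => by
    rw [hw, InnerProductSpace.toDual_symm_apply]
    simp
  have h2 : w ≠ 0 := fun e => h (by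
    ext1 v
    rw [← h1, e]
    simp)
  have h3 : 0 < ‖w‖ := norm_pos_iff.2 h2
  refine ⟨‖w‖⁻¹ • w, ‖w‖, ?_, h3, fun v => ?_⟩
  · rw [norm_smul, norm_inv, norm_norm, inv_mul_cancel₀ h3.ne']
  · rw [real_inner_smul_left, h1, ← mul_assoc, mul_inv_cancel₀ h3.ne', one_mul]

omit [IsManifold 𝓘(ℝ, E3) ∞ M] in
theorem a1_strict {n : ℕ} (e : M → EuclideanSpace ℝ (Fin n))
    (he : ContMDiff 𝓘(ℝ, E3) 𝓘(ℝ, EuclideanSpace ℝ (Fin n)) ∞ e)
    (hi : ∀ x, Function.Injective (mfderiv 𝓘(ℝ, E3) 𝓘(ℝ, EuclideanSpace ℝ (Fin n)) e x)) (x : M) :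
    ∃ D : E3 →L[ℝ] EuclideanSpace ℝ (Fin n), Function.Injective D ∧ ∀ ε > 0, ∀ᶠ q in 𝓝 (x, x),
      ‖(e q.2 - e q.1) - D (dif x q.1 q.2)‖ ≤ ε * ‖dif x q.1 q.2‖ := by
  have h1 : ContDiffAt ℝ ∞ (e ∘ (chartAt E3 x).symm) (chartAt E3 x x) := by
    have h := (contMDiffAt_iff.1 (he x)).2
    simpa [contDiffWithinAt_univ] using h
  have h2 := h1.hasStrictFDerivAt (by simp)
  have h3 : MDifferentiableAt 𝓘(ℝ, E3) 𝓘(ℝ, EuclideanSpace ℝ (Fin n)) e x :=
    (he x).mdifferentiableAt (by simp)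
  have h4 : mfderiv 𝓘(ℝ, E3) 𝓘(ℝ, EuclideanSpace ℝ (Fin n)) e x =
      fderiv ℝ (e ∘ (chartAt E3 x).symm) (chartAt E3 x x) := by
    rw [h3.mfderiv]
    simp [writtenInExtChartAt, fderivWithin_univ]
  refine ⟨fderiv ℝ (e ∘ (chartAt E3 x).symm) (chartAt E3 x x), ?_, fun ε hε => ?_⟩
  · have h := hi x
    rw [h4] at h
    exact h
  · have h5 := h2.isLittleO.def hε
    have hc : ContinuousAt (chartAt E3 x) x := (chartAt E3 x).continuousAt (mem_chart_source E3 x)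
    have h6 : Tendsto (fun q : M × M => (chartAt E3 x q.2, chartAt E3 x q.1)) (𝓝 (x, x))
        (𝓝 (chartAt E3 x x, chartAt E3 x x)) :=
      (hc.tendsto.comp (continuous_snd.tendsto (x, x))).prodMk_nhds
        (hc.tendsto.comp (continuous_fst.tendsto (x, x)))
    have h7 : (chartAt E3 x).source ∈ 𝓝 x := chart_source_mem_nhds E3 x
    filter_upwards [h6.eventually h5, (continuous_fst.tendsto (x, x)).eventually h7,
      (continuous_snd.tendsto (x, x)).eventually h7] with q h8 h9 h10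
    simp only [Function.comp_apply] at h8
    rw [(chartAt E3 x).left_inv h9, (chartAt E3 x).left_inv h10] at h8
    exact h8

theorem point_data {n : ℕ} (e : M → EuclideanSpace ℝ (Fin n))
    (he : ContMDiff 𝓘(ℝ, E3) 𝓘(ℝ, EuclideanSpace ℝ (Fin n)) ∞ e)
    (hi : ∀ x, Function.Injective (mfderiv 𝓘(ℝ, E3) 𝓘(ℝ, EuclideanSpace ℝ (Fin n)) e x))
    {A : Set (OpenPartialHomeomorph M ((ℝ × ℝ) × ℝ))} (hA : Foliation A) (x : M)
    {f : OpenPartialHomeomorph M ((ℝ × ℝ) × ℝ)} (hf : f ∈ A) (hx : x ∈ f.source) {η : ℝ}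
    (hη : 0 < η) : ∃ (B : E3 ≃L[ℝ] E3) (l : E3), ‖l‖ = 1 ∧ ∀ᶠ q in 𝓝 (x, x),
      |‖e q.2 - e q.1‖ - ‖B (dif x q.1 q.2)‖| ≤ η * ‖B (dif x q.1 q.2)‖ ∧
      (η * ‖B (dif x q.1 q.2)‖ < ⟪l, B (dif x q.1 q.2)⟫ → (f q.1).2 < (f q.2).2) := by
  obtain ⟨D, hD, hs⟩ := a1_strict e he hi x
  obtain ⟨B, hB⟩ := a1_iso D hD
  obtain ⟨l0, hl0, ht⟩ := hA.tan f hf x hx
  obtain ⟨l, κ, hl, hκ, hlB⟩ := a1_dual B l0 hl0
  set K : ℝ := ‖(B.symm : E3 →L[ℝ] E3)‖ + 1 with hK
  have hK0 : 0 < K := by positivity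
  have hKB : ∀ v, ‖v‖ ≤ K * ‖B v‖ := fun v => by
    have h1 := (B.symm : E3 →L[ℝ] E3).le_opNorm (B v)
    simp only [ContinuousLinearEquiv.coe_coe, ContinuousLinearEquiv.symm_apply_apply] at h1
    have h2 := norm_nonneg (B v)
    rw [hK]
    nlinarith
  refine ⟨B, l, hl, ?_⟩
  filter_upwards [hs (η / K) (by positivity), ht (κ * η / K) (by positivity)] with q h1 h2
  have h3 := hKB (dif x q.1 q.2)
  have h4 : ∀ a : ℝ, 0 < a → a / K * ‖dif x q.1 q.2‖ ≤ a * ‖B (dif x q.1 q.2)‖ := fun a ha => by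
    rw [div_mul_eq_mul_div, div_le_iff₀ hK0]
    nlinarith
  refine ⟨?_, fun h => h2 ?_⟩
  · rw [hB]
    refine (abs_norm_sub_norm_le _ _).trans (h1.trans ?_)
    rw [← hB]
    exact h4 η hη
  · refine (h4 _ (by positivity)).trans_lt ?_
    rw [hlB, mul_assoc]
    exact mul_lt_mul_of_pos_left h hκ

end Pool.Agent.Work.MP_3d425c_gt.Sm
end

-- merged part: Pool.Agent.Work.MP_3d425c_gt.Sm.A2
section
/-! Block A2: the local model on the closed manifold. Plan: e from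
exists_embedding_euclidean_of_compact. For x choose f x ∈ A, B x, l x by point_data with
η' = min η (η / (2 R)) or smaller, and ρ x > 0 such that K x = c.symm '' {v | ‖B (v - c x)‖ ≤ 2 ρ} lies
(v in c.target) in (f x).source, in c.source, and all pairs of points of K x satisfy point_data.
O x = c.source ∩ {y | ‖B (c y - c x)‖ < ρ} is an open cover; finite subcover x i; Lebesgue number λ
for the distance ‖e y - e z‖ (e is an embedding of a compact space): every a has i(a) with the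
λ-ball about a inside O (x i). For each pair i j the compact set K i ∩ K j has a number λ' such that
`ord` holds for all pairs of its points at distance < λ'. Take ε with ε R < min ρ, 4 ε R < λ, λ'. Put
d y z = ‖e y - e z‖ / ε, ψ a y = ε⁻¹ • B (c y - c a), χ a u = c.symm (c a + ε • B.symm u),
H a y = (f y).2, all with the data of x i(a). -/

namespace Pool.Agent.Work.MP_3d425c_gt.Sm
open Set Relation Metric Topology Filter
open scoped RealInnerProductSpace Manifold ContDiff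

variable {M : Type} [TopologicalSpace M] [ChartedSpace E3 M] [IsManifold 𝓘(ℝ, E3) ∞ M]
  [CompactSpace M] [T2Space M]

theorem a2_unif {X F : Type} [TopologicalSpace X] [CompactSpace X] [NormedAddCommGroup F]
    (e : X → F) (hc : Continuous e) (hi : Function.Injective e) (P : X × X → Prop)
    (hP : ∀ x, ∀ᶠ q in 𝓝 (x, x), P q) : ∃ lam > 0, ∀ y z, ‖e y - e z‖ < lam → P (y, z) := by
  have hS : IsCompact (interior {q : X × X | P q})ᶜ := isOpen_interior.isClosed_compl.isCompact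
  by_cases hne : ((interior {q : X × X | P q})ᶜ).Nonempty
  · obtain ⟨q, hq, hmin⟩ := hS.exists_isMinOn hne (f := fun q : X × X => ‖e q.1 - e q.2‖)
      (by fun_prop)
    refine ⟨‖e q.1 - e q.2‖, ?_, ?_⟩
    · rw [gt_iff_lt, norm_pos_iff, sub_ne_zero]
      intro h
      have h' : q = (q.1, q.1) := Prod.ext rfl (hi h).symm
      apply hq
      rw [h']
      exact mem_interior_iff_mem_nhds.2 (hP q.1)
    · intro y z h
      by_contra hn
      have h' : (y, z) ∈ (interior {q : X × X | P q})ᶜ := fun h' => hn (interior_subset h')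
      exact absurd (hmin h') (not_le.2 h)
  · refine ⟨1, one_pos, fun y z _ => ?_⟩
    by_contra hn
    exact hne ⟨(y, z), fun h' => hn (interior_subset h')⟩

omit [CompactSpace M] [T2Space M] in
theorem a2_pt {n : ℕ} (e : M → EuclideanSpace ℝ (Fin n))
    (he : ContMDiff 𝓘(ℝ, E3) 𝓘(ℝ, EuclideanSpace ℝ (Fin n)) ∞ e)
    (hi : ∀ x, Function.Injective (mfderiv 𝓘(ℝ, E3) 𝓘(ℝ, EuclideanSpace ℝ (Fin n)) e x))
    {A : Set (OpenPartialHomeomorph M ((ℝ × ℝ) × ℝ))} (hA : Foliation A) {η : ℝ} (hη : 0 < η)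
    (x : M) : ∃ f ∈ A, ∃ k : OpenPartialHomeomorph M E3, ∃ l : E3, ∃ ρ : ℝ, 0 < ρ ∧ ‖l‖ = 1 ∧
      x ∈ k.source ∧ k x = 0 ∧
      (∀ u ∈ closedBall (0 : E3) (2 * ρ), u ∈ k.target ∧ k.symm u ∈ f.source) ∧
      ∀ u ∈ closedBall (0 : E3) (2 * ρ), ∀ v ∈ closedBall (0 : E3) (2 * ρ),
        |‖e (k.symm v) - e (k.symm u)‖ - ‖v - u‖| ≤ η * ‖v - u‖ ∧
        (η * ‖v - u‖ < ⟪l, v - u⟫ → (f (k.symm u)).2 < (f (k.symm v)).2) := by
  obtain ⟨f, hf, hx⟩ := hA.cov x
  obtain ⟨B, l, hl, hev⟩ := point_data e he hi hA x hf hx hη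
  obtain ⟨k, hs, hk⟩ : ∃ k : OpenPartialHomeomorph M E3, k.source = (chartAt E3 x).source ∧
      ∀ y, k y = B (chartAt E3 x y - chartAt E3 x x) :=
    ⟨(chartAt E3 x).transHomeomorph
      ((Homeomorph.addRight (-(chartAt E3 x x))).trans B.toHomeomorph), rfl,
      fun y => by simp [sub_eq_add_neg]⟩
  have hxs : x ∈ k.source := hs ▸ mem_chart_source E3 x
  have hx0 : k x = 0 := by simp [hk]
  have h0 : (0 : E3) ∈ k.target := hx0 ▸ k.map_source hxs
  have ht : Tendsto k.symm (𝓝 0) (𝓝 x) := by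
    have := k.tendsto_symm hxs
    rwa [hx0] at this
  have h1 : ∀ᶠ u in 𝓝 (0 : E3), u ∈ k.target ∧ k.symm u ∈ f.source :=
    Eventually.and (k.open_target.mem_nhds h0) (ht (f.open_source.mem_nhds hx))
  have h2 := (ht.prodMap_nhds ht).eventually hev
  obtain ⟨r1, hr1, h1⟩ := Metric.eventually_nhds_iff_ball.1 h1
  obtain ⟨r2, hr2, h2⟩ := Metric.eventually_nhds_iff_ball.1 h2
  have hm : 0 < min r1 r2 := lt_min hr1 hr2
  have hb : ∀ u ∈ closedBall (0 : E3) (2 * (min r1 r2 / 4)), u ∈ ball (0 : E3) r1 ∧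
      u ∈ ball (0 : E3) r2 := fun u hu => by
    rw [mem_closedBall] at hu
    have := min_le_left r1 r2
    have := min_le_right r1 r2
    constructor <;> rw [mem_ball] <;> linarith
  refine ⟨f, hf, k, l, min r1 r2 / 4, by positivity, hl, hxs, hx0,
    fun u hu => h1 u (hb u hu).1, fun u hu v hv => ?_⟩
  have h3 := h2 (u, v) (by
    rw [← ball_prod_same]
    exact ⟨(hb u hu).2, (hb v hv).2⟩)
  have h4 : B (dif x (k.symm u) (k.symm v)) = v - u := by
    have e1 := k.right_inv (h1 u (hb u hu).1).1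
    have e2 := k.right_inv (h1 v (hb v hv).1).1
    rw [hk] at e1 e2
    rw [← e1, ← e2, ← map_sub]
    simp only [e1, e2, dif]
    congr 1
    abel
  simp only [Prod.map_fst, Prod.map_snd, h4] at h3
  exact h3

theorem lm_down {A : Set (OpenPartialHomeomorph M ((ℝ × ℝ) × ℝ))} (hA : Foliation A) {η : ℝ}
    (hη : 0 < η) (h1 : η ≤ 1 / 1000) : ∃ L : LM M 3000 η,
      (∀ a, ContinuousOn (L.ψ a) {y | L.d a y < 3000 - 1}) ∧
      (∃ t : Set M, t.Finite ∧ ∀ y, ∃ a ∈ t, L.d y a < 1 / 10) ∧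
      ∀ a, ∃ f ∈ A, a ∈ f.source ∧ ∀ y, L.H a y = (f y).2 := by
  obtain ⟨n, e, he, hemb, hi⟩ := exists_embedding_euclidean_of_compact (I := 𝓘(ℝ, E3)) (M := M)
  have hec : Continuous e := hemb.continuous
  have hη' : 0 < η / 6000 := by positivity
  choose f hf k l ρ hρ hl hxs hx0 htg hpr using a2_pt e he hi hA hη'
  obtain ⟨K, hK⟩ : ∃ K : M → Set M, ∀ x, K x = (k x).symm '' closedBall 0 (2 * ρ x) :=
    ⟨_, fun _ => rfl⟩
  obtain ⟨C, hC⟩ : ∃ C : M → Set M, ∀ x, C x = (k x).symm '' closedBall 0 (ρ x) :=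
    ⟨_, fun _ => rfl⟩
  have hsub : ∀ x, closedBall (0 : E3) (ρ x) ⊆ closedBall 0 (2 * ρ x) := fun x =>
    closedBall_subset_closedBall (by linarith [hρ x])
  have hKc : ∀ x, IsClosed (K x) := fun x => by
    rw [hK]
    exact ((isCompact_closedBall _ _).image_of_continuousOn
      ((k x).continuousOn_symm.mono fun u hu => (htg x u hu).1)).isClosed
  have hCc : ∀ x, IsClosed (C x) := fun x => by
    rw [hC]
    exact ((isCompact_closedBall _ _).image_of_continuousOn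
      ((k x).continuousOn_symm.mono fun u hu => (htg x u (hsub x hu)).1)).isClosed
  have hCn : ∀ x, C x ∈ 𝓝 x := fun x => by
    have h0 : (0 : E3) ∈ (k x).target := hx0 x ▸ (k x).map_source (hxs x)
    have h := (k x).symm.image_mem_nhds h0 (closedBall_mem_nhds (0 : E3) (hρ x))
    have h' : (k x).symm 0 = x := by rw [← hx0 x]; exact (k x).left_inv (hxs x)
    rw [h'] at h
    rwa [hC]
  have hKn : ∀ x, ∀ y ∈ C x, K x ∈ 𝓝 y := fun x y hy => by
    rw [hC] at hy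
    obtain ⟨u, hu, rfl⟩ := hy
    rw [hK]
    refine (k x).symm.image_mem_nhds (htg x u (hsub x hu)).1 (closedBall_mem_nhds_of_mem ?_)
    rw [mem_closedBall] at hu
    rw [mem_ball]
    linarith [hρ x]
  have hKm : ∀ x, ∀ y ∈ K x, y ∈ (k x).source ∧ y ∈ (f x).source ∧
      k x y ∈ closedBall (0 : E3) (2 * ρ x) := fun x y hy => by
    rw [hK] at hy
    obtain ⟨u, hu, rfl⟩ := hy
    refine ⟨(k x).map_target (htg x u hu).1, (htg x u hu).2, ?_⟩
    rwa [(k x).right_inv (htg x u hu).1]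
  have hCm : ∀ x, ∀ y ∈ C x, ‖k x y‖ ≤ ρ x := fun x y hy => by
    rw [hC] at hy
    obtain ⟨u, hu, rfl⟩ := hy
    rw [(k x).right_inv (htg x u (hsub x hu)).1]
    exact mem_closedBall_zero_iff.1 hu
  obtain ⟨t, ht⟩ := CompactSpace.elim_nhds_subcover C hCn
  have hcov : ∀ a, ∃ x ∈ t, a ∈ C x := fun a => by
    have : a ∈ ⋃ x ∈ t, C x := ht ▸ mem_univ a
    simpa using this
  choose i hit hiC using hcov
  obtain ⟨lam, hlam, hP⟩ := a2_unif e hec hemb.injective (fun q => ∀ x ∈ t,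
      (q.1 ∈ C x → q.2 ∈ K x) ∧ ∀ x' ∈ t, q.1 ∈ K x → q.1 ∈ K x' →
        ((f x q.1).2 < (f x q.2).2 ↔ (f x' q.1).2 < (f x' q.2).2)) (fun y => by
    refine (eventually_all_finset t).2 fun x _ => Eventually.and ?_
      ((eventually_all_finset t).2 fun x' _ => ?_)
    · by_cases hy : y ∈ C x
      · filter_upwards [continuous_snd.continuousAt.preimage_mem_nhds
          (x := (y, y)) (hKn x y hy)] with q hq _ using hq
      · filter_upwards [continuous_fst.continuousAt.preimage_mem_nhds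
          (x := (y, y)) ((hCc x).isOpen_compl.mem_nhds hy)] with q hq h using absurd h hq
    · by_cases hy : y ∈ K x
      · by_cases hy' : y ∈ K x'
        · filter_upwards [hA.ord _ (hf x) _ (hf x') y ⟨(hKm x y hy).2.1, (hKm x' y hy').2.1⟩]
            with q hq _ _ using hq
        · filter_upwards [continuous_fst.continuousAt.preimage_mem_nhds
            (x := (y, y)) ((hKc x').isOpen_compl.mem_nhds hy')] with q hq _ h using absurd h hq
      · filter_upwards [continuous_fst.continuousAt.preimage_mem_nhds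
          (x := (y, y)) ((hKc x).isOpen_compl.mem_nhds hy)] with q hq h using absurd h hq)
  obtain ⟨ε, ⟨hε1, hε2⟩, hε⟩ : ∃ ε : ℝ, (ε * 6000 < lam ∧ ∀ x ∈ t, ε * 3000 < ρ x) ∧ 0 < ε := by
    have h : ∀ c r : ℝ, 0 < r → ∀ᶠ ε in 𝓝 (0 : ℝ), ε * c < r := fun c r hr =>
      ContinuousAt.eventually_lt (f := fun ε : ℝ => ε * c) (g := fun _ => r) (by fun_prop)
        continuousAt_const (by simpa using hr)
    have h' : ∀ᶠ ε in 𝓝 (0 : ℝ), ε * 6000 < lam ∧ ∀ x ∈ t, ε * 3000 < ρ x :=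
      (h _ _ hlam).and ((eventually_all_finset t).2 fun x _ => h _ _ (hρ x))
    exact ((h'.filter_mono (nhdsWithin_le_nhds (s := Ioi 0))).and self_mem_nhdsWithin).exists
  have hd : ∀ y z, ‖e y - e z‖ / ε < 6000 → ‖e y - e z‖ < lam := fun y z h => by
    rw [div_lt_iff₀ hε] at h
    linarith
  have hnear : ∀ a y, ‖e a - e y‖ / ε < 3000 - 1 → y ∈ K (i a) := fun a y h =>
    (hP a y (hd a y (by linarith)) _ (hit a)).1 (hiC a)
  have haK : ∀ a, a ∈ K (i a) := fun a => hnear a a (by simp)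
  have hin : ∀ a, ∀ u ∈ ball (0 : E3) 3000,
      k (i a) a + ε • u ∈ closedBall (0 : E3) (2 * ρ (i a)) := fun a u hu => by
    rw [mem_ball_zero_iff] at hu
    rw [mem_closedBall_zero_iff]
    have h2 := norm_add_le (k (i a) a) (ε • u)
    rw [norm_smul, Real.norm_of_nonneg hε.le] at h2
    have h3 := hCm _ _ (hiC a)
    have h4 := hε2 _ (hit a)
    nlinarith
  have hsm : ∀ (w u v : E3), w + ε • v - (w + ε • u) = ε • (v - u) := fun w u v => by
    rw [smul_sub]; abel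
  have htri : ∀ x y z, ‖e x - e z‖ / ε ≤ ‖e x - e y‖ / ε + ‖e y - e z‖ / ε := fun x y z => by
    rw [← add_div]
    exact div_le_div_of_nonneg_right (norm_sub_le_norm_sub_add_norm_sub _ _ _) hε.le
  have hnh : ∀ a r, 0 < r → {y | ‖e a - e y‖ / ε < r} ∈ 𝓝 a := fun a r hr =>
    (isOpen_lt (by fun_prop) continuous_const).mem_nhds (by simpa using hr)
  refine ⟨
    { d := fun y z => ‖e y - e z‖ / ε
      χ := fun a u => (k (i a)).symm (k (i a) a + ε • u)
      ψ := fun a y => ε⁻¹ • (k (i a) y - k (i a) a)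
      l := fun a => l (i a)
      H := fun a y => (f (i a) y).2
      d_self := fun a => by simp
      symm := fun x y => by rw [norm_sub_rev]
      tri := htri
      nhds := hnh
      χ0 := fun a => by simpa using (k (i a)).left_inv (hKm _ _ (haK a)).1
      cont := fun a => (k (i a)).continuousOn_symm.comp (by fun_prop)
        fun u hu => (htg _ _ (hin a u hu)).1
      left := fun a u hu => by
        rw [(k (i a)).right_inv (htg _ _ (hin a u hu)).1, add_sub_cancel_left, smul_smul,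
          inv_mul_cancel₀ hε.ne', one_smul]
      right := fun a y h => ?_
      iso := fun a u hu v hv => ?_
      unit := fun a => hl _
      hcont := fun a => continuous_snd.comp_continuousOn
        ((f (i a)).continuousOn.mono fun y hy => (hKm _ _ (hnear a y hy)).2.1)
      cone := fun a u hu v hv h => ?_
      compat := fun a b x y hax hay hbx hby h => ?_ }, fun a => ?_, ?_, fun a => ?_⟩
  · obtain ⟨hy1, -, hy3⟩ := hKm _ _ (hnear a y h)
    obtain ⟨ha1, -, ha3⟩ := hKm _ _ (haK a)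
    constructor
    · have h2 := (hpr _ _ ha3 _ hy3).1
      rw [(k (i a)).left_inv hy1, (k (i a)).left_inv ha1, norm_sub_rev (e y)] at h2
      rw [div_lt_iff₀ hε] at h
      rw [mem_ball_zero_iff, norm_smul, norm_inv, Real.norm_of_nonneg hε.le, inv_mul_lt_iff₀ hε]
      have h3 := (abs_le.1 h2).1
      have h4 := norm_nonneg (k (i a) y - k (i a) a)
      nlinarith
    · rw [smul_smul, mul_inv_cancel₀ hε.ne', one_smul, add_sub_cancel, (k (i a)).left_inv hy1]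
  · have h2 := (hpr _ _ (hin a v hv) _ (hin a u hu)).1
    rw [hsm, norm_smul, Real.norm_of_nonneg hε.le] at h2
    have h3 : ‖u - v‖ ≤ 6000 := by
      rw [mem_ball_zero_iff] at hu hv
      linarith [norm_sub_le u v]
    have h4 : ∀ s : ℝ, s / ε - ‖u - v‖ = (s - ε * ‖u - v‖) / ε := fun s => by field_simp
    rw [h4, abs_div, abs_of_pos hε, div_le_iff₀ hε]
    refine h2.trans ?_
    have h5 := mul_le_mul_of_nonneg_left h3 (mul_pos hη hε).le
    nlinarith
  · refine (hpr _ _ (hin a u hu) _ (hin a v hv)).2 ?_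
    rw [hsm, norm_smul, Real.norm_of_nonneg hε.le, real_inner_smul_right]
    have h2 := mul_lt_mul_of_pos_left h hε
    have h3 := mul_nonneg (mul_pos hη hε).le (norm_nonneg (v - u))
    nlinarith
  · have h2 := htri x a y
    rw [norm_sub_rev (e x) (e a)] at h2
    exact ((hP x y (hd x y (by linarith)) _ (hit a)).2 _ (hit b) (hnear a x hax)
      (hnear b x hbx)).1 h
  · exact (((k (i a)).continuousOn.mono fun y hy => (hKm _ _ (hnear a y hy)).1).sub
      continuousOn_const).const_smul ε⁻¹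
  · obtain ⟨s, hs⟩ := CompactSpace.elim_nhds_subcover _ fun a => hnh a (1 / 10) (by norm_num)
    refine ⟨s, s.finite_toSet, fun y => ?_⟩
    have h : y ∈ ⋃ x ∈ s, {y | ‖e x - e y‖ / ε < 1 / 10} := hs ▸ mem_univ y
    simp only [mem_iUnion, mem_setOf_eq] at h
    obtain ⟨a, ha, h⟩ := h
    exact ⟨a, ha, by rwa [norm_sub_rev] at h⟩
  · exact ⟨f (i a), hf _, (hKm _ _ (haK a)).2.1, fun _ => rfl⟩

end Pool.Agent.Work.MP_3d425c_gt.Sm
end

-- merged part: Pool.Agent.Work.MP_3d425c_gt.Sm.Basic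
section
/-! Basic facts on local models. -/

namespace Pool.Agent.Work.MP_3d425c_gt.Sm
open Set Relation Metric Topology Filter
open scoped RealInnerProductSpace Manifold ContDiff

variable {Y : Type} [TopologicalSpace Y] {R η : ℝ} (L : LM Y R η)

theorem LM.nonneg (x y : Y) : 0 ≤ L.d x y := by
  have := L.tri x y x
  rw [L.d_self, L.symm y x] at this
  linarith

theorem LM.ψ_self (hR : 0 < R) (a : Y) : L.ψ a a = 0 := by
  have := L.left a 0 (mem_ball_self hR)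
  rwa [L.χ0] at this

/-- distance to the centre -/
theorem LM.d_χ (a : Y) {u : E3} (hu : ‖u‖ < R) : |L.d a (L.χ a u) - ‖u‖| ≤ η := by
  have h0 : 0 < R := (norm_nonneg u).trans_lt hu
  have := L.iso a 0 (mem_ball_self h0) u (mem_ball_zero_iff.2 hu)
  rwa [L.χ0, zero_sub, norm_neg] at this

theorem LM.d_ψ (a : Y) {x y : Y} (hx : L.d a x < R - 1) (hy : L.d a y < R - 1) :
    |L.d x y - ‖L.ψ a x - L.ψ a y‖| ≤ η := by
  have := L.iso a _ (L.right a x hx).1 _ (L.right a y hy).1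
  rwa [(L.right a x hx).2, (L.right a y hy).2] at this

theorem LM.d_χψ (a : Y) {u : E3} (hu : ‖u‖ < R) {y : Y} (hy : L.d a y < R - 1) :
    |L.d (L.χ a u) y - ‖u - L.ψ a y‖| ≤ η := by
  have := L.iso a _ (mem_ball_zero_iff.2 hu) _ (L.right a y hy).1
  rwa [(L.right a y hy).2] at this

theorem LM.norm_ψ (a : Y) {y : Y} (hy : L.d a y < R - 1) : |L.d a y - ‖L.ψ a y‖| ≤ η := by
  have := L.d_χ a (mem_ball_zero_iff.1 (L.right a y hy).1)
  rwa [(L.right a y hy).2] at this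

theorem LM.compat_le {a b x y : Y} (h1 : L.d a x < R - 1) (h2 : L.d a y < R - 1)
    (h3 : L.d b x < R - 1) (h4 : L.d b y < R - 1) (h : L.H a x ≤ L.H a y) : L.H b x ≤ L.H b y :=
  not_lt.1 fun c => not_lt.2 h (L.compat b a y x h4 h3 h2 h1 c)

theorem LM.compat_eq {a b x y : Y} (h1 : L.d a x < R - 1) (h2 : L.d a y < R - 1)
    (h3 : L.d b x < R - 1) (h4 : L.d b y < R - 1) (h : L.H a x = L.H a y) : L.H b x = L.H b y :=
  le_antisymm (L.compat_le h1 h2 h3 h4 h.le) (L.compat_le h2 h1 h4 h3 h.ge)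

theorem LM.cone_ψ (a : Y) {x y : Y} (hx : L.d a x < R - 1) (hy : L.d a y < R - 1)
    (h : η * ‖L.ψ a y - L.ψ a x‖ < ⟪L.l a, L.ψ a y - L.ψ a x⟫) : L.H a x < L.H a y := by
  have := L.cone a _ (L.right a x hx).1 _ (L.right a y hy).1 h
  rwa [(L.right a x hx).2, (L.right a y hy).2] at this

theorem LM.Inv.ψ {G : Type} [Group G] [MulAction G Y] (h : L.Inv G) (g : G) {a y : Y}
    (hy : L.d a y < R - 1) : L.ψ (g • a) (g • y) = L.ψ a y := by
  have := L.left (g • a) _ (L.right a y hy).1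
  rwa [h.χ g a _ (L.right a y hy).1, (L.right a y hy).2] at this

/-- packing -/
theorem pack : ∃ N : ℕ, ∀ (Y : Type) [TopologicalSpace Y] (η : ℝ) (L : LM Y 300 η), η ≤ 1 / 1000 →
    ∀ a, ∀ s : Set Y, (∀ p ∈ s, ∀ q ∈ s, p ≠ q → 1 / 2 ≤ L.d p q) → (∀ p ∈ s, L.d a p < 299) →
      s.Finite ∧ s.ncard ≤ N := by
  obtain ⟨t, -, ht, hc⟩ := (isCompact_closedBall (0 : E3) 300).finite_cover_balls
    (show (0 : ℝ) < 1 / 5 by norm_num)
  refine ⟨t.ncard, fun Y _ η L hη a s hs hd => ?_⟩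
  have : ∀ p : Y, ∃ c, p ∈ s → c ∈ t ∧ L.ψ a p ∈ ball c (1 / 5) := fun p => by
    by_cases hp : p ∈ s
    · obtain ⟨c, h1, h2⟩ := mem_iUnion₂.1
        (hc (ball_subset_closedBall (L.right a p (by linarith [hd p hp])).1))
      exact ⟨c, fun _ => ⟨h1, h2⟩⟩
    · exact ⟨0, fun h => absurd h hp⟩
  choose c hc using this
  have inj : InjOn c s := fun p hp q hq e => by
    by_contra ne
    have h1 := hs p hp q hq ne
    have h2 := L.d_ψ a (x := p) (y := q) (by linarith [hd p hp]) (by linarith [hd q hq])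
    have h3 := dist_triangle_right (L.ψ a p) (L.ψ a q) (c p)
    have h4 := mem_ball.1 (hc p hp).2
    have h5 := mem_ball.1 (hc q hq).2
    rw [← e] at h5
    rw [dist_eq_norm] at h3
    linarith [(abs_le.1 h2).2]
  exact ⟨Finite.of_finite_image (ht.subset (image_subset_iff.2 fun p hp => (hc p hp).1)) inj,
    ncard_le_ncard_of_injOn c (fun p hp => (hc p hp).1) inj ht⟩

/-- `N` sets of small diameter do not cover `[0, r]` -/
theorem avoid (N : ℕ) {r : ℝ} (hr : 0 < r) : ∃ τ > 0, ∀ (κ : Type) (s : Set κ) (B : κ → Set ℝ),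
    s.Finite → s.ncard ≤ N → (∀ k ∈ s, ∀ x ∈ B k, ∀ y ∈ B k, |x - y| ≤ τ) →
      ∃ t ∈ Icc 0 r, ∀ k ∈ s, t ∉ B k := by
  refine ⟨r / (2 * (N + 1)), by positivity, fun κ s B hs hN hB => ?_⟩
  by_contra hc
  push Not at hc
  have hm : ∀ i : Fin (N + 1), (i : ℝ) * (r / (N + 1)) ∈ Icc 0 r := fun i => by
    refine ⟨by positivity, ?_⟩
    have : (i : ℝ) ≤ N + 1 := by exact_mod_cast i.2.le
    calc (i : ℝ) * (r / (N + 1)) ≤ (N + 1) * (r / (N + 1)) := by gcongr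
      _ = r := by field_simp
  choose k hk hkB using fun i => hc _ (hm i)
  have inj : Function.Injective k := fun i j e => by
    have := hB _ (hk i) _ (hkB i) _ (e ▸ hkB j)
    rw [← sub_mul, abs_mul, abs_of_pos (show 0 < r / (N + 1) by positivity)] at this
    have h2 : |(i : ℝ) - j| ≤ 1 / 2 := by
      have h3 : r / (2 * (N + 1)) = 1 / 2 * (r / (N + 1)) := by field_simp
      rw [h3] at this
      exact le_of_mul_le_mul_right this (by positivity)
    have h4 : |((i : ℕ) : ℤ) - (j : ℕ)| < 1 := by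
      have : |(i : ℝ) - j| < 1 := by linarith
      exact_mod_cast this
    have := Int.abs_lt_one_iff.1 h4
    exact Fin.ext (by omega)
  have := ncard_le_ncard_of_injOn (s := (univ : Set (Fin (N + 1)))) k (fun i _ => hk i)
    inj.injOn hs
  rw [ncard_univ, Nat.card_eq_fintype_card, Fintype.card_fin] at this
  omega

end Pool.Agent.Work.MP_3d425c_gt.Sm
end

-- merged part: Pool.Agent.Work.MP_3d425c_gt.Sm.A3
section
/-! Block A3: the local model on a covering. Plan: χ a = the lift of L0.χ (p a) on ball 0 3000 with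
χ a 0 = a (hp.isCoveringMap.existsUnique_continuousMap_lifts; the ball is convex, so simply connected
and locally path connected), ψ a y = L0.ψ (p a) (p y), l a = L0.l (p a), H a y = L0.H (p a) (p y),
d x y = if y ∈ χ x '' ball 0 3000 ∧ L0.d (p x) (p y) < 900 then L0.d (p x) (p y) else 900.
KEY: if δ : [0,1] → Y is continuous, δ 0 ∈ χ a '' ball, and L0.d (p a) (p (δ t)) < 2999 for all t, then
δ t = χ a (L0.ψ (p a) (p (δ t))) (two lifts of one path: IsCoveringMap.eq_of_comp_eq). Apply KEY to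
straight segments in charts for symm, tri, iso; nhds by local injectivity of p; Inv.χ by uniqueness
of lifts; far: g • y = χ y (ψ (p y) (p y)) = y. -/

namespace Pool.Agent.Work.MP_3d425c_gt.Sm
open Set Relation Metric Topology Filter
open scoped RealInnerProductSpace Manifold ContDiff

theorem a3_lift {M Y : Type} [TopologicalSpace M] [TopologicalSpace Y] {p : Y → M}
    (hp : IsCoveringMap p) {f : E3 → M} (hf : ContinuousOn f (ball 0 3000)) (a : Y)
    (ha : p a = f 0) : ∃ F : E3 → Y, ContinuousOn F (ball 0 3000) ∧ F 0 = a ∧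
      ∀ u ∈ ball (0 : E3) 3000, p (F u) = f u := by
  classical
  have h0 : (0 : E3) ∈ ball (0 : E3) 3000 := mem_ball_self (by norm_num)
  have := (convex_ball (0 : E3) 3000).contractibleSpace ⟨0, h0⟩
  have := (isOpen_ball (x := (0 : E3)) (ε := 3000)).locallyPathConnectedSpace
  obtain ⟨F, ⟨h1, h2⟩, -⟩ := hp.existsUnique_continuousMap_lifts
    (A := ball (0 : E3) 3000) ⟨fun u => f u, hf.domRestrict⟩ ⟨0, h0⟩ a ha
  refine ⟨fun u => if h : u ∈ ball (0 : E3) 3000 then F ⟨u, h⟩ else a, ?_, ?_, fun u hu => ?_⟩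
  · rw [continuousOn_iff_continuous_domRestrict]
    refine F.continuous.congr fun u => ?_
    show F u = if h : u.1 ∈ ball (0 : E3) 3000 then F ⟨u.1, h⟩ else a
    rw [dif_pos u.2]
  · exact (dif_pos h0).trans h1
  · simp only [dif_pos hu]
    exact congrFun h2 ⟨u, hu⟩

theorem lm_up {M Y G : Type} [TopologicalSpace M] [TopologicalSpace Y] [Group G] [MulAction G Y]
    (p : Y → M) (hp : IsQuotientCoveringMap p G) {η : ℝ} (hη : 0 < η) (h1 : η ≤ 1 / 1000)
    (L0 : LM M 3000 η) (hψ : ∀ a, ContinuousOn (L0.ψ a) {y | L0.d a y < 3000 - 1})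
    (hc : ∃ t : Set M, t.Finite ∧ ∀ y, ∃ a ∈ t, L0.d y a < 1 / 10) :
    ∃ L : LM Y 300 η, L.Inv G ∧ ∀ a y, L.H a y = L0.H (p a) (p y) := by
  classical
  have cov := hp.isCoveringMap
  have h0 : (0 : E3) ∈ ball (0 : E3) 3000 := mem_ball_self (by norm_num)
  choose χ c1 c0 c2 using fun a : Y => a3_lift cov (L0.cont (p a)) a (L0.χ0 (p a)).symm
  have lf : ∀ a, ∀ u ∈ ball (0 : E3) 3000, L0.ψ (p a) (p (χ a u)) = u := fun a u hu => by
    rw [c2 a u hu, L0.left _ u hu]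
  have nm : ∀ a, ∀ u ∈ ball (0 : E3) 3000, ‖u‖ ≤ L0.d (p a) (p (χ a u)) + η := fun a u hu => by
    have := L0.d_χ (p a) (mem_ball_zero_iff.1 hu)
    rw [c2 a u hu]
    linarith [(abs_le.1 this).1]
  have iso : ∀ a, ∀ u ∈ ball (0 : E3) 3000, ∀ v ∈ ball (0 : E3) 3000,
      |L0.d (p (χ a u)) (p (χ a v)) - ‖u - v‖| ≤ η := fun a u hu v hv => by
    rw [c2 a u hu, c2 a v hv]
    exact L0.iso _ u hu v hv
  let N : Y → Y → Prop := fun x y => y ∈ χ x '' ball 0 3000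
  have TT : ∀ a, ∀ u ∈ ball (0 : E3) 3000, ∀ v ∈ ball (0 : E3) 3000, ‖u - v‖ < 2998 →
      N (χ a u) (χ a v) := by
    intro a u hu v hv huv
    have hs : segment ℝ u v ⊆ ball 0 3000 := (convex_ball _ _).segment_subset hu hv
    have hd : ∀ w ∈ segment ℝ u v, L0.d (p (χ a u)) (p (χ a w)) < 3000 - 1 := fun w hw => by
      have k1 := (abs_le.1 (iso a u hu w (hs hw))).2
      have k2 := dist_add_dist_of_mem_segment hw
      have k3 := dist_nonneg (x := w) (y := v)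
      rw [dist_eq_norm u w, dist_eq_norm u v] at k2
      linarith
    have cc : ContinuousOn (χ a) (segment ℝ u v) := (c1 a).mono hs
    have e := cov.eqOn_of_comp_eqOn (convex_segment u v).isPreconnected cc
      (g₂ := fun w => χ (χ a u) (L0.ψ (p (χ a u)) (p (χ a w))))
      ((c1 _).comp ((hψ _).comp (cov.continuous.comp_continuousOn cc) hd)
        fun w hw => (L0.right _ _ (hd w hw)).1)
      (fun w hw => ((c2 _ _ (L0.right _ _ (hd w hw)).1).trans (L0.right _ _ (hd w hw)).2).symm)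
      (left_mem_segment ℝ u v) (by rw [L0.ψ_self (by norm_num), c0])
    exact ⟨_, (L0.right _ _ (hd v (right_mem_segment ℝ u v))).1,
      (e (right_mem_segment ℝ u v)).symm⟩
  have Ns : ∀ x y, N x y → L0.d (p x) (p y) < 900 → N y x := by
    rintro x _ ⟨u, hu, rfl⟩ h
    have := TT x u hu 0 h0 (by rw [sub_zero]; linarith [nm x u hu])
    rwa [c0] at this
  let d : Y → Y → ℝ := fun x y => if N x y ∧ L0.d (p x) (p y) < 900 then L0.d (p x) (p y) else 900
  have d1 : ∀ x y, N x y → L0.d (p x) (p y) < 900 → d x y = L0.d (p x) (p y) :=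
    fun x y h k => if_pos ⟨h, k⟩
  have d2 : ∀ x y, d x y < 900 → N x y ∧ L0.d (p x) (p y) < 900 ∧ d x y = L0.d (p x) (p y) := by
    intro x y h
    by_cases k : N x y ∧ L0.d (p x) (p y) < 900
    · exact ⟨k.1, k.2, if_pos k⟩
    · exact absurd h (by simp only [d, if_neg k, lt_irrefl, not_false_eq_true])
  have d3 : ∀ x y, 0 ≤ d x y ∧ d x y ≤ 900 := fun x y => by
    simp only [d]
    split_ifs with k
    · exact ⟨L0.nonneg _ _, k.2.le⟩
    · norm_num
  have d4 : ∀ x y, d x y < 300 - 1 → L0.d (p x) (p y) < 3000 - 1 := fun x y h => by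
    have := d2 x y (by linarith)
    linarith [this.2.1]
  have sub : ball (0 : E3) 300 ⊆ ball 0 3000 := ball_subset_ball (by norm_num)
  have cs : ∀ (g : G) a, ∀ u ∈ ball (0 : E3) 3000, χ (g • a) u = g • χ a u := fun g a =>
    cov.eqOn_of_comp_eqOn (convex_ball _ _).isPreconnected (c1 _)
      ((hp.continuous_const_smul g).comp_continuousOn (c1 a))
      (fun u hu => by
        simp only [Function.comp_apply]
        rw [hp.map_smul, c2 _ u hu, c2 _ u hu, hp.map_smul]) h0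
      (by simp only [c0])
  have Ng : ∀ (g : G) x y, N x y → N (g • x) (g • y) := by
    rintro g x _ ⟨u, hu, rfl⟩
    exact ⟨u, hu, cs g x u hu⟩
  refine ⟨{
    d := d
    χ := χ
    ψ := fun a y => L0.ψ (p a) (p y)
    l := fun a => L0.l (p a)
    H := fun a y => L0.H (p a) (p y)
    d_self := fun a => (d1 a a ⟨0, h0, c0 a⟩ (by rw [L0.d_self]; norm_num)).trans (L0.d_self _)
    symm := fun x y => ?_
    tri := fun x y z => ?_
    nhds := fun a r hr => ?_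
    χ0 := c0
    cont := fun a => (c1 a).mono sub
    left := fun a u hu => lf a u (sub hu)
    right := fun a y h => ?_
    iso := fun a u hu v hv => ?_
    unit := fun a => L0.unit _
    hcont := fun a => (L0.hcont (p a)).comp cov.continuous.continuousOn fun y hy => d4 a y hy
    cone := fun a u hu v hv h => by
      rw [c2 a u (sub hu), c2 a v (sub hv)]
      exact L0.cone _ u (sub hu) v (sub hv) h
    compat := fun a b x y k1 k2 k3 k4 =>
      L0.compat _ _ _ _ (d4 _ _ k1) (d4 _ _ k2) (d4 _ _ k3) (d4 _ _ k4) },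
    ⟨fun g x y => ?_, fun g a u hu => cs g a u (sub hu), fun g a y => ?_, fun g y h => ?_, ?_⟩,
    fun _ _ => rfl⟩
  · refine if_congr ⟨fun h => ⟨Ns _ _ h.1 h.2, L0.symm _ _ ▸ h.2⟩,
      fun h => ⟨Ns _ _ h.1 h.2, L0.symm _ _ ▸ h.2⟩⟩ (L0.symm _ _) rfl
  · by_cases h : d x y + d y z < 900
    · obtain ⟨n1, k1, e1⟩ := d2 x y (by linarith [(d3 y z).1])
      obtain ⟨⟨v, hv, rfl⟩, k2, e2⟩ := d2 y z (by linarith [(d3 x y).1])
      obtain ⟨u, hu, rfl⟩ := Ns _ _ n1 k1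
      have t := L0.tri (p (χ y u)) (p y) (p (χ y v))
      have k3 := nm y u hu
      rw [L0.symm] at k3
      rw [d1 _ _ (TT y u hu v hv (by linarith [norm_sub_le u v, nm y v hv])) (by linarith)]
      linarith
    · linarith [(d3 x z).2]
  · obtain ⟨U, hU, ha, inj⟩ := cov.isLocalHomeomorph.isLocallyInjective a
    have pa : Tendsto p (𝓝 a) (𝓝 (p a)) := cov.continuous.continuousAt
    have t1 : Tendsto (fun y => L0.ψ (p a) (p y)) (𝓝 a) (𝓝 0) := by
      have := ((hψ (p a)).continuousAt (L0.nhds _ _ (by norm_num))).tendsto.comp pa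
      rwa [L0.ψ_self (by norm_num)] at this
    have t2 : Tendsto (fun y => χ a (L0.ψ (p a) (p y))) (𝓝 a) (𝓝 a) := by
      have := ((c1 a).continuousAt (isOpen_ball.mem_nhds h0)).tendsto.comp t1
      rwa [c0] at this
    filter_upwards [pa (L0.nhds (p a) (min r 900) (lt_min hr (by norm_num))),
      t2 (hU.mem_nhds ha), hU.mem_nhds ha] with y k1 k2 k3
    have k4 : L0.d (p a) (p y) < min r 900 := k1
    have k5 := L0.right (p a) (p y) (by linarith [min_le_right r 900])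
    show d a y < r
    rw [d1 a y ⟨_, k5.1, inj k2 k3 ((c2 _ _ k5.1).trans k5.2)⟩ (k4.trans_le (min_le_right _ _))]
    exact k4.trans_le (min_le_left _ _)
  · obtain ⟨⟨u, hu, rfl⟩, -, e⟩ := d2 a y (by linarith)
    rw [lf a u hu]
    exact ⟨mem_ball_zero_iff.2 (by linarith [nm a u hu]), rfl⟩
  · have k := iso a u (sub hu) v (sub hv)
    have k1 : ‖u - v‖ < 600 := by
      linarith [norm_sub_le u v, mem_ball_zero_iff.1 hu, mem_ball_zero_iff.1 hv]
    rwa [d1 _ _ (TT a u (sub hu) v (sub hv) (by linarith)) (by linarith [(abs_le.1 k).2])]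
  · show d (g • x) (g • y) = d x y
    simp only [d, hp.map_smul]
    refine if_congr (and_congr_left' ⟨fun h => ?_, Ng g x y⟩) rfl rfl
    simpa only [inv_smul_smul] using Ng g⁻¹ _ _ h
  · show L0.H (p (g • a)) (p (g • y)) = L0.H (p a) (p y)
    rw [hp.map_smul, hp.map_smul]
  · have h' : d y (g • y) < 300 := h
    obtain ⟨⟨u, hu, e⟩, -, -⟩ := d2 y (g • y) (by linarith)
    have e1 := lf y u hu
    rw [e, hp.map_smul, L0.ψ_self (by norm_num)] at e1
    rw [← e1, c0] at e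
    obtain ⟨U, hU, k⟩ := hp.disjoint y
    exact k g ⟨y, ⟨y, mem_of_mem_nhds hU, e.symm⟩, mem_of_mem_nhds hU⟩
  · obtain ⟨t, ht, hc⟩ := hc
    choose s hs using hp.surjective
    refine ⟨s '' t, ht.image s, fun y => ?_⟩
    obtain ⟨a, ha, k⟩ := hc (p y)
    have k5 := L0.right (p y) a (by linarith)
    have e : p (χ y (L0.ψ (p y) a)) = a := (c2 _ _ k5.1).trans k5.2
    obtain ⟨g, hg⟩ := hp.apply_eq_iff_mem_orbit.1 (e.trans (hs a).symm)
    have hg' : g • s a = χ y (L0.ψ (p y) a) := hg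
    refine ⟨g, s a, ⟨a, ha, rfl⟩, ?_⟩
    show d y (g • s a) < 1 / 10
    rw [hg', d1 _ _ ⟨_, k5.1, rfl⟩ (by rw [e]; linarith), e]
    exact k

end Pool.Agent.Work.MP_3d425c_gt.Sm
end

-- merged part: Pool.Agent.Work.MP_3d425c_gt.Sm.P1
section
/-! Block P1: simple polytopes. `exit`: move from u along n ≠ 0 until a constraint with ⟪a i, n⟫ > 0
becomes tight (boundedness, finiteness). `orth`: otherwise exit gives four tight constraints.
`ext`: at most two tight constraints have a common orthogonal n ≠ 0. `dual`: n ↦ (⟪a i, n⟫) on the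
three tight constraints is injective by orth, so bijective. `step`: d = u2 - u is a nonnegative
combination of the dual vectors, one of them with positive coefficient improves μ; exit along it.
`two`: the points with i, j tight lie on the line u + t n k; at an interior point of the segment a third
tight constraint would be orthogonal to n k. `conn`: μ = sum of the a i over τ is maximal only at the
vertex of τ; induct on the number of triangles with larger value. -/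

namespace Pool.Agent.Work.MP_3d425c_gt.Sm
open Set Relation Metric Topology Filter
open scoped RealInnerProductSpace

variable {ι : Type} {I : Set ι} {a : ι → E3} {b : ι → ℝ}

theorem SP.compact (h : SP I a b) : IsCompact (Pt I a b) := by
  refine Metric.isCompact_of_isClosed_isBounded ?_ h.bdd
  have e : Pt I a b = ⋂ i ∈ I, {u : E3 | ⟪a i, u⟫ ≤ b i} := by
    ext u
    simp only [Pt, mem_ofPred_eq, mem_iInter]
  rw [e]
  exact isClosed_biInter fun i _ => isClosed_le (continuous_const.inner continuous_id)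
    continuous_const

theorem SP.convex (I : Set ι) (a : ι → E3) (b : ι → ℝ) : Convex ℝ (Pt I a b) := by
  intro u hu v hv s t hs ht hst i hi
  have h1 := mul_le_mul_of_nonneg_left (hu i hi) hs
  have h2 := mul_le_mul_of_nonneg_left (hv i hi) ht
  have h3 : s * b i + t * b i = b i := by rw [← add_mul, hst, one_mul]
  rw [inner_add_right, real_inner_smul_right, real_inner_smul_right]
  linarith

theorem p1_line (x u n : E3) (t : ℝ) : ⟪x, u + t • n⟫ = ⟪x, u⟫ + t * ⟪x, n⟫ := by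
  rw [inner_add_right, real_inner_smul_right]

theorem SP.p1_fin (h : SP I a b) (u : E3) : (Tg I a b u).Finite :=
  h.fin.subset fun _ hi => hi.1

theorem SP.exit (h : SP I a b) {u n : E3} (hu : u ∈ Pt I a b) (hn : n ≠ 0) :
    ∃ t : ℝ, 0 ≤ t ∧ u + t • n ∈ Pt I a b ∧ ∃ i ∈ Tg I a b (u + t • n), 0 < ⟪a i, n⟫ := by
  have hJ : {i | i ∈ I ∧ 0 < ⟪a i, n⟫}.Nonempty := by
    by_contra hc
    obtain ⟨C, hC⟩ := h.bdd.exists_norm_le
    have n0 : 0 < ‖n‖ := norm_pos_iff.2 hn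
    have c0 : 0 ≤ C := (norm_nonneg _).trans (hC u hu)
    have t0 : 0 ≤ (2 * C + 1) / ‖n‖ := by positivity
    have hm : u + ((2 * C + 1) / ‖n‖) • n ∈ Pt I a b := fun i hi => by
      have h1 : ⟪a i, n⟫ ≤ 0 := not_lt.1 fun h => hc ⟨i, hi, h⟩
      have h2 := mul_nonpos_of_nonneg_of_nonpos t0 h1
      have h3 := hu i hi
      rw [p1_line]
      linarith
    have h1 := hC _ hm
    have h2 := hC u hu
    have h3 := norm_sub_le (u + ((2 * C + 1) / ‖n‖) • n) u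
    rw [add_sub_cancel_left, norm_smul, Real.norm_of_nonneg t0, div_mul_cancel₀ _ n0.ne'] at h3
    linarith
  obtain ⟨i, ⟨hi, ni⟩, hmin⟩ := Set.exists_min_image _ (fun i => (b i - ⟪a i, u⟫) / ⟪a i, n⟫)
    (h.fin.subset fun _ hi => hi.1) hJ
  have t0 : 0 ≤ (b i - ⟪a i, u⟫) / ⟪a i, n⟫ := div_nonneg (sub_nonneg.2 (hu i hi)) ni.le
  refine ⟨_, t0, fun j hj => ?_, i, ⟨hi, ?_⟩, ni⟩
  · rw [p1_line]
    rcases lt_or_ge 0 ⟪a j, n⟫ with c | c
    · have := (le_div_iff₀ c).1 (hmin j ⟨hj, c⟩)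
      linarith
    · have h2 := mul_nonpos_of_nonneg_of_nonpos t0 c
      have h3 := hu j hj
      linarith
  · rw [p1_line, div_mul_cancel₀ _ ni.ne', add_sub_cancel]

theorem SP.p1_grow (h : SP I a b) {u n : E3} (hu : u ∈ Pt I a b) (h0 : n ≠ 0)
    (hn : ∀ i ∈ Tg I a b u, ⟪a i, n⟫ = 0) : ∃ u' ∈ Pt I a b, Tg I a b u ⊆ Tg I a b u' ∧
      (Tg I a b u).ncard < (Tg I a b u').ncard := by
  obtain ⟨t, -, hm, i, hi, ni⟩ := h.exit hu h0
  have hs : Tg I a b u ⊆ Tg I a b (u + t • n) := fun j hj =>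
    ⟨hj.1, by rw [p1_line, hn j hj, mul_zero, add_zero, hj.2]⟩
  exact ⟨_, hm, hs, ncard_lt_ncard ⟨hs, fun hc => ni.ne' (hn i (hc hi))⟩ (h.p1_fin _)⟩

theorem SP.orth (h : SP I a b) {u n : E3} (hu : u ∈ Pt I a b) (h3 : (Tg I a b u).ncard = 3)
    (hn : ∀ i ∈ Tg I a b u, ⟪a i, n⟫ = 0) : n = 0 := by
  by_contra h0
  obtain ⟨u', hu', -, hl⟩ := h.p1_grow hu h0 hn
  have := h.gen u' hu'
  omega

/-- the scalar products with the normals in `s` -/
noncomputable def p1_L (a : ι → E3) (s : Set ι) : E3 →ₗ[ℝ] (s → ℝ) :=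
  LinearMap.pi fun i : s => innerₗ E3 (a i)

theorem p1_rank {s : Set ι} (hs : s.Finite) : Module.finrank ℝ (s → ℝ) = s.ncard := by
  have := hs.fintype
  rw [Module.finrank_fintype_fun_eq_card, ← Nat.card_eq_fintype_card, Nat.card_coe_set_eq]

theorem p1_ker (a : ι → E3) {s : Set ι} (hs : s.Finite) (h2 : s.ncard < 3) :
    ∃ n : E3, n ≠ 0 ∧ ∀ i ∈ s, ⟪a i, n⟫ = 0 := by
  have := hs.fintype
  have hk : LinearMap.ker (p1_L a s) ≠ ⊥ := LinearMap.ker_ne_bot_of_finrank_lt (by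
    rw [p1_rank hs, finrank_euclideanSpace_fin]; exact h2)
  obtain ⟨n, hn, h0⟩ := Submodule.exists_mem_ne_zero_of_ne_bot hk
  exact ⟨n, h0, fun i hi => congrFun (LinearMap.mem_ker.1 hn) ⟨i, hi⟩⟩

theorem SP.p1_dual (h : SP I a b) {u : E3} (hu : u ∈ Pt I a b) (h3 : (Tg I a b u).ncard = 3)
    (c : ι → ℝ) : ∃ n : E3, ∀ i ∈ Tg I a b u, ⟪a i, n⟫ = c i := by
  have := (h.p1_fin u).fintype
  have hi : Function.Injective (p1_L a (Tg I a b u)) := by
    rw [injective_iff_map_eq_zero]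
    exact fun n hn => h.orth hu h3 fun i hi => congrFun hn ⟨i, hi⟩
  obtain ⟨n, hn⟩ := (LinearMap.injective_iff_surjective_of_finrank_eq_finrank (by
    rw [p1_rank (h.p1_fin u), finrank_euclideanSpace_fin, h3])).1 hi fun i => c i
  exact ⟨n, fun i hi => congrFun hn ⟨i, hi⟩⟩

theorem SP.ext (h : SP I a b) {u : E3} (hu : u ∈ Pt I a b) :
    ∃ u' ∈ Pt I a b, Tg I a b u ⊆ Tg I a b u' ∧ (Tg I a b u').ncard = 3 := by
  obtain ⟨m, hm⟩ : ∃ m, 3 ≤ (Tg I a b u).ncard + m := ⟨3, by omega⟩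
  induction m generalizing u with
  | zero => exact ⟨u, hu, Subset.rfl, le_antisymm (h.gen u hu) hm⟩
  | succ m ih =>
    by_cases c : (Tg I a b u).ncard < 3
    · obtain ⟨n, n0, hn⟩ := p1_ker a (h.p1_fin u) c
      obtain ⟨v, hv, hs, hl⟩ := h.p1_grow hu n0 hn
      obtain ⟨w, hw, hs', h3⟩ := ih hv (by omega)
      exact ⟨w, hw, hs.trans hs', h3⟩
    · exact ⟨u, hu, Subset.rfl, le_antisymm (h.gen u hu) (not_lt.1 c)⟩

theorem SP.p1_inj (h : SP I a b) {u v : E3} (hu : u ∈ Pt I a b) (h3 : (Tg I a b u).ncard = 3)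
    (hs : Tg I a b u ⊆ Tg I a b v) : v = u :=
  sub_eq_zero.1 (h.orth hu h3 fun i hi => by rw [inner_sub_right, (hs hi).2, hi.2, sub_self])

theorem SP.p1_edge (h : SP I a b) {u n : E3} (hu : u ∈ Pt I a b) (h3 : (Tg I a b u).ncard = 3)
    {m : ι} (hm : m ∈ Tg I a b u) (nm : ⟪a m, n⟫ < 0)
    (hn : ∀ i ∈ Tg I a b u, i ≠ m → ⟪a i, n⟫ = 0) : ∃ t : ℝ, 0 < t ∧ u + t • n ∈ Pt I a b ∧
      ∃ i, i ∉ Tg I a b u ∧ 0 < ⟪a i, n⟫ ∧
        Tg I a b (u + t • n) = insert i (Tg I a b u \ {m}) ∧ (Tg I a b (u + t • n)).ncard = 3 := by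
  have n0 : n ≠ 0 := fun e => by rw [e, inner_zero_right] at nm; exact lt_irrefl _ nm
  obtain ⟨t, t0, ht, i, hi, ni⟩ := h.exit hu n0
  have hi' : i ∉ Tg I a b u := fun hc => by
    by_cases e : i = m
    · rw [e] at ni; linarith
    · exact ni.ne' (hn i hc e)
  have t1 : 0 < t := t0.lt_of_ne fun e => hi' (by rwa [← e, zero_smul, add_zero] at hi)
  have hs : insert i (Tg I a b u \ {m}) ⊆ Tg I a b (u + t • n) := insert_subset hi fun j hj =>
    ⟨hj.1.1, by rw [p1_line, hn j hj.1 hj.2, mul_zero, add_zero, hj.1.2]⟩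
  have hc : (insert i (Tg I a b u \ {m})).ncard = 3 := by
    rw [ncard_insert_of_notMem (fun hc => hi' hc.1) ((h.p1_fin u).subset sdiff_subset),
      ncard_sdiff_singleton_of_mem hm, h3]
  have e := eq_of_subset_of_ncard_le hs (by rw [hc]; exact h.gen _ ht) (h.p1_fin _)
  exact ⟨t, t1, ht, i, hi', ni, e.symm, by rw [← e, hc]⟩

theorem SP.p1_basis (h : SP I a b) {u : E3} (hu : u ∈ Pt I a b) (h3 : (Tg I a b u).ncard = 3) :
    ∃ N : ι → E3, (∀ m ∈ Tg I a b u, ⟪a m, N m⟫ = 1) ∧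
      (∀ m, ∀ i ∈ Tg I a b u, i ≠ m → ⟪a i, N m⟫ = 0) ∧
      ∀ d : E3, d = ∑ m ∈ (h.p1_fin u).toFinset, ⟪a m, d⟫ • N m := by
  classical
  choose N hN using fun m => h.p1_dual hu h3 fun i => if i = m then 1 else 0
  refine ⟨N, fun m hm => by rw [hN m m hm, if_pos rfl], fun m i hi e => by rw [hN m i hi, if_neg e],
    fun d => sub_eq_zero.1 (h.orth hu h3 fun i hi => ?_)⟩
  rw [inner_sub_right, inner_sum]
  simp only [real_inner_smul_right, fun m => hN m i hi, mul_ite, mul_one, mul_zero]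
  rw [Finset.sum_ite_eq, if_pos ((h.p1_fin u).mem_toFinset.2 hi), sub_self]

theorem SP.step (h : SP I a b) {u u2 μ : E3} (hu : u ∈ Pt I a b) (h3 : (Tg I a b u).ncard = 3)
    (hu2 : u2 ∈ Pt I a b) (hμ : ⟪μ, u⟫ < ⟪μ, u2⟫) : ∃ u1 ∈ Pt I a b, (Tg I a b u1).ncard = 3 ∧
      (Tg I a b u ∩ Tg I a b u1).ncard = 2 ∧ Tg I a b u ∩ Tg I a b u2 ⊆ Tg I a b u1 ∧
      ⟪μ, u⟫ < ⟪μ, u1⟫ := by
  obtain ⟨N, N1, N0, hd⟩ := h.p1_basis hu h3
  obtain ⟨m, hm, hp⟩ : ∃ m ∈ Tg I a b u, 0 < ⟪a m, u2 - u⟫ * ⟪μ, N m⟫ := by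
    by_contra hc
    have h1 : ⟪μ, u2 - u⟫ ≤ 0 := by
      rw [hd (u2 - u), inner_sum]
      refine Finset.sum_nonpos fun m hm => ?_
      rw [real_inner_smul_right]
      exact not_lt.1 fun hl => hc ⟨m, (h.p1_fin u).mem_toFinset.1 hm, hl⟩
    rw [inner_sub_right] at h1
    linarith
  have h1 : ⟪a m, u2 - u⟫ < 0 := by
    refine lt_of_le_of_ne ?_ fun e => by rw [e, zero_mul] at hp; exact lt_irrefl _ hp
    rw [inner_sub_right, hm.2]
    exact sub_nonpos.2 (hu2 m hm.1)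
  obtain ⟨t, t0, ht, i, hi, -, e, hc⟩ := h.p1_edge (n := ⟪a m, u2 - u⟫ • N m) hu h3 hm
    (by rwa [real_inner_smul_right, N1 m hm, mul_one])
    (fun i hi e => by rw [real_inner_smul_right, N0 m i hi e, mul_zero])
  refine ⟨_, ht, hc, ?_, fun j hj => ?_, ?_⟩
  · rw [e, inter_insert_of_notMem hi, inter_eq_right.2 sdiff_subset, ncard_sdiff_singleton_of_mem hm,
      h3]
  · rw [e]
    refine Or.inr ⟨hj.1, fun c => ?_⟩
    rw [← mem_singleton_iff.1 c, inner_sub_right, hj.1.2, hj.2.2, sub_self] at h1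
    exact lt_irrefl _ h1
  · rw [p1_line, real_inner_smul_right]
    linarith [mul_pos t0 hp]

theorem SP.comb (h : SP I a b) {u μ : E3} (hu : u ∈ Pt I a b) {i j k : ι} (hij : i ≠ j)
    (hik : i ≠ k) (hjk : j ≠ k) (h3 : Tg I a b u = {i, j, k})
    (hμ : ∀ v ∈ Pt I a b, ⟪μ, v⟫ ≤ ⟪μ, u⟫) :
    ∃ α β γ : ℝ, 0 ≤ α ∧ 0 ≤ β ∧ 0 ≤ γ ∧ μ = α • a i + β • a j + γ • a k := by
  classical
  have hc : (Tg I a b u).ncard = 3 := ncard_eq_three.2 ⟨i, j, k, hij, hik, hjk, h3⟩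
  obtain ⟨N, N1, N0, hd⟩ := h.p1_basis hu hc
  have hp : ∀ m ∈ Tg I a b u, 0 ≤ ⟪μ, N m⟫ := fun m hm => by
    obtain ⟨t, t0, ht, -⟩ := h.p1_edge (n := -N m) hu hc hm
      (by rw [inner_neg_right, N1 m hm]; norm_num)
      (fun i hi e => by rw [inner_neg_right, N0 m i hi e, neg_zero])
    have := hμ _ ht
    rw [p1_line, inner_neg_right] at this
    exact nonneg_of_mul_nonneg_right (by linarith) t0
  have e : (h.p1_fin u).toFinset = {i, j, k} := by
    ext x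
    rw [Finite.mem_toFinset, h3]
    simp
  refine ⟨_, _, _, hp i (by simp [h3]), hp j (by simp [h3]), hp k (by simp [h3]),
    ext_inner_right ℝ fun d => ?_⟩
  conv_lhs => rw [hd d, e, Finset.sum_insert (by simp [hij, hik]), Finset.sum_pair hjk]
  simp only [inner_add_right, inner_add_left, real_inner_smul_right, real_inner_smul_left]
  ring

theorem SP.p1_vfin (h : SP I a b) : {u | u ∈ Pt I a b ∧ (Tg I a b u).ncard = 3}.Finite := by
  refine Finite.of_finite_image (f := Tg I a b) (h.fin.finite_subsets.subset ?_) ?_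
  · rintro _ ⟨u, -, rfl⟩ i hi
    exact hi.1
  · exact fun u hu v _ e => (h.p1_inj hu.1 hu.2 e.subset).symm

theorem SP.vmax (h : SP I a b) (μ : E3) : ∃ u ∈ Pt I a b, (Tg I a b u).ncard = 3 ∧
    ∀ v ∈ Pt I a b, ⟪μ, v⟫ ≤ ⟪μ, u⟫ := by
  obtain ⟨o, ho⟩ := h.int
  obtain ⟨w, hw, -, h3⟩ := h.ext (u := o) fun i hi => (ho i hi).le
  obtain ⟨u, hu, hmax⟩ := Set.exists_max_image _ (fun u => ⟪μ, u⟫) h.p1_vfin ⟨w, hw, h3⟩
  refine ⟨u, hu.1, hu.2, fun v hv => not_lt.1 fun hl => ?_⟩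
  obtain ⟨u1, h1, h2, -, -, h4⟩ := h.step hu.1 hu.2 hv hl
  exact not_lt.2 (hmax u1 ⟨h1, h2⟩) h4

theorem SP.trfin (h : SP I a b) : (Tr I a b).Finite := by
  refine h.fin.finite_subsets.subset ?_
  rintro _ ⟨-, u, -, rfl⟩ i hi
  exact hi.1

theorem SP.two (h : SP I a b) {τ : Set ι} (hτ : τ ∈ Tr I a b) {k : ι} (hk : k ∈ τ) :
    ∃! k', k' ∉ τ ∧ insert k' (τ \ {k}) ∈ Tr I a b := by
  obtain ⟨h3, u, hu, rfl⟩ := hτ
  obtain ⟨N, N1, N0, -⟩ := h.p1_basis hu h3
  have nk : ⟪a k, -N k⟫ = -1 := by rw [inner_neg_right, N1 k hk]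
  have n0 : ∀ i ∈ Tg I a b u, i ≠ k → ⟪a i, -N k⟫ = 0 := fun i hi e => by
    rw [inner_neg_right, N0 k i hi e, neg_zero]
  obtain ⟨t, t0, ht, i, hi, ni, e, hc⟩ := h.p1_edge hu h3 hk (by rw [nk]; norm_num) n0
  refine ⟨i, ⟨hi, by rw [← e]; exact hc, _, ht, e.symm⟩, ?_⟩
  rintro j ⟨hj, -, v, hv, ev⟩
  obtain ⟨s, rfl⟩ : ∃ s : ℝ, v = u + s • -N k := by
    refine ⟨b k - ⟪a k, v⟫, sub_eq_zero.1 (h.orth hu h3 fun m hm => ?_)⟩
    rw [inner_sub_right, p1_line, hm.2]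
    by_cases c : m = k
    · rw [c, nk]; ring
    · have : m ∈ Tg I a b v := ev ▸ Or.inr ⟨hm, c⟩
      rw [n0 m hm c, this.2]; ring
  have hi1 : i ∈ Tg I a b (u + t • -N k) := e ▸ mem_insert _ _
  have hj1 : j ∈ Tg I a b (u + s • -N k) := ev ▸ mem_insert _ _
  have a1 := hv i hi1.1
  have a2 := hi1.2
  have a3 := ht j hj1.1
  have a4 := hj1.2
  have a5 := (hu j hj1.1).lt_of_ne fun c => hj ⟨hj1.1, c⟩
  have a6 := hv k hk.1
  rw [p1_line] at a1 a2 a3 a4 a6
  rw [hk.2, nk] at a6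
  have b1 : s ≤ t := le_of_mul_le_mul_right (by linarith) ni
  have b2 : 0 < ⟪a j, -N k⟫ := by
    by_contra c
    have := mul_nonpos_of_nonneg_of_nonpos (show 0 ≤ s by linarith) (not_lt.1 c)
    linarith
  have b3 : t ≤ s := le_of_mul_le_mul_right (by linarith) b2
  rw [le_antisymm b1 b3, e] at hj1
  exact hj1.resolve_right fun c => hj c.1

theorem SP.conn (h : SP I a b) {σ τ : Set ι} (hσ : σ ∈ Tr I a b) (hτ : τ ∈ Tr I a b) :
    ReflTransGen (Ad (Tr I a b) 2 fun f => σ ∩ τ ⊆ f) σ τ := by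
  obtain ⟨h3, v, hv, rfl⟩ := hτ
  obtain ⟨i, j, k, -, -, -, e⟩ := ncard_eq_three.1 h3
  have hi : i ∈ Tg I a b v := by simp [e]
  have hj : j ∈ Tg I a b v := by simp [e]
  have hk : k ∈ Tg I a b v := by simp [e]
  have hμ : ∀ u ∈ Pt I a b, u ≠ v → ⟪a i + a j + a k, u⟫ < ⟪a i + a j + a k, v⟫ := fun u hu c => by
    by_contra hl
    simp only [inner_add_left, hi.2, hj.2, hk.2] at hl
    have a1 := hu i hi.1
    have a2 := hu j hj.1
    have a3 := hu k hk.1
    refine c (h.p1_inj hv h3 ?_)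
    rw [e]
    rintro _ (rfl | rfl | rfl)
    exacts [⟨hi.1, by linarith⟩, ⟨hj.1, by linarith⟩, ⟨hk.1, by linarith⟩]
  have key : ∀ (n : ℕ) (u : E3), u ∈ Pt I a b → (Tg I a b u).ncard = 3 →
      σ ∩ Tg I a b v ⊆ Tg I a b u → {w | (w ∈ Pt I a b ∧ (Tg I a b w).ncard = 3) ∧
        ⟪a i + a j + a k, u⟫ < ⟪a i + a j + a k, w⟫}.ncard < n →
      ReflTransGen (Ad (Tr I a b) 2 fun f => σ ∩ Tg I a b v ⊆ f) (Tg I a b u) (Tg I a b v) := by
    intro n
    induction n with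
    | zero => exact fun u _ _ _ hn => absurd hn (Nat.not_lt_zero _)
    | succ n ih =>
      intro u hu u3 hs hn
      by_cases c : u = v
      · rw [c]
      · obtain ⟨u1, h1, h2, h4, h5, h6⟩ := h.step hu u3 hv (hμ u hu c)
        have h7 : σ ∩ Tg I a b v ⊆ Tg I a b u1 := fun x hx => h5 ⟨hs hx, hx.2⟩
        refine ReflTransGen.head ⟨⟨h2, u1, h1, rfl⟩, h4, subset_inter hs h7⟩ (ih u1 h1 h2 h7 ?_)
        refine lt_of_lt_of_le (ncard_lt_ncard ?_ (h.p1_vfin.subset fun w hw => hw.1))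
          (Nat.lt_succ_iff.1 hn)
        refine ⟨fun w hw => And.intro hw.1 (h6.trans hw.2), fun hc => ?_⟩
        exact lt_irrefl _ (@hc u1 (And.intro (And.intro h1 h2) h6)).2
  obtain ⟨u3, u, hu, rfl⟩ := hσ
  exact key _ u hu u3 inter_subset_left (Nat.lt_succ_self _)

end Pool.Agent.Work.MP_3d425c_gt.Sm
end

-- merged part: Pool.Agent.Work.MP_3d425c_gt.Sm.P3
section
/-! Block P3: the Cech lemma and the upper link. `cech`: k x ∈ I x; FiberBundleCore X X Γ (Γ discrete)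
with baseSet x = interior {y | I y ⊆ J x}, coordChange x x' y γ = Z (k x') (k y) * Z (k y) (k x) * γ
(constant in y on the overlap); lift the identity (copy Tp/Cech.lean `Un.cob`); for i the function
y ↦ Z i (k y) * (section at y) is locally constant on {y | i ∈ I y}.
`up`: X = π '' Pt, π u = u - ⟪l, u⟫ • l (convex, nonempty), I x = J x = {i ∈ I | 0 < ⟪l, a i⟫ and
x = π u for some u ∈ Pt with i tight}; nonempty by exit along l, upper semicontinuous since the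
finitely many sets π '' (face i) are compact, these sets are convex; the points u over x are all equal
(the top point), so I x lies in a triangle by ext. -/

namespace Pool.Agent.Work.MP_3d425c_gt.Sm
open Set Relation Metric Topology Filter
open scoped RealInnerProductSpace

theorem cech {X ι Γ : Type} [TopologicalSpace X] [SimplyConnectedSpace X]
    [LocallyPathConnectedSpace X] [Group Γ] (I J : X → Set ι) (ne : ∀ x, (I x).Nonempty)
    (loc : ∀ x, ∀ᶠ y in 𝓝 x, I y ⊆ J x) (con : ∀ i, IsPreconnected {x | i ∈ I x}) (Z : ι → ι → Γ)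
    (hZ : ∀ x, Coc Z (J x)) : ∃ s, ∀ x, Cob Z s (I x) := by
  classical
  let _ : TopologicalSpace Γ := ⊥
  have : DiscreteTopology Γ := ⟨rfl⟩
  choose k hk using ne
  have hJ : ∀ x, I x ⊆ J x := fun x => (loc x).self_of_nhds
  have hU : ∀ x y, y ∈ interior {y | I y ⊆ J x} → k y ∈ J x := fun x y hy =>
    interior_subset hy (hk y)
  have hU0 : ∀ x, x ∈ interior {y | I y ⊆ J x} := fun x => mem_interior_iff_mem_nhds.2 (loc x)
  have kJ : ∀ x, k x ∈ J x := fun x => hJ x (hk x)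
  have one : ∀ x, ∀ i ∈ J x, Z i i = 1 := fun x i hi => mul_eq_left.1 (hZ x i hi i hi i hi)
  let B : FiberBundleCore X X Γ :=
    { baseSet := fun x => interior {y | I y ⊆ J x}
      isOpen_baseSet := fun x => isOpen_interior
      indexAt := id
      mem_baseSet_at := hU0
      coordChange := fun x x' y γ => Z (k x') (k y) * Z (k y) (k x) * γ
      coordChange_self := fun x y hy γ => by
        rw [hZ x _ (kJ x) _ (hU x y hy) _ (kJ x), one x _ (kJ x), one_mul]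
      continuousOn_coordChange := fun x x' => by
        by_cases hne : (interior {y | I y ⊆ J x} ∩ interior {y | I y ⊆ J x'}).Nonempty
        · obtain ⟨y0, h1, h2⟩ := hne
          refine (((continuous_of_discreteTopology
            (f := fun γ => Z (k x') (k y0) * Z (k y0) (k x) * γ)).comp
            continuous_snd).continuousOn).congr fun q hq => ?_
          show Z (k x') (k q.1) * Z (k q.1) (k x) * q.2 = Z (k x') (k y0) * Z (k y0) (k x) * q.2
          rw [← hZ x' _ (kJ x') _ (hU x' y0 h2) _ (hU x' q.1 hq.1.2),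
            ← hZ x _ (hU x y0 h1) _ (hU x q.1 hq.1.1) _ (kJ x)]
          simp only [mul_assoc]
        · rw [not_nonempty_iff_eq_empty.1 hne, empty_prod]
          exact continuousOn_empty _
      coordChange_comp := fun x x' x'' y hy γ => by
        have e := hZ x' _ (hU x' y hy.1.2) _ (kJ x') _ (hU x' y hy.1.2)
        rw [one x' _ (hU x' y hy.1.2)] at e
        calc Z (k x'') (k y) * Z (k y) (k x') * (Z (k x') (k y) * Z (k y) (k x) * γ)
            = Z (k x'') (k y) * (Z (k y) (k x') * Z (k x') (k y)) * Z (k y) (k x) * γ := by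
              simp only [mul_assoc]
          _ = _ := by rw [e, mul_one] }
  have hcov : IsCoveringMap B.proj :=
    IsFiberBundle.isCoveringMap fun y => ⟨B.localTriv y, hU0 y⟩
  obtain ⟨y0⟩ : Nonempty X := inferInstance
  obtain ⟨F, ⟨-, hF⟩, -⟩ := hcov.existsUnique_continuousMap_lifts (ContinuousMap.id X) y0
    ⟨y0, (1 : Γ)⟩ rfl
  have hp : ∀ y, (F y).1 = y := fun y => congrFun hF y
  let f : X → X → Γ := fun x y => (B.localTriv x (F y)).2
  let σ : X → Γ := fun y => (F y).2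
  have fc : ∀ x, ContinuousOn (f x) (interior {y | I y ⊆ J x}) := fun x =>
    continuous_snd.comp_continuousOn
      ((B.localTriv x).continuousOn.comp F.continuous.continuousOn fun y hy => by
        show (F y).1 ∈ interior {y | I y ⊆ J x}
        rwa [hp])
  have fe : ∀ x y, f x y = Z (k x) (k y) * σ y := fun x y => by
    show Z (k x) (k (F y).1) * Z (k (F y).1) (k (F y).1) * σ y = _
    rw [hp, one y _ (kJ y), mul_one]
  have gc : ∀ i, ContinuousOn (fun y => Z i (k y) * σ y) {y | i ∈ I y} := fun i x hx => by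
    have hn : interior {y | I y ⊆ J x} ∈ 𝓝 x := isOpen_interior.mem_nhds (hU0 x)
    have c1 : ContinuousAt (fun y => Z i (k x) * f x y) x :=
      (continuous_of_discreteTopology (f := fun γ => Z i (k x) * γ)).continuousAt.comp
        ((fc x).continuousAt hn)
    refine (c1.congr ?_).continuousWithinAt
    filter_upwards [hn] with y hy
    rw [fe, ← mul_assoc, hZ x i (hJ x hx) _ (kJ x) _ (hU x y hy)]
  have key : ∀ x, ∀ i ∈ I x, (if h : ∃ y, i ∈ I y then Z i (k h.choose) * σ h.choose else 1) =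
      Z i (k x) * σ x := fun x i hi => by
    have h : ∃ y, i ∈ I y := ⟨x, hi⟩
    rw [dif_pos h]
    exact (con i).constant (gc i) h.choose_spec hi
  refine ⟨fun i => if h : ∃ y, i ∈ I y then Z i (k h.choose) * σ h.choose else 1,
    fun x i hi j hj => ?_⟩
  simp only
  rw [key x i hi, key x j hj, ← hZ x i (hJ x hi) j (hJ x hj) _ (kJ x)]
  group

/-- the form for finite closed convex covers of a convex set -/
theorem cech_convex {ι Γ : Type} [Group Γ] {X : Set E3} (hX : Convex ℝ X) {K : Set ι}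
    (hK : K.Finite) (A : ι → Set E3) (hA : ∀ i ∈ K, IsClosed (A i)) (hc : ∀ i ∈ K, Convex ℝ (A i))
    (cov : ∀ x ∈ X, ∃ i ∈ K, x ∈ A i) (Z : ι → ι → Γ)
    (hZ : ∀ x ∈ X, Coc Z {i | i ∈ K ∧ x ∈ A i}) :
    ∃ s, ∀ x ∈ X, Cob Z s {i | i ∈ K ∧ x ∈ A i} := by
  rcases X.eq_empty_or_nonempty with rfl | hne
  · exact ⟨fun _ => 1, fun x hx => hx.elim⟩
  have := hX.contractibleSpace hne
  have := hX.locallyPathConnectedSpace
  refine (cech (X := X) (fun x => {i | i ∈ K ∧ x.1 ∈ A i})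
    (fun x => {i | i ∈ K ∧ x.1 ∈ A i}) (fun x => cov x.1 x.2) (fun x => ?_) (fun i => ?_) Z
    fun x => hZ x.1 x.2).imp fun s hs x hx => hs ⟨x, hx⟩
  · have e : ∀ᶠ y : X in 𝓝 x, ∀ i ∈ K, x.1 ∉ A i → y.1 ∉ A i := by
      refine (eventually_all_finite hK).2 fun i hi => ?_
      by_cases hx : x.1 ∈ A i
      · exact Eventually.of_forall fun y h => (h hx).elim
      · filter_upwards [continuous_subtype_val.continuousAt.preimage_mem_nhds
          ((hA i hi).isOpen_compl.mem_nhds hx)] with y hy _ using hy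
    filter_upwards [e] with y hy i hi
    exact ⟨hi.1, by_contra fun h => hy i hi.1 h hi.2⟩
  · by_cases hi : i ∈ K
    · have e : {x : X | i ∈ {i | i ∈ K ∧ x.1 ∈ A i}} = Subtype.val ⁻¹' A i :=
        Set.ext fun x => ⟨fun h => h.2, fun h => ⟨hi, h⟩⟩
      rw [e, ← IsInducing.subtypeVal.isPreconnected_image, Subtype.image_preimage_coe]
      exact (hX.inter (hc i hi)).isPreconnected
    · have e : {x : X | i ∈ {i | i ∈ K ∧ x.1 ∈ A i}} = ∅ :=
        Set.eq_empty_of_forall_notMem fun x h => hi h.1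
      rw [e]
      exact isPreconnected_empty

variable {ι : Type} {I : Set ι} {a : ι → E3} {b : ι → ℝ}

theorem SP.up (h : SP I a b) {l : E3} (hl : ‖l‖ = 1) {Γ : Type} [Group Γ] (Z : ι → ι → Γ)
    (hZ : ∀ τ ∈ Tr I a b, Coc Z (τ ∩ {i | 0 < ⟪l, a i⟫})) :
    ∃ s, ∀ τ ∈ Tr I a b, Cob Z s (τ ∩ {i | 0 < ⟪l, a i⟫}) := by
  let π : E3 →L[ℝ] E3 := ContinuousLinearMap.id ℝ E3 - (innerSL ℝ l).smulRight l
  have hπ : ∀ u, π u = u - ⟪l, u⟫ • l := fun u => rfl
  have ll : ⟪l, l⟫ = (1 : ℝ) := by rw [real_inner_self_eq_norm_sq, hl]; norm_num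
  have l0 : l ≠ 0 := fun e => by rw [e, norm_zero] at hl; exact zero_ne_one hl
  have top : ∀ u v, u ∈ Pt I a b → v ∈ Pt I a b → π u = π v → ∀ i ∈ I, 0 < ⟪l, a i⟫ →
      ⟪a i, u⟫ = b i → ⟪l, v⟫ ≤ ⟪l, u⟫ := by
    intro u v _ hv e i hi hp ht
    have e1 : v = u + (⟪l, v⟫ - ⟪l, u⟫) • l := by
      rw [hπ, hπ] at e
      rw [sub_smul, ← add_sub_assoc, add_sub_right_comm, e, sub_add_cancel]
    have e2 := hv i hi
    rw [e1, inner_add_right, inner_smul_right, ht, real_inner_comm l (a i)] at e2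
    by_contra hc
    have := mul_pos (sub_pos.2 (not_le.1 hc)) hp
    linarith
  have cov : ∀ x ∈ π '' Pt I a b, ∃ i ∈ {i | i ∈ I ∧ 0 < ⟪l, a i⟫},
      x ∈ π '' (Pt I a b ∩ {u | ⟪a i, u⟫ = b i}) := by
    rintro _ ⟨u, hu, rfl⟩
    obtain ⟨t, -, h1, i, h2, h3⟩ := h.exit hu l0
    refine ⟨i, ⟨h2.1, by rwa [real_inner_comm]⟩, u + t • l, ⟨h1, h2.2⟩, ?_⟩
    have e : π l = 0 := by rw [hπ, ll, one_smul, sub_self]
    simp [e]
  obtain ⟨s, hs⟩ := cech_convex (X := π '' Pt I a b) (K := {i | i ∈ I ∧ 0 < ⟪l, a i⟫})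
    ((SP.convex I a b).linear_image π.toLinearMap) (h.fin.subset fun i hi => hi.1)
    (fun i => π '' (Pt I a b ∩ {u | ⟪a i, u⟫ = b i}))
    (fun i _ => ((h.compact.inter_right (isClosed_eq (by fun_prop) continuous_const)).image
      π.continuous).isClosed)
    (fun i _ => ((SP.convex I a b).inter
      (convex_hyperplane (f := fun u : E3 => ⟪a i, u⟫)
        ⟨fun x y => inner_add_right _ _ _, fun c x => inner_smul_right _ _ _⟩ (b i))).linear_image
      π.toLinearMap) cov Z (by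
      intro x hx
      obtain ⟨i0, hi0, u, hu, rfl⟩ := cov x hx
      obtain ⟨u', hu', hsub, h3⟩ := h.ext hu.1
      have sub : {i | i ∈ {i | i ∈ I ∧ 0 < ⟪l, a i⟫} ∧
          π u ∈ π '' (Pt I a b ∩ {u | ⟪a i, u⟫ = b i})} ⊆ Tg I a b u' ∩ {i | 0 < ⟪l, a i⟫} := by
        rintro i ⟨hi, v, hv, e⟩
        have e1 := le_antisymm (top u v hu.1 hv.1 e.symm i0 hi0.1 hi0.2 hu.2)
          (top v u hv.1 hu.1 e i hi.1 hi.2 hv.2)
        have e2 : v = u := by
          rw [hπ, hπ, e1] at e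
          exact sub_left_injective e
        exact ⟨hsub ⟨hi.1, e2 ▸ hv.2⟩, hi.2⟩
      exact fun i hi j hj k hk => hZ _ ⟨h3, u', hu', rfl⟩ i (sub hi) j (sub hj) k (sub hk))
  refine ⟨s, ?_⟩
  rintro τ ⟨-, u, hu, rfl⟩ i hi j hj
  exact hs (π u) ⟨u, hu, rfl⟩ i ⟨⟨hi.1.1, hi.2⟩, u, ⟨hu, hi.1.2⟩, rfl⟩ j
    ⟨⟨hj.1.1, hj.2⟩, u, ⟨hu, hj.1.2⟩, rfl⟩

end Pool.Agent.Work.MP_3d425c_gt.Sm
end

-- merged part: Pool.Agent.Work.MP_3d425c_gt.Sm.Chain
section
/-! Chains in closed covers. -/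

namespace Pool.Agent.Work.MP_3d425c_gt.Sm
open Set Relation Metric Topology Filter
open scoped RealInnerProductSpace

/-- chains in a finite closed cover of a preconnected set -/
theorem chain {X κ : Type} [TopologicalSpace X] {s : Set X} (hs : IsPreconnected s) {K : Set κ}
    (hK : K.Finite) (A : κ → Set X) (hA : ∀ k ∈ K, IsClosed (A k)) (cov : ∀ x ∈ s, ∃ k ∈ K, x ∈ A k)
    (Q : κ → Prop) (hQ : ∀ k ∈ K, ∀ k' ∈ K, ∀ x ∈ s, x ∈ A k → x ∈ A k' → Q k → Q k') {k k' : κ}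
    (hk : k ∈ K) (hk' : k' ∈ K) {x x' : X} (hx : x ∈ s) (hx' : x' ∈ s) (h1 : x ∈ A k)
    (h2 : x' ∈ A k') (h : Q k) : Q k' := by
  by_contra hn
  have c1 : IsClosed (⋃ k ∈ K ∩ {k | Q k}, A k) :=
    (hK.inter_of_left _).isClosed_biUnion fun k hk => hA k hk.1
  have c2 : IsClosed (⋃ k ∈ K ∩ {k | ¬ Q k}, A k) :=
    (hK.inter_of_left _).isClosed_biUnion fun k hk => hA k hk.1
  obtain ⟨z, hz, z1, z2⟩ := isPreconnected_closed_iff.1 hs _ _ c1 c2 (fun y hy => by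
    obtain ⟨j, hj, e⟩ := cov y hy
    by_cases q : Q j
    · exact Or.inl (mem_biUnion ⟨hj, q⟩ e)
    · exact Or.inr (mem_biUnion ⟨hj, q⟩ e)) ⟨x, hx, mem_biUnion ⟨hk, h⟩ h1⟩
    ⟨x', hx', mem_biUnion ⟨hk', hn⟩ h2⟩
  obtain ⟨i, hi, e1⟩ := mem_iUnion₂.1 z1
  obtain ⟨j, hj, e2⟩ := mem_iUnion₂.1 z2
  exact hj.2 (hQ i hi.1 j hj.1 z hz e1 e2 hi.2)

end Pool.Agent.Work.MP_3d425c_gt.Sm
end

-- merged part: Pool.Agent.Work.MP_3d425c_gt.Sm.P4
section
/-! Block P4: power diagrams. pw u v - pw u q = ⟪ea P v q, u⟫ - eb P w v q is affine in u, so cells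
are closed and convex. `cell`: the cell is convex, contains P v and misses the sphere of radius 2
about P v (near). `ext`: SP.ext at a vertex v ∈ Nr u. `lc`: chain. `sc`: cech_convex. -/

namespace Pool.Agent.Work.MP_3d425c_gt.Sm
open Set Relation Metric Topology Filter
open scoped RealInnerProductSpace

variable {ι : Type} {S : Set ι} {P : ι → E3} {w : ι → ℝ}

/-- normals of the cell of `v` -/
noncomputable def ea (P : ι → E3) (v q : ι) : E3 := (2 : ℝ) • (P q - P v)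

/-- constants of the cell of `v` -/
noncomputable def eb (P : ι → E3) (w : ι → ℝ) (v q : ι) : ℝ := ‖P q‖ ^ 2 - ‖P v‖ ^ 2 - w q + w v

theorem pw_sub (P : ι → E3) (w : ι → ℝ) (u : E3) (v q : ι) :
    pw P w u v - pw P w u q = ⟪ea P v q, u⟫ - eb P w v q := by
  simp only [pw, ea, eb, norm_sub_sq_real, real_inner_smul_left, inner_sub_left]
  rw [real_inner_comm u (P q), real_inner_comm u (P v)]
  ring

theorem p4_le (P : ι → E3) (w : ι → ℝ) (u : E3) (v q : ι) :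
    pw P w u v ≤ pw P w u q ↔ ⟪ea P v q, u⟫ ≤ eb P w v q := by
  rw [← sub_nonpos, pw_sub, sub_nonpos]

theorem p4_lt (h : Eu S P w) {v q : ι} (hv : v ∈ S) (hq : q ∈ S) (e : q ≠ v) :
    pw P w (P v) v < pw P w (P v) q := by
  have h1 := h.sep v hv q hq (Ne.symm e)
  have h3 := abs_le.1 (h.wt v)
  have h4 := abs_le.1 (h.wt q)
  unfold pw
  rw [sub_self, norm_zero]
  nlinarith

theorem cell_closed (S : Set ι) (P : ι → E3) (w : ι → ℝ) (p : ι) :
    IsClosed {u | p ∈ Nr S P w u} := by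
  have e : {u | p ∈ Nr S P w u} =
      {_u | p ∈ S} ∩ ⋂ q ∈ S, {u | ⟪ea P p q, u⟫ ≤ eb P w p q} := by
    ext u
    simp only [Nr, mem_ofPred_eq, mem_inter_iff, mem_iInter, p4_le]
  rw [e]
  refine isClosed_const.inter (isClosed_biInter fun q _ => ?_)
  exact isClosed_le (by fun_prop) continuous_const

theorem cell_convex (S : Set ι) (P : ι → E3) (w : ι → ℝ) (p : ι) :
    Convex ℝ {u | p ∈ Nr S P w u} := by
  intro x hx y hy s t hs ht hst
  refine ⟨hx.1, fun q hq => ?_⟩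
  have h1 := (p4_le P w x p q).1 (hx.2 q hq)
  have h2 := (p4_le P w y p q).1 (hy.2 q hq)
  rw [p4_le, inner_add_right, real_inner_smul_right, real_inner_smul_right]
  have e : eb P w p q = s * eb P w p q + t * eb P w p q := by rw [← add_mul, hst, one_mul]
  rw [e]
  exact add_le_add (mul_le_mul_of_nonneg_left h1 hs) (mul_le_mul_of_nonneg_left h2 ht)

theorem Eu.ne (h : Eu S P w) (u : E3) : (Nr S P w u).Nonempty := by
  obtain ⟨q, hq, -⟩ := h.den 0 (mem_ball_self (by norm_num))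
  obtain ⟨p, hp, hm⟩ := S.exists_min_image (pw P w u) h.fin ⟨q, hq⟩
  exact ⟨p, hp, hm⟩

theorem Eu.near (h : Eu S P w) {u : E3} (hu : ‖u‖ < 50) {p : ι} (hp : p ∈ Nr S P w u) :
    ‖u - P p‖ < 2 := by
  obtain ⟨q, hq, h1⟩ := h.den u (mem_ball_zero_iff.2 hu)
  have h2 := hp.2 q hq
  have h3 := abs_le.1 (h.wt p)
  have h4 := abs_le.1 (h.wt q)
  unfold pw at h2
  have h5 := norm_nonneg (u - P q)
  have h6 := norm_nonneg (u - P p)
  nlinarith

theorem Eu.self (h : Eu S P w) {v : ι} (hv : v ∈ S) : Nr S P w (P v) = {v} := by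
  ext q
  refine ⟨fun hq => ?_, fun hq => ?_⟩
  · by_contra hn
    exact absurd (hq.2 v hv) (not_le.2 (p4_lt h hv hq.1 hn))
  · rw [mem_singleton_iff.1 hq]
    refine ⟨hv, fun r hr => ?_⟩
    by_cases e : r = v
    · rw [e]
    · exact (p4_lt h hv hr e).le

theorem Eu.cell (h : Eu S P w) {v : ι} (hv : ‖P v‖ < 48) {u : E3} (hu : v ∈ Nr S P w u) :
    ‖u - P v‖ < 2 := by
  by_contra hn
  have h2 : 2 ≤ ‖u - P v‖ := not_lt.1 hn
  have h0 : 0 < ‖u - P v‖ := by linarith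
  have h1 : v ∈ Nr S P w (P v) := by rw [h.self hu.1]; exact mem_singleton v
  have ht : 2 / ‖u - P v‖ ∈ Icc (0 : ℝ) 1 := ⟨by positivity, (div_le_one h0).2 h2⟩
  have h3 : v ∈ Nr S P w (P v + (2 / ‖u - P v‖) • (u - P v)) :=
    (cell_convex S P w v).add_smul_sub_mem h1 hu ht
  have h4 : ‖(2 / ‖u - P v‖) • (u - P v)‖ = 2 := by
    rw [norm_smul, Real.norm_of_nonneg ht.1, div_mul_cancel₀ _ h0.ne']
  have h5 := h.near (lt_of_le_of_lt (norm_add_le _ _) (by rw [h4]; linarith)) h3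
  rw [add_sub_cancel_left, h4] at h5
  exact lt_irrefl _ h5

theorem pt_iff {v : ι} (hv : v ∈ S) (u : E3) :
    u ∈ Pt (S \ {v}) (ea P v) (eb P w v) ↔ v ∈ Nr S P w u := by
  refine ⟨fun hu => ⟨hv, fun q hq => ?_⟩, fun hu q hq => (p4_le P w u v q).1 (hu.2 q hq.1)⟩
  by_cases e : q = v
  · rw [e]
  · exact (p4_le P w u v q).2 (hu q ⟨hq, e⟩)

theorem tg_eq {v : ι} {u : E3} (hu : v ∈ Nr S P w u) :
    Tg (S \ {v}) (ea P v) (eb P w v) u = Nr S P w u \ {v} := by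
  ext q
  have e := pw_sub P w u v q
  refine ⟨fun hq => ⟨⟨hq.1.1, fun r hr => ?_⟩, hq.1.2⟩, fun hq => ⟨⟨hq.1.1, hq.2⟩, ?_⟩⟩
  · have h1 := hq.2
    have h2 := hu.2 r hr
    linarith
  · have h1 := hq.1.2 v hu.1
    have h2 := hu.2 q hq.1.1
    linarith

theorem Eu.sp (h : Eu S P w) {v : ι} (hv : v ∈ S) (h48 : ‖P v‖ < 48) :
    SP (S \ {v}) (ea P v) (eb P w v) := by
  refine ⟨h.fin.subset sdiff_subset, ⟨P v, fun q hq => ?_⟩, ?_, fun u hu => ?_⟩
  · have h1 := p4_lt h hv hq.1 hq.2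
    have e := pw_sub P w (P v) v q
    linarith
  · refine (isBounded_ball (x := P v) (r := 2)).subset fun u hu => ?_
    rw [mem_ball, dist_eq_norm]
    exact h.cell h48 ((pt_iff hv u).1 hu)
  · have h1 := (pt_iff hv u).1 hu
    have h2 := h.cell h48 h1
    have h3 : ‖u‖ < 50 := by
      have := norm_add_le (u - P v) (P v)
      rw [sub_add_cancel] at this
      linarith
    have h4 := h.gen u (mem_ball_zero_iff.2 h3)
    rw [tg_eq h1, ncard_sdiff_singleton_of_mem h1]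
    omega

theorem Eu.ext (h : Eu S P w) {u : E3} (hu : ‖u‖ < 46) :
    ∃ u', ‖u' - u‖ < 4 ∧ Nr S P w u ⊆ Nr S P w u' ∧ (Nr S P w u').ncard = 4 := by
  obtain ⟨v, hv⟩ := h.ne u
  have h1 := h.near (by linarith) hv
  have h48 : ‖P v‖ < 48 := by
    have := norm_sub_le u (u - P v)
    rw [sub_sub_cancel] at this
    linarith
  obtain ⟨u', k1, k2, k3⟩ := (h.sp hv.1 h48).ext ((pt_iff hv.1 u).2 hv)
  have k4 := (pt_iff hv.1 u').1 k1
  have k5 := h.cell h48 k4
  rw [tg_eq hv, tg_eq k4] at k2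
  rw [tg_eq k4] at k3
  refine ⟨u', ?_, fun q hq => ?_, ?_⟩
  · have := norm_sub_le (u' - P v) (u - P v)
    rw [sub_sub_sub_cancel_right] at this
    linarith
  · by_cases e : q = v
    · rw [e]; exact k4
    · exact (k2 ⟨hq, e⟩).1
  · have := ncard_sdiff_singleton_add_one k4 (h.fin.subset fun q hq => hq.1)
    omega

theorem Eu.lc (h : Eu S P w) (Q : ι → Prop) {x y : E3}
    (hQ : ∀ u ∈ segment ℝ x y, ∀ p ∈ Nr S P w u, ∀ q ∈ Nr S P w u, Q p → Q q) {p q : ι}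
    (hp : p ∈ Nr S P w x) (hq : q ∈ Nr S P w y) (h1 : Q p) : Q q := by
  exact chain (convex_segment x y).isPreconnected h.fin (fun p => {u | p ∈ Nr S P w u})
    (fun p _ => cell_closed S P w p)
    (fun u _ => (h.ne u).imp fun p hp => ⟨hp.1, hp⟩) Q
    (fun p _ q _ u hu k1 k2 => hQ u hu p k1 q k2) hp.1 hq.1 (left_mem_segment ℝ x y)
    (right_mem_segment ℝ x y) hp hq h1

theorem Eu.sc (h : Eu S P w) (r : ℝ) {Γ : Type} [Group Γ] (Z : ι → ι → Γ)
    (hZ : ∀ u ∈ ball (0 : E3) r, Coc Z (Nr S P w u)) :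
    ∃ s, ∀ u ∈ ball (0 : E3) r, Cob Z s (Nr S P w u) := by
  have e : ∀ u, {i | i ∈ S ∧ u ∈ {u | i ∈ Nr S P w u}} = Nr S P w u := fun u =>
    Set.ext fun i => ⟨fun hi => hi.2, fun hi => ⟨hi.1, hi⟩⟩
  obtain ⟨s, hs⟩ := cech_convex (convex_ball (0 : E3) r) h.fin (fun p => {u | p ∈ Nr S P w u})
    (fun p _ => cell_closed S P w p) (fun p _ => cell_convex S P w p)
    (fun u _ => (h.ne u).imp fun p hp => ⟨hp.1, hp⟩) Z (fun u hu => (e u).symm ▸ hZ u hu)
  exact ⟨s, fun u hu => e u ▸ hs u hu⟩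

end Pool.Agent.Work.MP_3d425c_gt.Sm
end

-- merged part: Pool.Agent.Work.MP_3d425c_gt.Sm.K0
section
/-! Block K0: the complex in a chart. `T_of`: Good.trans to the chart at χ b u. `of_T`: Good.trans
from the chart in the definition of T (Eu.near, LM.d_χψ). `ord`: Good.ht and cone_ψ in both
directions. `N_smul`: Inv.d, Inv.ψ, winv. `tri_iff`: in the chart at v, P v = 0; pt_iff, tg_eq,
Eu.cell. -/

namespace Pool.Agent.Work.MP_3d425c_gt.Sm
open Set Relation Metric Topology Filter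
open scoped RealInnerProductSpace

variable {Y : Type} [TopologicalSpace Y] {η : ℝ} {L : LM Y 300 η} {G : Type} [Group G]
  [MulAction G Y] {V : SubMulAction G Y} {w : Y → ℝ}

theorem k0_mem (v : V) : v ∈ L.S V v.1 := by
  show L.d v.1 v.1 < 60
  rw [L.d_self]
  norm_num

theorem k0_P (v : V) : L.P V v.1 v = 0 := L.ψ_self (by norm_num) v.1

theorem LM.Good.k0_ne (h : L.Good V w) (a : Y) {p q : V} (hp : p ∈ L.S V a) (hq : q ∈ L.S V a)
    (ne : p ≠ q) : ⟪L.l a, L.P V a p⟫ ≠ ⟪L.l a, L.P V a q⟫ := fun e => by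
  have h1 := h.ht a p hp q hq ne
  rw [inner_sub_right, e, sub_self, abs_zero] at h1
  exact absurd h1 (not_lt.2 (mul_nonneg h.pos.le (norm_nonneg _)))

theorem LM.Good.k0_lt (h : L.Good V w) (a : Y) {p q : V} (hp : p ∈ L.S V a) (hq : q ∈ L.S V a)
    (k : ⟪L.l a, L.P V a p⟫ < ⟪L.l a, L.P V a q⟫) : L.H a p.1 < L.H a q.1 := by
  have h3 : L.d a p.1 < 60 := hp
  have h4 : L.d a q.1 < 60 := hq
  have h1 := h.ht a q hq p hp fun e => by rw [e] at k; exact lt_irrefl _ k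
  rw [abs_of_pos (by rw [inner_sub_right]; linarith)] at h1
  exact L.cone_ψ a (by linarith) (by linarith) h1

theorem LM.Good.T_of (h : L.Good V w) (b : Y) {u : E3} (hu : ‖u‖ < 45)
    (h4 : (L.N V w b u).ncard = 4) : L.N V w b u ∈ L.T V w := by
  obtain ⟨u', h1, h2⟩ := h.trans b (L.χ b u) u (mem_ball_zero_iff.2 hu)
    (by rw [L.d_self]; norm_num) h4
  rw [L.ψ_self (by norm_num), sub_zero] at h1
  exact ⟨h4, _, u', mem_ball_zero_iff.2 h1, h2.symm⟩

theorem LM.Good.of_T (h : L.Good V w) (b : Y) {σ : Set V} (hσ : σ ∈ L.T V w) {p : V} (hp : p ∈ σ)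
    (hd : L.d b p.1 < 40) : ∃ u, ‖u‖ < 45 ∧ σ = L.N V w b u := by
  obtain ⟨h4, a, u, hu, rfl⟩ := hσ
  have hu1 := mem_ball_zero_iff.1 hu
  have h1 : ‖u - L.ψ a p.1‖ < 2 := (h.eu a).near (by linarith) hp
  have h2 : L.d a p.1 < 60 := hp.1
  have h3 := (abs_le.1 (L.d_χψ a (u := u) (by linarith) (y := p.1) (by linarith))).2
  have h5 := L.tri b p.1 (L.χ a u)
  rw [L.symm p.1] at h5
  have hs := h.small
  obtain ⟨u', h6, h7⟩ := h.trans a b u (mem_ball_zero_iff.2 (by linarith)) (by linarith) h4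
  have h8 := (abs_le.1 (L.norm_ψ b (y := L.χ a u) (by linarith))).1
  have h9 := norm_add_le (u' - L.ψ b (L.χ a u)) (L.ψ b (L.χ a u))
  rw [sub_add_cancel] at h9
  exact ⟨u', by linarith, h7.symm⟩

theorem LM.Good.diam (h : L.Good V w) {σ : Set V} (hσ : σ ∈ L.T V w) {p q : V} (hp : p ∈ σ)
    (hq : q ∈ σ) : L.d p.1 q.1 < 4.01 := by
  obtain ⟨-, a, u, hu, rfl⟩ := hσ
  have hu1 := mem_ball_zero_iff.1 hu
  have h1 : ‖u - L.ψ a p.1‖ < 2 := (h.eu a).near (by linarith) hp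
  have h2 : ‖u - L.ψ a q.1‖ < 2 := (h.eu a).near (by linarith) hq
  have h3 : L.d a p.1 < 60 := hp.1
  have h4 : L.d a q.1 < 60 := hq.1
  have h5 := (abs_le.1 (L.d_ψ a (x := p.1) (y := q.1) (by linarith) (by linarith))).2
  have h6 := norm_sub_le (u - L.ψ a q.1) (u - L.ψ a p.1)
  rw [sub_sub_sub_cancel_left] at h6
  have hs := h.small
  norm_num at h5 h6 ⊢
  linarith

theorem LM.Good.ord (h : L.Good V w) (a : Y) {p q : V} (hp : p ∈ L.S V a) (hq : q ∈ L.S V a) :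
    L.H a p.1 < L.H a q.1 ↔ ⟪L.l a, L.P V a p⟫ < ⟪L.l a, L.P V a q⟫ := by
  refine ⟨fun k => ?_, h.k0_lt a hp hq⟩
  by_contra hn
  have ne : p ≠ q := fun e => by rw [e] at k; exact lt_irrefl _ k
  exact lt_asymm k (h.k0_lt a hq hp (lt_of_le_of_ne (not_lt.1 hn) (h.k0_ne a hp hq ne).symm))

theorem LM.Good.hne (h : L.Good V w) (a : Y) {p q : V} (hp : p ∈ L.S V a) (hq : q ∈ L.S V a)
    (e : L.H a p.1 = L.H a q.1) : p = q := by
  by_contra ne
  rcases lt_or_gt_of_ne (h.k0_ne a hp hq ne) with k | k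
  · exact (h.k0_lt a hp hq k).ne e
  · exact (h.k0_lt a hq hp k).ne e.symm

theorem LM.Good.lt_iff (h : L.Good V w) (a : Y) {p q : V} (hp : p ∈ L.S V a) (hq : q ∈ L.S V a)
    (hd : L.d p.1 q.1 < 10) : L.lt V p q ↔ L.H a p.1 < L.H a q.1 := by
  have h3 : L.d a p.1 < 60 := hp
  have h4 : L.d a q.1 < 60 := hq
  have h5 := L.d_self p.1
  exact ⟨fun k => L.compat p.1 a _ _ (by linarith) (by linarith) (by linarith) (by linarith) k.2,
    fun k => ⟨hd, L.compat a p.1 _ _ (by linarith) (by linarith) (by linarith) (by linarith) k⟩⟩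

theorem LM.Good.N_smul (h : L.Good V w) (g : G) (a : Y) (u : E3) :
    L.N V w (g • a) u = (fun v => g • v) '' L.N V w a u := by
  have s1 : ∀ p : V, g • p ∈ L.S V (g • a) ↔ p ∈ L.S V a := fun p => by
    show L.d (g • a) (g • p.1) < 60 ↔ L.d a p.1 < 60
    rw [h.inv.d]
  have s2 : ∀ p ∈ L.S V a, pw (L.P V (g • a)) (fun p => w p.1) u (g • p) =
      pw (L.P V a) (fun p => w p.1) u p := fun p hp => by
    have h3 : L.d a p.1 < 60 := hp
    show ‖u - L.ψ (g • a) (g • p.1)‖ ^ 2 - w (g • p.1) = ‖u - L.ψ a p.1‖ ^ 2 - w p.1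
    rw [h.winv, LM.Inv.ψ L h.inv g (by linarith)]
  ext v
  obtain ⟨p, rfl⟩ : ∃ p, g • p = v := ⟨g⁻¹ • v, smul_inv_smul g v⟩
  rw [(MulAction.injective g).mem_set_image]
  constructor
  · rintro ⟨h1, h2⟩
    have h3 := (s1 p).1 h1
    refine ⟨h3, fun q hq => ?_⟩
    rw [← s2 p h3, ← s2 q hq]
    exact h2 _ ((s1 q).2 hq)
  · rintro ⟨h1, h2⟩
    refine ⟨(s1 p).2 h1, fun q hq => ?_⟩
    obtain ⟨r, rfl⟩ : ∃ r, g • r = q := ⟨g⁻¹ • q, smul_inv_smul g q⟩
    have h3 := (s1 r).1 hq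
    rw [s2 p h1, s2 r h3]
    exact h2 r h3

theorem LM.Good.sp (h : L.Good V w) (v : V) :
    SP (L.S V v.1 \ {v}) (ea (L.P V v.1) v) (eb (L.P V v.1) (fun p => w p.1) v) := by
  exact (h.eu v.1).sp (k0_mem v) (by rw [k0_P]; norm_num)

/-- the star of `v` is the cone on the dual sphere of its cell -/
theorem LM.Good.tri_iff (h : L.Good V w) (v : V) (τ : Set V) :
    τ ∈ Tr (L.S V v.1 \ {v}) (ea (L.P V v.1) v) (eb (L.P V v.1) (fun p => w p.1) v) ↔
      v ∉ τ ∧ insert v τ ∈ L.T V w := by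
  constructor
  · rintro ⟨h3, u, hu, rfl⟩
    have hv := (pt_iff (k0_mem v) u).1 hu
    have h2 := (h.eu v.1).cell (by rw [k0_P]; norm_num) hv
    rw [k0_P, sub_zero] at h2
    rw [tg_eq hv] at h3 ⊢
    refine ⟨fun k => k.2 rfl, ?_⟩
    rw [insert_sdiff_singleton, insert_eq_of_mem hv]
    refine h.T_of v.1 (by linarith) ?_
    have h5 := ncard_sdiff_singleton_add_one hv ((h.eu v.1).fin.subset fun _ k => k.1)
    rw [h3] at h5
    exact h5.symm
  · rintro ⟨h1, h2⟩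
    obtain ⟨u, -, e⟩ := h.of_T v.1 h2 (mem_insert v τ) (by rw [L.d_self]; norm_num)
    have hv : v ∈ Nr (L.S V v.1) (L.P V v.1) (fun p => w p.1) u := by
      have := mem_insert v τ
      rwa [e] at this
    have hf : τ.Finite := ((h.eu v.1).fin.subset fun _ k => k.1 :
      (L.N V w v.1 u).Finite).subset (e ▸ subset_insert v τ)
    have h4 := h2.1
    rw [ncard_insert_of_notMem h1 hf] at h4
    refine ⟨by omega, u, (pt_iff (k0_mem v) u).2 hv, ?_⟩
    rw [tg_eq hv]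
    show τ = L.N V w v.1 u \ {v}
    rw [← e, insert_sdiff_self_of_notMem h1]

theorem LM.Good.up_iff (h : L.Good V w) {v p : V} (hd : L.d v.1 p.1 < 10) :
    (L.lt V v p ↔ 0 < ⟪L.l v.1, ea (L.P V v.1) v p⟫) ∧
      (L.lt V p v ↔ ⟪L.l v.1, ea (L.P V v.1) v p⟫ < 0) := by
  have hp : p ∈ L.S V v.1 := show L.d v.1 p.1 < 60 by linarith
  have e : ⟪L.l v.1, ea (L.P V v.1) v p⟫ = 2 * ⟪L.l v.1, L.P V v.1 p⟫ := by
    rw [ea, k0_P, sub_zero, real_inner_smul_right]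
  rw [h.lt_iff v.1 (k0_mem v) hp hd, h.lt_iff v.1 hp (k0_mem v) (by rwa [L.symm]),
    h.ord v.1 (k0_mem v) hp, h.ord v.1 hp (k0_mem v), e, k0_P, inner_zero_right]
  exact ⟨⟨fun k => by linarith, fun k => by linarith⟩, fun k => by linarith, fun k => by linarith⟩

theorem LM.Good.ea_ne (h : L.Good V w) (v : V) :
    ∀ p ∈ L.S V v.1 \ {v}, ⟪L.l v.1, ea (L.P V v.1) v p⟫ ≠ 0 := by
  intro p hp k
  rw [ea, real_inner_smul_right, inner_sub_right] at k
  exact h.k0_ne v.1 hp.1 (k0_mem v) hp.2 (by linarith)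

/-- nearest points lie in a tetrahedron -/
theorem LM.Good.ext (h : L.Good V w) (b : Y) {u : E3} (hu : ‖u‖ < 41) :
    ∃ u', ‖u' - u‖ < 4 ∧ L.N V w b u ⊆ L.N V w b u' ∧ L.N V w b u' ∈ L.T V w := by
  obtain ⟨u', h1, h2, h3⟩ := (h.eu b).ext (u := u) (by linarith)
  have h9 := norm_add_le (u' - u) u
  rw [sub_add_cancel] at h9
  exact ⟨u', h1, h2, h.T_of b (by linarith) h3⟩

end Pool.Agent.Work.MP_3d425c_gt.Sm
end
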