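import Pool.Agent.Work.MP_3d425c_gt.Sm.K0
import Pool.Agent.Work.MP_3d425c_gt.Bg.End1
import Mathlib
import Pool.Agent.Work.MP_3d425c_gt.Ta.Defs

-- merged part: Pool.Agent.Work.MP_3d425c_gt.Sm.K3
section
/-! Block K3: heights along straight edges. For an edge uv in the chart at u: ψ u u = 0, and
Good.ht with ord gives η ‖ψ u v‖ < ⟪l u, ψ u v⟫, so `cone` makes H u strictly increasing along γ u v;
`compat` passes to H a; continuity from hcont and cont; invariance from Inv. -/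

namespace Pool.Agent.Work.MP_3d425c_gt.Sm
open Set Relation Metric Topology Filter
open scoped RealInnerProductSpace

variable {Y : Type} [TopologicalSpace Y] {η : ℝ} {L : LM Y 300 η} {G : Type} [Group G]
  [MulAction G Y] {V : SubMulAction G Y} {w : Y → ℝ}

theorem k3_norm (h : L.Good V w) {u v : Y} (hd : L.d u v < 10) : ‖L.ψ u v‖ ≤ L.d u v + η := by
  have := L.norm_ψ u (y := v) (by linarith)
  have := h.pos
  linarith [(abs_le.1 ‹|_| ≤ η›).1]

theorem k3_smul (h : L.Good V w) {u v : Y} (hd : L.d u v < 10) {t : ℝ} (ht : t ∈ Icc (0 : ℝ) 1) :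
    ‖t • L.ψ u v‖ < 300 := by
  rw [norm_smul, Real.norm_of_nonneg ht.1]
  have h1 := k3_norm h hd
  have h2 := h.small
  nlinarith [norm_nonneg (L.ψ u v), ht.1, ht.2]

theorem k3_near (h : L.Good V w) {u v : Y} (hd : L.d u v < 10) {t : ℝ}
    (ht : t ∈ Icc (0 : ℝ) 1) : L.d u (L.γ u v t) ≤ t * L.d u v + 1 / 100 := by
  have h1 := (abs_le.1 (L.d_χ u (k3_smul h hd ht))).2
  rw [norm_smul, Real.norm_of_nonneg ht.1] at h1
  have h2 := k3_norm h hd
  have h3 := h.small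
  have h4 := h.pos
  have h5 := mul_le_mul_of_nonneg_left h2 ht.1
  unfold LM.γ
  nlinarith [ht.1, ht.2]

theorem LM.Good.γ_near (h : L.Good V w) {u v : Y} (hd : L.d u v < 10) {t : ℝ}
    (ht : t ∈ Icc (0 : ℝ) 1) : L.d u (L.γ u v t) ≤ L.d u v + 1 / 100 := by
  have h1 := k3_near h hd ht
  have h2 := L.nonneg u v
  nlinarith [ht.1, ht.2]

theorem LM.Good.γ_near2 (h : L.Good V w) {u v : Y} (hd : L.d u v < 10) {t : ℝ}
    (ht : t ∈ Icc (0 : ℝ) 1) : L.d u (L.γ u v t) ≤ t * L.d u v + 1 / 100 ∧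
      L.d v (L.γ u v t) ≤ (1 - t) * L.d u v + 1 / 100 := by
  refine ⟨k3_near h hd ht, ?_⟩
  have h1 := (abs_le.1 (L.d_χψ u (k3_smul h hd ht) (y := v) (by linarith))).2
  have e : t • L.ψ u v - L.ψ u v = -((1 - t) • L.ψ u v) := by
    rw [sub_smul, one_smul, neg_sub]
  rw [e, norm_neg, norm_smul, Real.norm_of_nonneg (sub_nonneg.2 ht.2)] at h1
  have h2 := k3_norm h hd
  have h3 := h.small
  have h4 := h.pos
  have h5 := mul_le_mul_of_nonneg_left h2 (sub_nonneg.2 ht.2)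
  rw [L.symm]
  unfold LM.γ
  nlinarith [ht.1, ht.2]

theorem LM.Good.γ_zero (h : L.Good V w) (u v : Y) : L.γ u v 0 = u := by
  have := h.pos
  rw [LM.γ, zero_smul, L.χ0]

theorem LM.Good.γ_one (h : L.Good V w) {u v : Y} (hd : L.d u v < 10) : L.γ u v 1 = v := by
  have := h.pos
  rw [LM.γ, one_smul, (L.right u v (by linarith)).2]

theorem LM.Good.γ_smul (h : L.Good V w) (g : G) {u v : Y} (hd : L.d u v < 10) {t : ℝ}
    (ht : t ∈ Icc (0 : ℝ) 1) : L.γ (g • u) (g • v) t = g • L.γ u v t := by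
  unfold LM.γ
  rw [h.inv.ψ L g (by linarith), h.inv.χ g u _ (mem_ball_zero_iff.2 (k3_smul h hd ht))]

theorem LM.Good.γ_cont (h : L.Good V w) {a u v : Y} (ha : L.d a u < 100) (hd : L.d u v < 10) :
    ContinuousOn (fun t => L.H a (L.γ u v t)) (Icc 0 1) := by
  have c1 : ContinuousOn (fun t : ℝ => L.χ u (t • L.ψ u v)) (Icc 0 1) :=
    (L.cont u).comp (f := fun t : ℝ => t • L.ψ u v) (by fun_prop)
      fun t ht => mem_ball_zero_iff.2 (k3_smul h hd ht)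
  refine (L.hcont a).comp (f := fun t : ℝ => L.χ u (t • L.ψ u v)) c1 fun t ht => ?_
  have h1 := h.γ_near hd ht
  have h2 := L.tri a u (L.γ u v t)
  show L.d a (L.γ u v t) < 300 - 1
  linarith

theorem LM.Good.γ_mono (h : L.Good V w) {a : Y} {u v : V} (ha : L.d a u.1 < 100)
    (hl : L.lt V u v) : StrictMonoOn (fun t => L.H a (L.γ u.1 v.1 t)) (Icc 0 1) := by
  have hu : u ∈ L.S V u.1 := by
    show L.d u.1 u.1 < 60
    rw [L.d_self]
    norm_num
  have hv : v ∈ L.S V u.1 := by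
    show L.d u.1 v.1 < 60
    linarith [hl.1]
  have h0 : L.P V u.1 u = 0 := L.ψ_self (by norm_num) u.1
  have hne : v ≠ u := fun e => by
    have := hl.2
    rw [e] at this
    exact lt_irrefl _ this
  have h1 := h.ht u.1 v hv u hu hne
  have h2 := (h.ord u.1 hu hv).1 hl.2
  rw [h0, inner_zero_right] at h2
  rw [h0, sub_zero, abs_of_pos h2] at h1
  intro s hs t ht hst
  have h3 : L.H u.1 (L.γ u.1 v.1 s) < L.H u.1 (L.γ u.1 v.1 t) := by
    refine L.cone u.1 _ (mem_ball_zero_iff.2 (k3_smul h hl.1 hs)) _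
      (mem_ball_zero_iff.2 (k3_smul h hl.1 ht)) ?_
    rw [← sub_smul, norm_smul, Real.norm_of_nonneg (sub_nonneg.2 hst.le), inner_smul_right,
      mul_left_comm]
    exact mul_lt_mul_of_pos_left h1 (sub_pos.2 hst)
  have h4 := h.γ_near hl.1 hs
  have h5 := h.γ_near hl.1 ht
  have h6 := L.tri a u.1 (L.γ u.1 v.1 s)
  have h7 := L.tri a u.1 (L.γ u.1 v.1 t)
  have h8 := hl.1
  exact L.compat u.1 a _ _ (by linarith) (by linarith) (by linarith) (by linarith) h3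

theorem LM.Good.hts (h : L.Good V w) : Hts G (L.lt V) (L.T V w)
    (fun a u v t => L.H a.1 (L.γ u.1 v.1 t)) fun a u => L.H a.1 u.1 := by
  have near : ∀ σ ∈ L.T V w, ∀ a ∈ σ, ∀ u ∈ σ, ∀ v : V, L.lt V u v → ∀ t ∈ Icc (0 : ℝ) 1,
      L.d a.1 (L.γ u.1 v.1 t) < 300 - 1 := fun σ hσ a ha u hu v hl t ht => by
    have h1 := h.diam hσ ha hu
    have h2 := h.γ_near hl.1 ht
    have h3 := L.tri a.1 u.1 (L.γ u.1 v.1 t)
    have h4 := hl.1
    linarith
  refine ⟨fun σ hσ a ha u hu v _ hl => h.γ_mono (by linarith [h.diam hσ ha hu]) hl,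
    fun σ hσ a ha u hu v _ hl => h.γ_cont (by linarith [h.diam hσ ha hu]) hl.1,
    fun σ _ a _ u _ v _ _ => ?_, fun σ _ a _ u _ v _ hl => ?_,
    fun σ hσ a ha b hb u hu v _ u' hu' v' _ hl hl' t ht t' ht' hlt => ?_,
    fun g σ _ a _ u _ v _ hl t ht => ?_⟩
  · show L.H a.1 (L.γ u.1 v.1 0) = _
    rw [h.γ_zero]
  · show L.H a.1 (L.γ u.1 v.1 1) = _
    rw [h.γ_one hl.1]
  · exact L.compat a.1 b.1 _ _ (near σ hσ a ha u hu v hl t ht) (near σ hσ a ha u' hu' v' hl' t' ht')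
      (near σ hσ b hb u hu v hl t ht) (near σ hσ b hb u' hu' v' hl' t' ht') hlt
  · show L.H (g • a.1) (L.γ (g • u.1) (g • v.1) t) = L.H a.1 (L.γ u.1 v.1 t)
    rw [h.γ_smul g hl.1 ht, h.inv.H]

end Pool.Agent.Work.MP_3d425c_gt.Sm
end

-- merged part: Pool.Agent.Work.MP_3d425c_gt.Sm.P5
section
/-! Block P5: the bisector of a cut is a graph. `cut0`: at x + (c - 3) • l the nearest points are
lower, at x + (c + 3) • l they are upper (near, Cut.up, Cut.dn); Eu.lc with Q p = p ∉ U.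
`cut_loc`: a mixed point u of ball 0 50 has |⟪l, u⟫ - c| ≤ 3. `cut_uniq`: if u and u + t • l, t > 0, are
both mixed, with q upper nearest at u and p lower nearest at u + t • l, compare
pw · q - pw · p, which strictly decreases along l. `cut1`: chain for the segment from π u1 to π u2
(π u = u - ⟪l, u⟫ • l), covered (cut0, Pythagoras 27² + 18² < 32.5²) by the compact sets
π '' ({u | p, q ∈ Nr u} ∩ closedBall 0 32.5), p lower, q upper. -/

namespace Pool.Agent.Work.MP_3d425c_gt.Sm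
open Set Relation Metric Topology Filter
open scoped RealInnerProductSpace

variable {ι : Type} {S : Set ι} {P : ι → E3} {w : ι → ℝ} {l : E3} {U : Set ι} {c : ℝ}

theorem p5_inner (hl : ‖l‖ = 1) {x : E3} (hx : ⟪l, x⟫ = 0) (t : ℝ) : ⟪l, x + t • l⟫ = t := by
  rw [inner_add_right, hx, real_inner_smul_right, real_inner_self_eq_norm_sq, hl]
  ring

theorem p5_norm (hl : ‖l‖ = 1) {x : E3} (hx : ⟪l, x⟫ = 0) (t : ℝ) :
    ‖x + t • l‖ ^ 2 = ‖x‖ ^ 2 + t ^ 2 := by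
  rw [norm_add_sq_real, real_inner_smul_right, real_inner_comm, hx, norm_smul, hl, mul_one,
    Real.norm_eq_abs, sq_abs]
  ring

theorem p5_le (hl : ‖l‖ = 1) {x : E3} (hx : ⟪l, x⟫ = 0) (h27 : ‖x‖ ≤ 27) {t : ℝ} (ht : |t| ≤ 18) :
    ‖x + t • l‖ ≤ 65 / 2 := by
  refine le_of_sq_le_sq ?_ (by norm_num)
  have h1 : ‖x‖ ^ 2 ≤ 27 ^ 2 := pow_le_pow_left₀ (norm_nonneg _) h27 2
  have h2 : |t| ^ 2 ≤ 18 ^ 2 := pow_le_pow_left₀ (abs_nonneg _) ht 2
  rw [sq_abs] at h2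
  rw [p5_norm hl hx]
  linarith

theorem p5_ht (h : Eu S P w) (hl : ‖l‖ = 1) {u : E3} (hu : ‖u‖ < 50) {p : ι}
    (hp : p ∈ Nr S P w u) : |⟪l, u⟫ - ⟪l, P p⟫| < 2 := by
  rw [← inner_sub_right]
  refine (abs_real_inner_le_norm _ _).trans_lt ?_
  rw [hl, one_mul]
  exact h.near hu hp

theorem p5_perp (hl : ‖l‖ = 1) (u : E3) : ⟪l, u - ⟪l, u⟫ • l⟫ = 0 := by
  rw [inner_sub_right, real_inner_smul_right, real_inner_self_eq_norm_sq, hl]
  ring

theorem p5_proj_le (hl : ‖l‖ = 1) (u : E3) : ‖u - ⟪l, u⟫ • l‖ ≤ ‖u‖ := by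
  refine le_of_sq_le_sq ?_ (norm_nonneg _)
  have := p5_norm hl (p5_perp hl u) ⟪l, u⟫
  rw [sub_add_cancel] at this
  nlinarith [sq_nonneg ⟪l, u⟫]

theorem p5_lt (hc : Cut S P l U c) {u : E3} {t : ℝ} (ht : 0 < t) {p q : ι}
    (hq : q ∈ Nr S P w u) (hp : p ∈ Nr S P w (u + t • l)) (h1 : p ∉ U) (h2 : q ∈ U) : False := by
  have a1 := hq.2 p hp.1
  have a2 := hp.2 q hq.1
  have a3 := pw_sub P w u p q
  have a4 := pw_sub P w (u + t • l) p q
  have a5 := hc.lt p hp.1 q hq.1 h1 h2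
  have a6 : ⟪ea P p q, l⟫ = 2 * (⟪l, P q⟫ - ⟪l, P p⟫) := by
    rw [ea, real_inner_smul_left, real_inner_comm, inner_sub_right]
  rw [inner_add_right, real_inner_smul_right, a6] at a4
  nlinarith

theorem p5_uniq (hc : Cut S P l U c) {u v : E3} (e : u - ⟪l, u⟫ • l = v - ⟪l, v⟫ • l)
    {p q p' q' : ι} (hp : p ∈ Nr S P w u) (hq : q ∈ Nr S P w u) (hp' : p' ∈ Nr S P w v)
    (hq' : q' ∈ Nr S P w v) (h1 : p ∉ U) (h2 : q ∈ U) (h3 : p' ∉ U) (h4 : q' ∈ U) : u = v := by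
  have e1 : v = u + (⟪l, v⟫ - ⟪l, u⟫) • l := by
    rw [sub_smul, ← add_sub_assoc, add_sub_right_comm, e, sub_add_cancel]
  have e2 : u = v + (⟪l, u⟫ - ⟪l, v⟫) • l := by
    rw [sub_smul, ← add_sub_assoc, add_sub_right_comm, ← e, sub_add_cancel]
  rcases lt_trichotomy ⟪l, u⟫ ⟪l, v⟫ with k | k | k
  · exact (p5_lt hc (sub_pos.2 k) hq (e1 ▸ hp') h3 h2).elim
  · rw [e1, k, sub_self, zero_smul, add_zero]
  · exact (p5_lt hc (sub_pos.2 k) hq' (e2 ▸ hp) h1 h4).elim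

theorem Eu.cut0 (h : Eu S P w) (hc : Cut S P l U c) (h15 : |c| ≤ 15) {x : E3} (hx : ⟪l, x⟫ = 0)
    (h27 : ‖x‖ ≤ 27) : ∃ t, |t - c| ≤ 3 ∧ ∃ p ∈ Nr S P w (x + t • l), ∃ q ∈ Nr S P w (x + t • l),
      p ∉ U ∧ q ∈ U := by
  by_contra hn
  have hl := hc.unit
  have k := abs_le.1 h15
  obtain ⟨p, hp⟩ := h.ne (x + (c - 3) • l)
  obtain ⟨q, hq⟩ := h.ne (x + (c + 3) • l)
  have a1 := abs_lt.1 (p5_ht h hl ((p5_le hl hx h27
    (abs_le.2 ⟨by linarith, by linarith⟩)).trans_lt (by norm_num)) hp)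
  have a2 := abs_lt.1 (p5_ht h hl ((p5_le hl hx h27
    (abs_le.2 ⟨by linarith, by linarith⟩)).trans_lt (by norm_num)) hq)
  rw [p5_inner hl hx] at a1 a2
  refine h.lc (fun p => p ∉ U) ?_ hp hq (hc.dn p hp.1 (by linarith)) (hc.up q hq.1 (by linarith))
  rintro u ⟨α, β, h1, h2, h3, rfl⟩ p hp q hq k1 k2
  have e : α • (x + (c - 3) • l) + β • (x + (c + 3) • l) = x + (c + 3 * (β - α)) • l := by
    obtain rfl : α = 1 - β := by linarith
    module
  rw [e] at hp hq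
  exact hn ⟨_, abs_le.2 ⟨by linarith, by linarith⟩, p, hp, q, hq, k1, k2⟩

theorem Eu.cut1 (h : Eu S P w) (hc : Cut S P l U c) (h15 : |c| ≤ 15) (Q : ι → ι → Prop)
    (hQ : ∀ u ∈ ball (0 : E3) 33, ∀ p ∈ Nr S P w u, ∀ q ∈ Nr S P w u, ∀ p' ∈ Nr S P w u,
      ∀ q' ∈ Nr S P w u, p ∉ U → q ∈ U → p' ∉ U → q' ∈ U → Q p q → Q p' q') {u u' : E3}
    (hu : ‖u‖ < 27) (hu' : ‖u'‖ < 27) {p q p' q' : ι} (hp : p ∈ Nr S P w u) (hq : q ∈ Nr S P w u)
    (hp' : p' ∈ Nr S P w u') (hq' : q' ∈ Nr S P w u') (h1 : p ∉ U) (h2 : q ∈ U) (h3 : p' ∉ U)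
    (h4 : q' ∈ U) (h5 : Q p q) : Q p' q' := by
  have hl := hc.unit
  have hcv : Convex ℝ ({x : E3 | ⟪l, x⟫ = 0} ∩ closedBall 0 27) := by
    refine Convex.inter ?_ (convex_closedBall _ _)
    intro x hx y hy α β _ _ _
    have hx' : ⟪l, x⟫ = 0 := hx
    have hy' : ⟪l, y⟫ = 0 := hy
    show ⟪l, α • x + β • y⟫ = 0
    rw [inner_add_right, real_inner_smul_right, real_inner_smul_right, hx', hy']
    ring
  have hm : ∀ v : E3, ‖v‖ < 27 → v - ⟪l, v⟫ • l ∈ {x : E3 | ⟪l, x⟫ = 0} ∩ closedBall 0 27 :=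
    fun v hv => ⟨p5_perp hl v, mem_closedBall_zero_iff.2 ((p5_proj_le hl v).trans hv.le)⟩
  refine chain hcv.isPreconnected (K := {k : ι × ι | k.1 ∈ S ∧ k.2 ∈ S ∧ k.1 ∉ U ∧ k.2 ∈ U})
    ((h.fin.prod h.fin).subset fun k hk => ⟨hk.1, hk.2.1⟩)
    (fun k => (fun v : E3 => v - ⟪l, v⟫ • l) '' (closedBall 0 (65 / 2) ∩
      ({v | k.1 ∈ Nr S P w v} ∩ {v | k.2 ∈ Nr S P w v})))
    (fun k _ => (((isCompact_closedBall _ _).inter_right ((cell_closed S P w k.1).inter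
      (cell_closed S P w k.2))).image (by fun_prop)).isClosed) (fun x hx => ?_)
    (fun k => Q k.1 k.2) ?_ (k := (p, q)) (k' := (p', q')) ⟨hp.1, hq.1, h1, h2⟩
    ⟨hp'.1, hq'.1, h3, h4⟩ (hm u hu) (hm u' hu')
    ⟨u, ⟨mem_closedBall_zero_iff.2 (by linarith), hp, hq⟩, rfl⟩
    ⟨u', ⟨mem_closedBall_zero_iff.2 (by linarith), hp', hq'⟩, rfl⟩ h5
  · have x27 := mem_closedBall_zero_iff.1 hx.2
    obtain ⟨t, ht, a, ha, b, hb, k1, k2⟩ := h.cut0 hc h15 hx.1 x27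
    have t1 := abs_le.1 ht
    have t2 := abs_le.1 h15
    refine ⟨(a, b), ⟨ha.1, hb.1, k1, k2⟩, x + t • l, ⟨mem_closedBall_zero_iff.2
      (p5_le hl hx.1 x27 (abs_le.2 ⟨by linarith, by linarith⟩)), ha, hb⟩, ?_⟩
    show x + t • l - ⟪l, x + t • l⟫ • l = x
    rw [p5_inner hl hx.1, add_sub_cancel_right]
  · rintro k hk k' hk' x - ⟨v, ⟨v1, v2, v3⟩, rfl⟩ ⟨v', ⟨-, v2', v3'⟩, e⟩
    obtain rfl : v' = v := p5_uniq hc e v2' v3' v2 v3 hk'.2.2.1 hk'.2.2.2 hk.2.2.1 hk.2.2.2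
    exact hQ v' (mem_ball_zero_iff.2 ((mem_closedBall_zero_iff.1 v1).trans_lt (by norm_num)))
      _ v2 _ v3 _ v2' _ v3' hk.2.2.1 hk.2.2.2 hk'.2.2.1 hk'.2.2.2

end Pool.Agent.Work.MP_3d425c_gt.Sm
end

-- merged part: Pool.Agent.Work.MP_3d425c_gt.Sm.Cq
section
/-! The ordered complex of a complex given by sets (definitions; FROZEN). -/

namespace Pool.Agent.Work.MP_3d425c_gt.Sm
open Set Relation Metric Topology Filter
open scoped RealInnerProductSpace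

variable {G V : Type} [Group G] [MulAction G V] {lt : V → V → Prop} {T : Set (Set V)}

/-- increasing enumerations of the tetrahedra -/
def Kt (lt : V → V → Prop) (T : Set (Set V)) : Set (Fin 4 → V) :=
  {x | range x ∈ T ∧ ∀ i j, i < j → lt (x i) (x j)}

namespace SC
variable (h : SC G lt T)

/-- tetrahedra -/
def T3 (_ : SC G lt T) : Type := {x : Fin 4 → V // x ∈ Kt lt T}

/-- triangles -/
def T2 (_ : SC G lt T) : Type := {f : Fin 3 → V // ∃ x ∈ Kt lt T, ∃ k, f = Fin.removeNth k x}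

/-- edges -/
def T1 (_ : SC G lt T) : Type :=
  {e : Fin 2 → V // ∃ x ∈ Kt lt T, ∃ i j, i < j ∧ x i = e 0 ∧ x j = e 1}

include h in
theorem kt_smul (g : G) {x : Fin 4 → V} (hx : x ∈ Kt lt T) : g • x ∈ Kt lt T :=
  ⟨by
    have := h.inv g _ hx.1
    rwa [← range_comp] at this, fun i j a => h.ltg g _ _ (hx.2 i j a)⟩

instance : MulAction G h.T3 where
  smul g x := ⟨g • x.1, h.kt_smul g x.2⟩
  one_smul x := Subtype.ext (one_smul G x.1)
  mul_smul g k x := Subtype.ext (mul_smul g k x.1)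

instance : MulAction G h.T2 where
  smul g f := ⟨g • f.1, let ⟨x, hx, k, e⟩ := f.2; ⟨g • x, h.kt_smul g hx, k, by rw [e]; rfl⟩⟩
  one_smul x := Subtype.ext (one_smul G x.1)
  mul_smul g k x := Subtype.ext (mul_smul g k x.1)

instance : MulAction G h.T1 where
  smul g e := ⟨g • e.1, let ⟨x, hx, i, j, a, b, c⟩ := e.2
    ⟨g • x, h.kt_smul g hx, i, j, a, congrArg (g • ·) b, congrArg (g • ·) c⟩⟩
  one_smul x := Subtype.ext (one_smul G x.1)
  mul_smul g k x := Subtype.ext (mul_smul g k x.1)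

/-- faces of tetrahedra -/
def d3 (x : h.T3) (k : Fin 4) : h.T2 := ⟨Fin.removeNth k x.1, x.1, x.2, k, rfl⟩

/-- faces of triangles -/
def d2 (f : h.T2) (i : Fin 3) : h.T1 :=
  ⟨Fin.removeNth i f.1, let ⟨x, hx, k, e⟩ := f.2
    ⟨x, hx, _, _, Fin.strictMono_succAbove k
      (Fin.strictMono_succAbove i (by decide : (0 : Fin 2) < 1)), by rw [e]; rfl, by rw [e]; rfl⟩⟩

/-- ends of edges -/
def d1 (e : h.T1) (i : Fin 2) : V := e.1 (i.succAbove 0)

theorem fsurj (f : h.T2) : ∃ x k, f = h.d3 x k :=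
  let ⟨x, hx, k, e⟩ := f.2; ⟨⟨x, hx⟩, k, Subtype.ext e⟩

theorem inj (x : h.T3) : Function.Injective x.1 := fun i j e => by
  rcases lt_trichotomy i j with a | a | a
  · exact absurd (e ▸ x.2.2 i j a) fun b => h.asym _ _ b b
  · exact a
  · exact absurd (e ▸ x.2.2 j i a) fun b => h.asym _ _ b b

theorem lt_iff (x : h.T3) {i j : Fin 4} : lt (x.1 i) (x.1 j) ↔ i < j := by
  refine ⟨fun e => ?_, x.2.2 i j⟩
  rcases lt_trichotomy i j with a | rfl | a
  · exact a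
  · exact absurd e (h.asym _ _ e)
  · exact absurd e (h.asym _ _ (x.2.2 j i a))

/-- every tetrahedron has an increasing enumeration -/
theorem enum {σ : Set V} (hσ : σ ∈ T) : ∃ x : h.T3, range x.1 = σ := by
  classical
  have h4 := h.four σ hσ
  have fin : σ.Finite := finite_of_ncard_ne_zero (by omega)
  have := fin.to_subtype
  have : IsStrictTotalOrder σ fun a b => lt a.1 b.1 :=
    { trichotomous := fun a b h1 h2 => by
        rcases h.tot σ hσ _ a.2 _ b.2 with e | e | e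
        exacts [Subtype.ext e, absurd e h1, absurd e h2]
      irrefl := fun a e => h.asym _ _ e e
      trans := fun a b c => h.tr σ hσ _ a.2 _ b.2 _ c.2 }
  let _ := linearOrderOfSTO fun a b : σ => lt a.1 b.1
  have := Fintype.ofFinite σ
  have c : Fintype.card σ = 4 := by rw [← Nat.card_eq_fintype_card, Nat.card_coe_set_eq, h4]
  let e := monoEquivOfFin σ c
  have r : range (fun i => (e i).1) = σ := by
    ext v
    exact ⟨by rintro ⟨i, rfl⟩; exact (e i).2, fun hv => ⟨e.symm ⟨v, hv⟩, by simp⟩⟩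
  exact ⟨⟨fun i => (e i).1, by rw [r]; exact hσ, fun i j a => e.strictMono a⟩, r⟩

/-- increasing tuples in a tetrahedron are determined by their range -/
theorem tup_ext {n : ℕ} (x : h.T3) {f g : Fin n → V} (hf : ∀ i j, i < j → lt (f i) (f j))
    (hg : ∀ i j, i < j → lt (g i) (g j)) (hx : range f ⊆ range x.1) (e : range f = range g) :
    f = g := by
  choose a ha using fun i => hx (mem_range_self i)
  choose b hb using fun i => hx (e ▸ mem_range_self (f := g) i)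
  have ma : StrictMono a := fun i j c => (h.lt_iff x).1 (by rw [ha, ha]; exact hf i j c)
  have mb : StrictMono b := fun i j c => (h.lt_iff x).1 (by rw [hb, hb]; exact hg i j c)
  have : range a = range b := by
    refine image_injective.2 (h.inj x) ?_
    rw [← range_comp, ← range_comp, show x.1 ∘ a = f from funext ha,
      show x.1 ∘ b = g from funext hb, e]
  have := (ma.range_inj mb).1 this
  exact funext fun i => by rw [← ha, ← hb, this]

theorem face_lt (x : h.T3) (k : Fin 4) (i j : Fin 3) (a : i < j) :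
    lt ((h.d3 x k).1 i) ((h.d3 x k).1 j) := x.2.2 _ _ (Fin.strictMono_succAbove k a)

theorem range_d3 (x : h.T3) (k : Fin 4) : range (h.d3 x k).1 = range x.1 \ {x.1 k} := by
  ext v
  constructor
  · rintro ⟨i, rfl⟩
    exact ⟨⟨_, rfl⟩, fun e => Fin.succAbove_ne k i (h.inj x e)⟩
  · rintro ⟨⟨i, rfl⟩, e⟩
    obtain ⟨j, rfl⟩ := Fin.exists_succAbove_eq (fun c : i = k => e (congrArg x.1 c))
    exact ⟨j, rfl⟩

theorem d3_ext {x y : h.T3} {k l : Fin 4} (e : range (h.d3 x k).1 = range (h.d3 y l).1) :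
    h.d3 x k = h.d3 y l :=
  Subtype.ext (h.tup_ext x (h.face_lt x k) (h.face_lt y l)
    (by rw [h.range_d3]; exact sdiff_subset) e)

theorem sub_face (x : h.T3) {f : Set V} (hf : f ⊆ range x.1) (e : f.ncard = 3) :
    ∃ k, range (h.d3 x k).1 = f := by
  have h4 := h.four _ x.2.1
  have fin : (range x.1).Finite := finite_range _
  obtain ⟨v, ⟨k, rfl⟩, hv⟩ : ∃ v ∈ range x.1, v ∉ f := by
    by_contra c
    push Not at c
    have := ncard_le_ncard c (fin.subset hf)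
    omega
  refine ⟨k, ?_⟩
  rw [h.range_d3]
  have sub : f ⊆ range x.1 \ {x.1 k} := fun u hu => ⟨hf hu, fun c => hv (c ▸ hu)⟩
  refine (eq_of_subset_of_ncard_le sub ?_ fin.sdiff).symm
  rw [ncard_sdiff_singleton_of_mem (mem_range_self k)]
  omega

theorem enum_inj {x y : h.T3} (e : range x.1 = range y.1) : x = y :=
  Subtype.ext (h.tup_ext x x.2.2 y.2.2 subset_rfl e)

/-- a common triangle -/
theorem ad_face {x y : h.T3} (e : (range x.1 ∩ range y.1).ncard = 3) :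
    ∃ k l, h.d3 x k = h.d3 y l ∧ range (h.d3 x k).1 = range x.1 ∩ range y.1 := by
  obtain ⟨k, a⟩ := h.sub_face x inter_subset_left e
  obtain ⟨l, b⟩ := h.sub_face y inter_subset_right e
  exact ⟨k, l, h.d3_ext (a.trans b.symm), a⟩

theorem adj_ind {P : Set V → Prop} {Q : h.T3 → Prop} (x : h.T3) (hx : Q x)
    (step : ∀ y z : h.T3, ∀ k l, h.d3 y k = h.d3 z l → P (range (h.d3 y k).1) → Q y → Q z)
    (y : h.T3) (hr : ReflTransGen (Ad T 3 P) (range x.1) (range y.1)) : Q y := by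
  have : ∀ τ, ReflTransGen (Ad T 3 P) (range x.1) τ → ∃ y : h.T3, range y.1 = τ ∧ Q y := by
    intro τ hr
    induction hr with
    | refl => exact ⟨x, rfl, hx⟩
    | tail _ a ih =>
      obtain ⟨y, rfl, ih⟩ := ih
      obtain ⟨hz, c, p⟩ := a
      obtain ⟨z, rfl⟩ := h.enum hz
      obtain ⟨k, l, e, r⟩ := h.ad_face c
      exact ⟨z, rfl, step y z k l e (r ▸ p) ih⟩
  obtain ⟨z, e, q⟩ := this _ hr
  exact h.enum_inj e ▸ q

theorem two' (f : h.T2) : ∃ p q : h.T3 × Fin 4, p ≠ q ∧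
    ∀ r : h.T3 × Fin 4, h.d3 r.1 r.2 = f ↔ r = p ∨ r = q := by
  obtain ⟨x, k, rfl⟩ := h.fsurj f
  obtain ⟨v, ⟨v1, v2⟩, u⟩ := h.two _ x.2.1 _ (mem_range_self k)
  obtain ⟨y, hy⟩ := h.enum v2
  obtain ⟨l, hl⟩ : v ∈ range y.1 := hy ▸ mem_insert _ _
  have e : h.d3 y l = h.d3 x k := h.d3_ext (by
    rw [h.range_d3, h.range_d3, hy, hl, insert_sdiff_self_of_notMem fun c => v1 c.1])
  refine ⟨(x, k), (y, l), fun c => v1 ?_, fun r => ⟨fun c => ?_, ?_⟩⟩
  · obtain rfl : x = y := congrArg Prod.fst c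
    exact ⟨l, hl⟩
  · obtain ⟨z, m⟩ := r
    have c' : range z.1 \ {z.1 m} = range x.1 \ {x.1 k} := by
      rw [← h.range_d3, ← h.range_d3]
      exact congrArg (fun f : h.T2 => range f.1) c
    have rz : range z.1 = insert (z.1 m) (range x.1 \ {x.1 k}) := by
      rw [← c', insert_sdiff_singleton, insert_eq_of_mem (mem_range_self m)]
    by_cases d : z.1 m ∈ range x.1
    · have d' : z.1 m = x.1 k := by
        by_contra n
        have : z.1 m ∈ range z.1 \ {z.1 m} := c' ▸ ⟨d, n⟩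
        exact this.2 rfl
      obtain rfl : z = x := h.enum_inj (by
        rw [rz, d', insert_sdiff_singleton, insert_eq_of_mem (mem_range_self k)])
      exact Or.inl (Prod.ext rfl (h.inj z d'))
    · have d' := u _ ⟨d, rz ▸ z.2.1⟩
      obtain rfl : z = y := h.enum_inj (by rw [rz, d', hy])
      exact Or.inr (Prod.ext rfl (h.inj z (d'.trans hl.symm)))
  · rintro (rfl | rfl)
    exacts [rfl, e]

theorem elt (e : h.T1) : lt (e.1 0) (e.1 1) :=
  let ⟨_, hx, i, j, a, b, c⟩ := e.2; b ▸ c ▸ hx.2 i j a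

theorem flt_iff (x : h.T3) (k : Fin 4) {a b : Fin 3} :
    lt ((h.d3 x k).1 a) ((h.d3 x k).1 b) ↔ a < b :=
  (h.lt_iff x).trans (Fin.strictMono_succAbove k).lt_iff_lt

theorem link' (p q : h.T2 × Fin 3) (e : h.d2 p.1 p.2 = h.d2 q.1 q.2) :
    EqvGen (fun p q => ∃ x, ∃ i j : Fin 3,
      i ≤ j ∧ p = (h.d3 x j.succ, i) ∧ q = (h.d3 x i.castSucc, j)) p q := by
  set R := EqvGen (fun p q => ∃ x, ∃ i j : Fin 3,
      i ≤ j ∧ p = (h.d3 x j.succ, i) ∧ q = (h.d3 x i.castSucc, j)) with hR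
  have one : ∀ y k i l j, h.d2 (h.d3 y k) i = h.d2 (h.d3 y l) j →
      R (h.d3 y k, i) (h.d3 y l, j) := by
    intro y k i l j e
    have e' : ∀ m, k.succAbove (i.succAbove m) = l.succAbove (j.succAbove m) := fun m =>
      h.inj y (congrFun (congrArg Subtype.val e) m)
    have : ∀ (k : Fin 4) (i : Fin 3) (l : Fin 4) (j : Fin 3),
        (∀ m, k.succAbove (i.succAbove m) = l.succAbove (j.succAbove m)) → (k = l ∧ i = j) ∨
        (i ≤ j ∧ k = j.succ ∧ l = i.castSucc) ∨ (j ≤ i ∧ l = i.succ ∧ k = j.castSucc) := by decide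
    rcases this k i l j e' with ⟨rfl, rfl⟩ | ⟨a, rfl, rfl⟩ | ⟨a, rfl, rfl⟩
    · exact .refl _
    · exact .rel _ _ ⟨y, i, j, a, rfl, rfl⟩
    · exact .symm _ _ (.rel _ _ ⟨y, j, i, a, rfl, rfl⟩)
  obtain ⟨f, i⟩ := p
  obtain ⟨f', j⟩ := q
  obtain ⟨x, k, rfl⟩ := h.fsurj f
  obtain ⟨y, l, rfl⟩ := h.fsurj f'
  set ε := h.d2 (h.d3 x k) i with hε
  refine h.adj_ind (Q := fun y => ∀ l j, ε = h.d2 (h.d3 y l) j → R (h.d3 x k, i) (h.d3 y l, j))
    x (one x k i) ?_ y (h.link _ x.2.1 _ y.2.1 (ε.1 0) (ε.1 1)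
      (fun a => h.asym _ _ (h.elt ε) (a ▸ a ▸ h.elt ε)) ⟨_, rfl⟩ ⟨_, rfl⟩ ⟨_, by rw [e]; rfl⟩
      ⟨_, by rw [e]; rfl⟩) l j e
  rintro y z k' l' e' ⟨⟨a, ha⟩, b, hb⟩ ih l'' j'' e''
  have lt' : a < b := (h.flt_iff y k').1 (ha ▸ hb ▸ h.elt ε)
  obtain ⟨m, m0, m1⟩ := (by decide : ∀ a b : Fin 3, a < b →
    ∃ m : Fin 3, m.succAbove 0 = a ∧ m.succAbove 1 = b) a b lt'
  have e1 : ε = h.d2 (h.d3 y k') m := Subtype.ext (funext fun t => by
    fin_cases t
    · exact ha.symm.trans (congrArg _ m0.symm)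
    · exact hb.symm.trans (congrArg _ m1.symm))
  refine .trans _ _ _ (ih k' m e1) ?_
  rw [e'] at e1 ⊢
  exact one z l' m l'' j'' (e1.symm.trans e'')

theorem mx_face (x : h.T3) (k : Fin 4) {v : V} (m : Mx lt (range (h.d3 x k).1) v) :
    (h.d3 x k).1 1 = v := by
  obtain ⟨⟨b, rfl⟩, _, ⟨a, rfl⟩, _, ⟨c, rfl⟩, p, q⟩ := m
  have p := (h.flt_iff x k).1 p
  have q := (h.flt_iff x k).1 q
  exact congrArg _ ((by decide : ∀ a b c : Fin 3, a < b → b < c → 1 = b) a b c p q)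

theorem equ' (f f' : h.T2) (e : h.d1 (h.d2 f 2) 0 = h.d1 (h.d2 f' 2) 0) :
    EqvGen (fun f f' => ∃ x, (f = h.d3 x 2 ∧ f' = h.d3 x 3) ∨ (f = h.d3 x 0 ∧ f' = h.d3 x 1))
      f f' := by
  set R := EqvGen (fun f f' => ∃ x, (f = h.d3 x 2 ∧ f' = h.d3 x 3) ∨
    (f = h.d3 x 0 ∧ f' = h.d3 x 1)) with hR
  have one : ∀ y k l, (h.d3 y k).1 1 = (h.d3 y l).1 1 → R (h.d3 y k) (h.d3 y l) := by
    intro y k l e
    have : ∀ k l : Fin 4, k.succAbove 1 = l.succAbove 1 → k = l ∨ (k = 2 ∧ l = 3) ∨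
      (k = 0 ∧ l = 1) ∨ (k = 3 ∧ l = 2) ∨ (k = 1 ∧ l = 0) := by decide
    rcases this k l (h.inj y e) with rfl | ⟨rfl, rfl⟩ | ⟨rfl, rfl⟩ | ⟨rfl, rfl⟩ | ⟨rfl, rfl⟩
    · exact .refl _
    · exact .rel _ _ ⟨y, Or.inl ⟨rfl, rfl⟩⟩
    · exact .rel _ _ ⟨y, Or.inr ⟨rfl, rfl⟩⟩
    · exact .symm _ _ (.rel _ _ ⟨y, Or.inl ⟨rfl, rfl⟩⟩)
    · exact .symm _ _ (.rel _ _ ⟨y, Or.inr ⟨rfl, rfl⟩⟩)
  have mid : ∀ (y : h.T3) k, Mx lt (range y.1) ((h.d3 y k).1 1) := fun y k =>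
    ⟨⟨_, rfl⟩, (h.d3 y k).1 0, ⟨_, rfl⟩, (h.d3 y k).1 2, ⟨_, rfl⟩, h.face_lt y k 0 1 (by decide),
      h.face_lt y k 1 2 (by decide)⟩
  obtain ⟨x, k, rfl⟩ := h.fsurj f
  obtain ⟨y, l, rfl⟩ := h.fsurj f'
  have e : (h.d3 x k).1 1 = (h.d3 y l).1 1 := e
  refine h.adj_ind (Q := fun y => ∀ l, (h.d3 x k).1 1 = (h.d3 y l).1 1 → R (h.d3 x k) (h.d3 y l))
    x (one x k) ?_ y (h.equ _ x.2.1 _ y.2.1 _ (mid x k) (e ▸ mid y l)) l e
  intro y z k' l' e' p ih l'' e''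
  have p := h.mx_face y k' p
  refine .trans _ _ _ (ih k' p.symm) ?_
  rw [e'] at p ⊢
  exact one z l' l'' (p.trans e'')

include h in
/-- from ordered cocycles to cocycles -/
theorem ord_coc {Γ : Type} [Group Γ] (z : V → V → Γ) : ∃ Z : V → V → Γ,
    (∀ u v, lt u v → Z u v = z u v) ∧ ∀ σ ∈ T, ∀ τ ⊆ σ, (∀ u ∈ τ, ∀ v ∈ τ, ∀ w ∈ τ, lt u v →
      lt v w → z u v * z v w = z u w) → Coc Z τ := by
  classical
  let g : V → V → Γ := fun u v => if lt u v then z u v else if lt v u then (z v u)⁻¹ else 1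
  have g1 : ∀ u v, lt u v → g u v = z u v := fun u v h => if_pos h
  have g2 : ∀ u v, lt u v → g v u = (z u v)⁻¹ := fun u v a =>
    (if_neg (h.asym u v a)).trans (if_pos a)
  have g0 : ∀ u, g u u = 1 := fun u =>
    (if_neg fun a => h.asym u u a a).trans (if_neg fun a => h.asym u u a a)
  refine ⟨g, g1, fun σ a τ s tr u hu v hv w hw => ?_⟩
  rcases h.tot σ a u (s hu) v (s hv) with rfl | c | c
  · rw [g0, one_mul]
  · rcases h.tot σ a v (s hv) w (s hw) with rfl | d | d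
    · rw [g0, mul_one]
    · rw [g1 _ _ c, g1 _ _ d, g1 _ _ (h.tr σ a u (s hu) v (s hv) w (s hw) c d),
        tr u hu v hv w hw c d]
    · rcases h.tot σ a u (s hu) w (s hw) with rfl | e | e
      · rw [g1 _ _ c, g2 _ _ c, g0, mul_inv_cancel]
      · rw [g1 _ _ c, g2 _ _ d, g1 _ _ e, ← tr u hu w hw v hv e d]
        group
      · rw [g1 _ _ c, g2 _ _ d, g2 _ _ e, ← tr w hw u hu v hv e c]
        group
  · rcases h.tot σ a v (s hv) w (s hw) with rfl | d | d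
    · rw [g0, mul_one]
    · rcases h.tot σ a u (s hu) w (s hw) with rfl | e | e
      · rw [g2 _ _ c, g1 _ _ c, g0, inv_mul_cancel]
      · rw [g2 _ _ c, g1 _ _ d, g1 _ _ e, ← tr v hv u hu w hw c e]
        group
      · rw [g2 _ _ c, g1 _ _ d, g2 _ _ e, ← tr v hv w hw u hu d e]
        group
    · rw [g2 _ _ c, g2 _ _ d, g2 _ _ (h.tr σ a w (s hw) v (s hv) u (s hu) d c),
        ← tr w hw v hv u hu d c]
      group

theorem sc' (Γ : Type) [Group Γ] (z : h.T1 → Γ)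
    (hz : ∀ f, z (h.d2 f 1) = z (h.d2 f 2) * z (h.d2 f 0)) :
    ∃ s : V → Γ, ∀ e, z e = s (h.d1 e 1) * (s (h.d1 e 0))⁻¹ := by
  classical
  let z' : V → V → Γ := fun u v =>
    if a : ∃ x ∈ Kt lt T, ∃ i j, i < j ∧ x i = u ∧ x j = v then z ⟨![u, v], a⟩ else 1
  have ze : ∀ e : h.T1, z' (e.1 0) (e.1 1) = z e := fun e =>
    (dif_pos e.2).trans (congrArg z (Subtype.ext (funext fun t => by fin_cases t <;> rfl)))
  obtain ⟨Z, z1, z2⟩ := h.ord_coc z'
  obtain ⟨s, hs⟩ := h.sc Γ Z fun σ hσ => z2 σ hσ σ subset_rfl (by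
    obtain ⟨x, rfl⟩ := h.enum hσ
    rintro _ ⟨a, rfl⟩ _ ⟨b, rfl⟩ _ ⟨c, rfl⟩ e1 e2
    obtain ⟨k, rfl, rfl, rfl⟩ := (by decide : ∀ a b c : Fin 4, a < b → b < c →
      ∃ k : Fin 4, k.succAbove 0 = a ∧ k.succAbove 1 = b ∧ k.succAbove 2 = c) a b c
      ((h.lt_iff x).1 e1) ((h.lt_iff x).1 e2)
    have := hz (h.d3 x k)
    rw [← ze, ← ze, ← ze] at this
    exact this.symm)
  refine ⟨s, fun e => ?_⟩
  obtain ⟨x, hx, i, j, -, a, b⟩ := e.2
  rw [← ze, ← z1 _ _ (h.elt e)]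
  exact hs _ hx.1 _ ⟨i, a⟩ _ ⟨j, b⟩

theorem fin' : Finite (MulAction.orbitRel.Quotient G h.T3) := by
  obtain ⟨F, hF, a⟩ := h.fin
  have : Finite {y : h.T3 // range y.1 ∈ F} := by
    have := hF.to_subtype
    exact Finite.of_injective (fun y => (⟨range y.1.1, y.2⟩ : F)) fun y z e =>
      Subtype.ext (h.enum_inj (congrArg (fun a : F => a.1) e))
  refine Finite.of_surjective (fun y : {y : h.T3 // range y.1 ∈ F} => Quotient.mk _ y.1)
    fun c => ?_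
  induction c using Quotient.inductionOn' with
  | h x =>
    obtain ⟨g, hg⟩ := a _ x.2.1
    rw [← range_comp] at hg
    exact ⟨⟨g • x, hg⟩, Quotient.sound ⟨g, rfl⟩⟩

/-- the ordered complex -/
def tri : Md.Tri G V h.T1 h.T2 h.T3 where
  d1 := h.d1
  d2 := h.d2
  d3 := h.d3
  e1 _ _ _ := rfl
  e2 _ _ _ := rfl
  e3 _ _ _ := rfl
  s2 f i j a := congrArg f.1 ((by decide : ∀ i j : Fin 2, i ≤ j →
    j.succ.succAbove (i.succAbove 0) = i.castSucc.succAbove (j.succAbove 0)) i j a)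
  s3 x i j a := Subtype.ext (funext fun m => congrArg x.1 ((by decide : ∀ i j : Fin 3, i ≤ j →
    ∀ m : Fin 2, j.succ.succAbove (i.succAbove m) = i.castSucc.succAbove (j.succAbove m)) i j a m))
  free := h.free
  fin := h.fin'
  ne := let ⟨_, a⟩ := h.ne; let ⟨x, _⟩ := h.enum a; ⟨x⟩
  two := h.two'
  conn x y := h.adj_ind (Q := fun y => EqvGen (fun x y => ∃ k l, h.d3 x k = h.d3 y l) x y) x
    (.refl _) (fun _ _ k l e _ ih => .trans _ _ _ ih (.rel _ _ ⟨k, l, e⟩)) y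
    (h.conn _ x.2.1 _ y.2.1)
  link := h.link'
  equ := h.equ'
  h1 z hz := by
    obtain ⟨s, hs'⟩ := h.sc' (Multiplicative ℝ) (fun e => Multiplicative.ofAdd (z e))
      fun f => by rw [hz, ofAdd_add]
    refine ⟨fun v => - (s v).toAdd, fun e => ?_⟩
    have := congrArg Multiplicative.toAdd (hs' e)
    simp only [toAdd_ofAdd, toAdd_mul, toAdd_inv] at this
    linarith

theorem idx0 : ∀ i p q r : Fin 4, i < p → p < q → q < r → i = 0 ∧ p = 1 ∧ q = 2 ∧ r = 3 := by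
  intro i p q r a b c
  simp only [Fin.ext_iff, Fin.lt_def] at *
  omega

theorem disc : Nv.Disc h.tri := by
  classical
  have ce : ∀ {Γ : Type} [Group Γ] (c : h.T2 → Γ), ∃ c' : V → V → V → Γ,
      ∀ f : h.T2, c' (f.1 0) (f.1 1) (f.1 2) = c f := fun c =>
    ⟨fun u v w => if a : ∃ x ∈ Kt lt T, ∃ k, ![u, v, w] = Fin.removeNth k x then c ⟨_, a⟩ else 1,
      fun f => by
        have e : ![f.1 0, f.1 1, f.1 2] = f.1 := funext fun t => by fin_cases t <;> rfl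
        simp only [e, dif_pos f.2]
        rfl⟩
  refine ⟨h.sc', fun Γ _ c hc => ?_, fun Γ _ c hc => ?_⟩
  · obtain ⟨c', e⟩ := ce c
    have : ∀ v, ∃ s : V → Γ, ∀ σ ∈ T, v ∈ σ → ∀ p ∈ σ, ∀ q ∈ σ, lt v p → lt p q →
        (c' v p q)⁻¹ = s p * (s q)⁻¹ := fun v => by
      obtain ⟨Z, z1, z2⟩ := h.ord_coc fun u w => (c' v u w)⁻¹
      obtain ⟨s, hs⟩ := h.ul v Γ Z fun σ hσ hv => z2 σ hσ _ inter_subset_left (by
        obtain ⟨x, rfl⟩ := h.enum hσ
        obtain ⟨i, rfl⟩ := hv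
        rintro _ ⟨⟨p, rfl⟩, l0⟩ _ ⟨⟨q, rfl⟩, -⟩ _ ⟨⟨r, rfl⟩, -⟩ e1 e2
        obtain ⟨rfl, rfl, rfl, rfl⟩ := idx0 i p q r ((h.lt_iff x).1 l0) ((h.lt_iff x).1 e1)
          ((h.lt_iff x).1 e2)
        have := hc x
        rw [← e, ← e, ← e] at this
        rw [← mul_inv_rev]
        exact congrArg _ this.symm)
      exact ⟨s, fun σ hσ hv p hp q hq a b => (z1 p q b).symm.trans
        (hs σ hσ hv p ⟨hp, a⟩ q ⟨hq, h.tr σ hσ v hv p hp q hq a b⟩)⟩
    choose s hs' using this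
    refine ⟨fun ε => s (ε.1 0) (ε.1 1), fun f => ?_⟩
    obtain ⟨x, k, rfl⟩ := h.fsurj f
    have := hs' ((h.d3 x k).1 0) _ x.2.1 ⟨_, rfl⟩ ((h.d3 x k).1 1) ⟨_, rfl⟩ ((h.d3 x k).1 2)
      ⟨_, rfl⟩ (h.face_lt x k 0 1 (by decide)) (h.face_lt x k 1 2 (by decide))
    rw [inv_eq_iff_eq_inv, mul_inv_rev, inv_inv] at this
    exact (e _).symm.trans this
  · obtain ⟨c', e⟩ := ce c
    have : ∀ v, ∃ s : V → Γ, ∀ σ ∈ T, v ∈ σ → ∀ p ∈ σ, ∀ q ∈ σ, lt p q → lt q v →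
        c' p q v = s p * (s q)⁻¹ := fun v => by
      obtain ⟨Z, z1, z2⟩ := h.ord_coc fun u w => c' u w v
      obtain ⟨s, hs⟩ := h.ll v Γ Z fun σ hσ hv => z2 σ hσ _ inter_subset_left (by
        obtain ⟨x, rfl⟩ := h.enum hσ
        obtain ⟨i, rfl⟩ := hv
        rintro _ ⟨⟨p, rfl⟩, -⟩ _ ⟨⟨q, rfl⟩, -⟩ _ ⟨⟨r, rfl⟩, l0⟩ e1 e2
        obtain ⟨rfl, rfl, rfl, rfl⟩ := idx0 p q r i ((h.lt_iff x).1 e1) ((h.lt_iff x).1 e2)
          ((h.lt_iff x).1 l0)
        have := hc x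
        rw [← e, ← e, ← e] at this
        exact this.symm)
      exact ⟨s, fun σ hσ hv p hp q hq a b => (z1 p q a).symm.trans
        (hs σ hσ hv p ⟨hp, h.tr σ hσ p hp q hq v hv a b⟩ q ⟨hq, b⟩)⟩
    choose s hs' using this
    refine ⟨fun ε => s (ε.1 1) (ε.1 0), fun f => ?_⟩
    obtain ⟨x, k, rfl⟩ := h.fsurj f
    exact (e _).symm.trans (hs' ((h.d3 x k).1 2) _ x.2.1 ⟨_, rfl⟩ ((h.d3 x k).1 0) ⟨_, rfl⟩
      ((h.d3 x k).1 1) ⟨_, rfl⟩ (h.face_lt x k 0 1 (by decide)) (h.face_lt x k 1 2 (by decide)))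

theorem mid' (v : V) : ∃ f, h.tri.d1 (h.tri.d2 f 2) 0 = v := by
  obtain ⟨σ, hσ, m⟩ := h.mid v
  obtain ⟨x, rfl⟩ := h.enum hσ
  obtain ⟨⟨b, rfl⟩, _, ⟨a, rfl⟩, _, ⟨c, rfl⟩, p, q⟩ := m
  obtain ⟨k, rfl, rfl, rfl⟩ := (by decide : ∀ a b c : Fin 4, a < b → b < c →
    ∃ k : Fin 4, k.succAbove 0 = a ∧ k.succAbove 1 = b ∧ k.succAbove 2 = c) a b c
    ((h.lt_iff x).1 p) ((h.lt_iff x).1 q)
  exact ⟨h.d3 x k, rfl⟩

/-- the levels of `φ` are the levels of the heights -/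
def Sp (ht : V → V → V → ℝ → ℝ) (φ : h.T2 → ℝ ≃o ℝ) : Prop :=
  ∀ (x : h.T3) (k : Fin 4), ∀ t ∈ Icc (0 : ℝ) 1,
    ht (x.1 0) (x.1 0) (x.1 3) (h.tri.pos φ x k t) =
      ht (x.1 0) ((h.d3 x k).1 0) ((h.d3 x k).1 2) t

end SC

end Pool.Agent.Work.MP_3d425c_gt.Sm
end

-- merged part: Pool.Agent.Work.MP_3d425c_gt.Tp.Defs
section
/-! Ordered simplicial triangulations of a covering space and foliations in normal form. -/

namespace Pool.Agent.Work.MP_3d425c_gt.Tp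
open Set Relation

variable {V : Type}

/-- The closed simplex spanned by the vertices in `σ`, in barycentric coordinates. -/
def spx (σ : Set V) : Set (V → ℝ) :=
  {β | (∀ v, 0 ≤ β v) ∧ Function.support β ⊆ σ ∧ ∑ᶠ v, β v = 1}

/-- `u → v` is an oriented edge of a tetrahedron `x 0, x 1, x 2, x 3` of `K`. -/
def Ed (K : Set (Fin 4 → V)) (u v : V) : Prop := ∃ x ∈ K, ∃ i j, i < j ∧ x i = u ∧ x j = v

/-- Two tetrahedra of `K` have a common triangle with the property `P`. -/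
def Adj (K : Set (Fin 4 → V)) (P : (Fin 3 → V) → Prop) (x y : Fin 4 → V) : Prop :=
  y ∈ K ∧ ∃ k l, Fin.removeNth k x = Fin.removeNth l y ∧ P (Fin.removeNth k x)

/-- `K` is the set of tetrahedra, with ordered vertices, of an invariant cocompact triangulation
without boundary; at each vertex the upper link and the lower link are simply connected and
the equator between them is connected. -/
structure Cpx (G : Type) [Group G] [MulAction G V] (K : Set (Fin 4 → V)) : Prop where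
  inv : ∀ g : G, ∀ x ∈ K, g • x ∈ K
  fin : ∃ F : Set (Fin 4 → V), F.Finite ∧ ∀ x ∈ K, ∃ g : G, g • x ∈ F
  all : ∀ v, ∃ x ∈ K, v ∈ range x
  ord : ∀ x ∈ K, ∀ y ∈ K, ∀ i j k l, i < j → x i = y k → x j = y l → k < l
  two : ∀ x ∈ K, ∀ k, ∃! p : (Fin 4 → V) × Fin 4,
    p.1 ∈ K ∧ p ≠ (x, k) ∧ Fin.removeNth p.2 p.1 = Fin.removeNth k x
  conn : ∀ x ∈ K, ∀ y ∈ K, ReflTransGen (Adj K fun _ => True) x y
  link : ∀ x ∈ K, ∀ y ∈ K, ∀ u v, u ≠ v → u ∈ range x → v ∈ range x → u ∈ range y → v ∈ range y →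
    ReflTransGen (Adj K fun f => u ∈ range f ∧ v ∈ range f) x y
  equ : ∀ x ∈ K, ∀ y ∈ K, ∀ v, (v = x 1 ∨ v = x 2) → (v = y 1 ∨ v = y 2) →
    ReflTransGen (Adj K fun f => f 1 = v) x y
  upper : ∀ v, IsSimplyConnected (⋃ x ∈ K, ⋃ i ∈ {i | x i = v}, spx (x '' Ioi i))
  lower : ∀ v, IsSimplyConnected (⋃ x ∈ K, ⋃ i ∈ {i | x i = v}, spx (x '' Iio i))

/-- Every edge lies on an oriented cycle of the quotient. -/
def Cyc (G : Type) [Group G] [MulAction G V] (K : Set (Fin 4 → V)) : Prop :=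
  ∀ u v, Ed K u v → ∃ g : G, ReflTransGen (Ed K) v (g • u)

/-- `b` gives the barycentric coordinates of an invariant triangulation of `Y`. -/
structure Bary (G : Type) {Y : Type*} [Group G] [MulAction G V] [MulAction G Y]
    [TopologicalSpace Y] (K : Set (Fin 4 → V)) (b : Y → V → ℝ) : Prop where
  emb : Topology.IsEmbedding b
  onto : range b = ⋃ x ∈ K, spx (range x)
  equi : ∀ (g : G) y v, b (g • y) (g • v) = b y v

/-- An invariant co-oriented foliation in normal form: its plaques in the tetrahedron `x` are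
the level sets of `ht x`, which increases along the edges. -/
structure Normal (G : Type) {Y : Type*} [Group G] [MulAction G V] [MulAction G Y]
    [TopologicalSpace Y] (K : Set (Fin 4 → V)) (b : Y → V → ℝ)
    (ht : (Fin 4 → V) → Y → ℝ) : Prop where
  cont : ∀ x ∈ K, ContinuousOn (ht x) (b ⁻¹' spx (range x))
  mono : ∀ x ∈ K, ∀ i j, i < j → ∀ y z, b y ∈ spx {x i, x j} → b z ∈ spx {x i, x j} →
    b y (x j) < b z (x j) → ht x y < ht x z
  same : ∀ x ∈ K, ∀ x' ∈ K, ∀ y z, b y ∈ spx (range x ∩ range x') →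
    b z ∈ spx (range x ∩ range x') → ht x y ≤ ht x z → ht x' y ≤ ht x' z
  inv : ∀ g : G, ∀ x ∈ K, ∀ y z, b y ∈ spx (range x) → b z ∈ spx (range x) →
    ht x y ≤ ht x z → ht (g • x) (g • y) ≤ ht (g • x) (g • z)

end Pool.Agent.Work.MP_3d425c_gt.Tp
end

-- merged part: Pool.Agent.Work.MP_3d425c_gt.Tp.Cech
section
/-! Cocycles on simply connected unions of simplices are coboundaries. -/

namespace Pool.Agent.Work.MP_3d425c_gt.Tp
open Set Function Topology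

variable {V : Type}

theorem spx_fin {σ : Set V} {β : V → ℝ} (h : β ∈ spx σ) : (support β).Finite :=
  hasFiniteSupport_of_finsum_ne_zero (by rw [h.2.2]; exact one_ne_zero)

theorem spx_mono {σ τ : Set V} (h : σ ⊆ τ) : spx σ ⊆ spx τ :=
  fun _ a => ⟨a.1, a.2.1.trans h, a.2.2⟩

theorem spx_convex (σ : Set V) : Convex ℝ (spx σ) := by
  intro β hβ γ hγ a b ha hb hab
  refine ⟨fun v => add_nonneg (mul_nonneg ha (hβ.1 v)) (mul_nonneg hb (hγ.1 v)), fun v hv => ?_, ?_⟩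
  · by_contra h
    have e1 : β v = 0 := by_contra fun e => h (hβ.2.1 e)
    have e2 : γ v = 0 := by_contra fun e => h (hγ.2.1 e)
    exact hv (by simp [e1, e2])
  · have f1 : HasFiniteSupport fun v => a * β v :=
      (spx_fin hβ).subset fun v hv => right_ne_zero_of_mul hv
    have f2 : HasFiniteSupport fun v => b * γ v :=
      (spx_fin hγ).subset fun v hv => right_ne_zero_of_mul hv
    refine (finsum_add_distrib f1 f2).trans ?_
    rw [← mul_finsum' _ _ (spx_fin hβ), ← mul_finsum' _ _ (spx_fin hγ), hβ.2.2, hγ.2.2]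
    linarith

open Classical in
/-- the vertex `u` -/
noncomputable def dl (u : V) : V → ℝ := fun w => if w = u then 1 else 0

theorem dl_self (u : V) : dl u u = 1 := if_pos rfl

theorem dl_ne {u w : V} (h : w ≠ u) : dl u w = 0 := if_neg h

theorem dl_mem {σ : Set V} {u : V} (h : u ∈ σ) : dl u ∈ spx σ := by
  refine ⟨fun v => ?_, fun v hv => ?_, ?_⟩
  · unfold dl; split_ifs <;> norm_num
  · by_cases e : v = u
    · exact e ▸ h
    · exact absurd (dl_ne e) hv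
  · rw [finsum_eq_single _ u fun _ => dl_ne, dl_self]

/-- a union of simplices -/
def Un (R : Set (V → ℝ)) : Prop := ∀ β ∈ R, β ∈ spx (support β) ∧ spx (support β) ⊆ R

theorem un_of {R : Set (V → ℝ)} (h : ∀ β ∈ R, ∃ σ, β ∈ spx σ ∧ spx σ ⊆ R) : Un R := fun β hβ =>
  let ⟨_, a, b⟩ := h β hβ
  ⟨⟨a.1, subset_rfl, a.2.2⟩, (spx_mono a.2.1).trans b⟩

theorem Un.joined {R : Set (V → ℝ)} (h : Un R) {N : Set (V → ℝ)} (hN : Convex ℝ N) (x y : R)
    (hx : x.1 ∈ N) (hy : y.1 ∈ N) (hs : support x.1 ⊆ support y.1) :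
    JoinedIn (Subtype.val ⁻¹' N) x y := by
  rw [← IsInducing.subtypeVal.joinedIn_image hx hy, Subtype.image_preimage_coe]
  exact JoinedIn.of_segment_subset (subset_inter (((spx_convex _).segment_subset
    (spx_mono hs (h _ x.2).1) (h _ y.2).1).trans (h _ y.2).2) (hN.segment_subset hx hy))

theorem Un.lpc {R : Set (V → ℝ)} (h : Un R) : LocallyPathConnectedSpace R := by
  refine locallyPathConnectedSpace_iff_pathComponentIn_mem_nhds.2 fun x u hu hx => ?_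
  obtain ⟨u', hu', rfl⟩ := isOpen_induced_iff.1 hu
  obtain ⟨C, hC, c1, c2⟩ := (locallyConvexSpace_iff_exists_convex_subset ℝ (V → ℝ)).1
    inferInstance x.1 u' (hu'.mem_nhds hx)
  have o : IsOpen (⋂ v ∈ support x.1, {γ : V → ℝ | γ v ≠ 0}) :=
    (spx_fin (h _ x.2).1).isOpen_biInter fun v _ => isOpen_ne_fun (continuous_apply v)
      continuous_const
  filter_upwards [continuous_subtype_val.continuousAt.preimage_mem_nhds hC,
    continuous_subtype_val.continuousAt.preimage_mem_nhds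
      (o.mem_nhds (mem_iInter₂.2 fun v hv => hv))] with y a b
  exact (h.joined c1 x y (mem_of_mem_nhds hC) a fun v hv => mem_iInter₂.1 b v hv).mono
    (preimage_mono c2)

theorem Un.cob {R : Set (V → ℝ)} (h : Un R) (hs : IsSimplyConnected R) {Γ : Type} [Group Γ]
    (g : V → V → Γ) (hg : ∀ β ∈ R, ∀ u ∈ support β, ∀ v ∈ support β, ∀ w ∈ support β,
      g u v * g v w = g u w) :
    ∃ s : V → Γ, ∀ β ∈ R, ∀ u ∈ support β, ∀ v ∈ support β, g u v = s u * (s v)⁻¹ := by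
  classical
  have := h.lpc
  have := hs.simplyConnectedSpace
  let _ : TopologicalSpace Γ := ⊥
  have : DiscreteTopology Γ := ⟨rfl⟩
  have hc : ∀ y : R, ∃ v, y.1 v ≠ 0 := fun y => by
    by_contra e
    push Not at e
    have := (h _ y.2).1.2.2
    simp [e] at this
  choose ix hix using hc
  let Z : FiberBundleCore V R Γ :=
    { baseSet := fun v => {y | y.1 v ≠ 0}
      isOpen_baseSet := fun v =>
        isOpen_ne_fun ((continuous_apply v).comp continuous_subtype_val) continuous_const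
      indexAt := ix
      mem_baseSet_at := hix
      coordChange := fun i j _ γ => g j i * γ
      coordChange_self := fun i y hy γ => by
        rw [mul_eq_left.1 (hg _ y.2 i hy i hy i hy), one_mul]
      continuousOn_coordChange := fun i j =>
        ((continuous_of_discreteTopology (f := fun γ => g j i * γ)).comp
          continuous_snd).continuousOn
      coordChange_comp := fun i j k y hy γ => by
        rw [← mul_assoc, hg _ y.2 k hy.2 j hy.1.2 i hy.1.1] }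
  have hcov : IsCoveringMap Z.proj :=
    IsFiberBundle.isCoveringMap fun y => ⟨Z.localTriv (ix y), hix y⟩
  obtain ⟨y0⟩ : Nonempty R := inferInstance
  obtain ⟨F, ⟨-, hF⟩, -⟩ := hcov.existsUnique_continuousMap_lifts (ContinuousMap.id R) y0
    ⟨y0, (1 : Γ)⟩ rfl
  have hp : ∀ y, (F y).1 = y := fun y => congrFun hF y
  let f : V → R → Γ := fun i y => (Z.localTriv i (F y)).2
  have fc : ∀ i, ContinuousOn (f i) {y | y.1 i ≠ 0} := fun i =>
    continuous_snd.comp_continuousOn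
      ((Z.localTriv i).continuousOn.comp F.continuous.continuousOn fun y hy => by
        show (F y).1 ∈ {y : R | y.1 i ≠ 0}
        rwa [hp])
  have fe : ∀ i y, f i y = g i (ix y) * (show Γ from (F y).2) := fun i y => by
    show g i (ix (F y).1) * (show Γ from (F y).2) = _
    rw [hp]
  have dm : ∀ y : R, ∀ u ∈ support y.1, dl u ∈ R := fun y u hu => (h _ y.2).2 (dl_mem hu)
  have key : ∀ y : R, ∀ u (hu : u ∈ support y.1), f u ⟨dl u, dm y u hu⟩ = f u y := by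
    intro y u hu
    have cv : Convex ℝ {γ : V → ℝ | 0 < γ u} := convex_halfSpace_gt (f := fun γ : V → ℝ => γ u)
      ⟨fun _ _ => rfl, fun _ _ => rfl⟩ 0
    obtain ⟨γ, hγ⟩ := h.joined cv ⟨dl u, dm y u hu⟩ y (by simp [dl_self])
      (lt_of_le_of_ne ((h _ y.2).1.1 u) (Ne.symm hu)) fun v hv => by
        by_cases e : v = u
        · exact e ▸ hu
        · exact absurd (dl_ne e) hv
    refine (isPreconnected_range γ.continuous).constant ((fc u).mono ?_) ⟨0, γ.source⟩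
      ⟨1, γ.target⟩
    rintro _ ⟨t, rfl⟩
    exact ne_of_gt (hγ t)
  refine ⟨fun u => if hu : dl u ∈ R then f u ⟨dl u, hu⟩ else 1, fun β hβ u hu v hv => ?_⟩
  simp only [dif_pos (dm ⟨β, hβ⟩ u hu), dif_pos (dm ⟨β, hβ⟩ v hv)]
  rw [key ⟨β, hβ⟩ u hu, key ⟨β, hβ⟩ v hv, fe, fe, ← hg β hβ u hu v hv _ (hix ⟨β, hβ⟩)]
  group

/-- The ordered form. -/
theorem cob_ord {R : Set (V → ℝ)} (S : Set (Set V)) (h1 : ∀ β ∈ R, ∃ σ ∈ S, β ∈ spx σ)
    (h2 : ∀ σ ∈ S, spx σ ⊆ R) (hs : IsSimplyConnected R) {Γ : Type} [Group Γ]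
    (lt : V → V → Prop) (asym : ∀ u v, lt u v → ¬ lt v u)
    (tot : ∀ σ ∈ S, ∀ u ∈ σ, ∀ v ∈ σ, u = v ∨ lt u v ∨ lt v u) (z : V → V → Γ)
    (tr : ∀ σ ∈ S, ∀ u ∈ σ, ∀ v ∈ σ, ∀ w ∈ σ, lt u v → lt v w → lt u w ∧ z u v * z v w = z u w) :
    ∃ s : V → Γ, ∀ σ ∈ S, ∀ u ∈ σ, ∀ v ∈ σ, lt u v → z u v = s u * (s v)⁻¹ := by
  classical
  let g : V → V → Γ := fun u v => if lt u v then z u v else if lt v u then (z v u)⁻¹ else 1
  have g1 : ∀ u v, lt u v → g u v = z u v := fun u v h => if_pos h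
  have g2 : ∀ u v, lt u v → g v u = (z u v)⁻¹ := fun u v h =>
    (if_neg (asym u v h)).trans (if_pos h)
  have g0 : ∀ u, g u u = 1 := fun u =>
    (if_neg fun h => asym u u h h).trans (if_neg fun h => asym u u h h)
  obtain ⟨s, hs'⟩ := (un_of fun β hβ => let ⟨σ, a, b⟩ := h1 β hβ; ⟨σ, b, h2 σ a⟩).cob hs g (by
    intro β hβ u hu v hv w hw
    obtain ⟨σ, a, b⟩ := h1 β hβ
    have hu := b.2.1 hu
    have hv := b.2.1 hv
    have hw := b.2.1 hw
    rcases tot σ a u hu v hv with rfl | c | c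
    · rw [g0, one_mul]
    · rcases tot σ a v hv w hw with rfl | d | d
      · rw [g0, mul_one]
      · obtain ⟨e1, e2⟩ := tr σ a u hu v hv w hw c d
        rw [g1 _ _ c, g1 _ _ d, g1 _ _ e1, e2]
      · rcases tot σ a u hu w hw with rfl | e | e
        · rw [g1 _ _ c, g2 _ _ c, g0, mul_inv_cancel]
        · rw [g1 _ _ c, g2 _ _ d, g1 _ _ e, ← (tr σ a u hu w hw v hv e d).2]
          group
        · rw [g1 _ _ c, g2 _ _ d, g2 _ _ e, ← (tr σ a w hw u hu v hv e c).2]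
          group
    · rcases tot σ a v hv w hw with rfl | d | d
      · rw [g0, mul_one]
      · rcases tot σ a u hu w hw with rfl | e | e
        · rw [g2 _ _ c, g1 _ _ c, g0, inv_mul_cancel]
        · rw [g2 _ _ c, g1 _ _ d, g1 _ _ e, ← (tr σ a v hv u hu w hw c e).2]
          group
        · rw [g2 _ _ c, g1 _ _ d, g2 _ _ e, ← (tr σ a v hv w hw u hu d e).2]
          group
      · obtain ⟨e1, e2⟩ := tr σ a w hw v hv u hu d c
        rw [g2 _ _ c, g2 _ _ d, g2 _ _ e1, ← e2]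
        group)
  refine ⟨s, fun σ a u hu v hv c => ?_⟩
  have ne : u ≠ v := fun e => asym u v c (e ▸ c)
  rw [← g1 _ _ c]
  refine hs' ((1 / 2 : ℝ) • dl u + (1 / 2 : ℝ) • dl v) (h2 σ a (spx_convex σ (dl_mem hu)
    (dl_mem hv) (by norm_num) (by norm_num) (by norm_num))) u ?_ v ?_
  · simp [dl_self, dl_ne ne]
  · simp [dl_self, dl_ne ne.symm]

end Pool.Agent.Work.MP_3d425c_gt.Tp
end

-- merged part: Pool.Agent.Work.MP_3d425c_gt.Tp.Cx
section
/-! The ordered complex of a simplicial triangulation. -/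

namespace Pool.Agent.Work.MP_3d425c_gt.Tp
open Set Relation Pool.Agent.Work.MP_3d425c_gt.Md

variable {G V : Type} [Group G] [MulAction G V] {K : Set (Fin 4 → V)}

namespace Cpx
variable (h : Cpx G K)

/-- tetrahedra -/
def T3 (_ : Cpx G K) : Type := {x : Fin 4 → V // x ∈ K}

/-- triangles -/
def T2 (_ : Cpx G K) : Type := {f : Fin 3 → V // ∃ x ∈ K, ∃ k, f = Fin.removeNth k x}

/-- edges -/
def T1 (_ : Cpx G K) : Type := {e : Fin 2 → V // Ed K (e 0) (e 1)}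

include h in
theorem ed_smul (g : G) {u v : V} (e : Ed K u v) : Ed K (g • u) (g • v) := by
  obtain ⟨x, hx, i, j, a, rfl, rfl⟩ := e
  exact ⟨g • x, h.inv g x hx, i, j, a, rfl, rfl⟩

instance : MulAction G h.T3 where
  smul g x := ⟨g • x.1, h.inv g _ x.2⟩
  one_smul x := Subtype.ext (one_smul G x.1)
  mul_smul g k x := Subtype.ext (mul_smul g k x.1)

instance : MulAction G h.T2 where
  smul g f := ⟨g • f.1, let ⟨x, hx, k, e⟩ := f.2; ⟨g • x, h.inv g x hx, k, by rw [e]; rfl⟩⟩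
  one_smul x := Subtype.ext (one_smul G x.1)
  mul_smul g k x := Subtype.ext (mul_smul g k x.1)

instance : MulAction G h.T1 where
  smul g e := ⟨g • e.1, h.ed_smul g e.2⟩
  one_smul x := Subtype.ext (one_smul G x.1)
  mul_smul g k x := Subtype.ext (mul_smul g k x.1)

/-- faces of tetrahedra -/
def d3 (x : h.T3) (k : Fin 4) : h.T2 := ⟨Fin.removeNth k x.1, x.1, x.2, k, rfl⟩

theorem fed (f : h.T2) {a b : Fin 3} (hab : a < b) : Ed K (f.1 a) (f.1 b) := by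
  obtain ⟨x, hx, k, e⟩ := f.2
  exact ⟨x, hx, _, _, Fin.strictMono_succAbove k hab, by rw [e]; rfl, by rw [e]; rfl⟩

/-- faces of triangles -/
def d2 (f : h.T2) (i : Fin 3) : h.T1 :=
  ⟨Fin.removeNth i f.1, h.fed f (Fin.strictMono_succAbove i (by decide : (0 : Fin 2) < 1))⟩

/-- ends of edges -/
def d1 (e : h.T1) (i : Fin 2) : V := e.1 (i.succAbove 0)

theorem fsurj (f : h.T2) : ∃ x k, f = h.d3 x k :=
  let ⟨x, hx, k, e⟩ := f.2; ⟨⟨x, hx⟩, k, Subtype.ext e⟩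

include h in
theorem inj {x} (hx : x ∈ K) : Function.Injective x := fun i j e => by
  rcases lt_trichotomy i j with a | a | a
  · exact absurd (h.ord x hx x hx i j j j a e rfl) (lt_irrefl _)
  · exact a
  · exact absurd (h.ord x hx x hx j i i i a e.symm rfl) (lt_irrefl _)

include h in
theorem lt_of_ed {x} (hx : x ∈ K) {a b : Fin 4} (e : Ed K (x a) (x b)) : a < b :=
  let ⟨y, hy, i, j, c, e1, e2⟩ := e; h.ord y hy x hx i j a b c e1 e2

include h in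
theorem asym (u v : V) (a : Ed K u v) (b : Ed K v u) : False := by
  obtain ⟨x, hx, i, j, c, rfl, rfl⟩ := a
  exact lt_asymm c (h.lt_of_ed hx b)

theorem tot {x} (hx : x ∈ K) (i j : Fin 4) : x i = x j ∨ Ed K (x i) (x j) ∨ Ed K (x j) (x i) := by
  rcases lt_trichotomy i j with a | a | a
  · exact Or.inr (Or.inl ⟨x, hx, i, j, a, rfl, rfl⟩)
  · exact Or.inl (congrArg x a)
  · exact Or.inr (Or.inr ⟨x, hx, j, i, a, rfl, rfl⟩)

theorem adj_ind {P : (Fin 3 → V) → Prop} {Q : h.T3 → Prop} (x : h.T3) (hx : Q x)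
    (step : ∀ y z : h.T3, ∀ k l, h.d3 y k = h.d3 z l → P (h.d3 y k).1 → Q y → Q z) (y : h.T3)
    (hr : ReflTransGen (Adj K P) x.1 y.1) : Q y := by
  have : ∀ y, ReflTransGen (Adj K P) x.1 y → ∃ hy : y ∈ K, Q ⟨y, hy⟩ := by
    intro y hr
    induction hr with
    | refl => exact ⟨x.2, hx⟩
    | tail _ a ih =>
      obtain ⟨hy, ih⟩ := ih
      obtain ⟨hz, k, l, e, p⟩ := a
      exact ⟨hz, step ⟨_, hy⟩ ⟨_, hz⟩ k l (Subtype.ext e) p ih⟩
  exact (this _ hr).2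

theorem link' (p q : h.T2 × Fin 3) (e : h.d2 p.1 p.2 = h.d2 q.1 q.2) :
    EqvGen (fun p q => ∃ x, ∃ i j : Fin 3,
      i ≤ j ∧ p = (h.d3 x j.succ, i) ∧ q = (h.d3 x i.castSucc, j)) p q := by
  set R := EqvGen (fun p q => ∃ x, ∃ i j : Fin 3,
      i ≤ j ∧ p = (h.d3 x j.succ, i) ∧ q = (h.d3 x i.castSucc, j)) with hR
  have one : ∀ y k i l j, h.d2 (h.d3 y k) i = h.d2 (h.d3 y l) j →
      R (h.d3 y k, i) (h.d3 y l, j) := by
    intro y k i l j e
    have e' : ∀ m, k.succAbove (i.succAbove m) = l.succAbove (j.succAbove m) := fun m =>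
      h.inj y.2 (congrFun (congrArg Subtype.val e) m)
    have : ∀ (k : Fin 4) (i : Fin 3) (l : Fin 4) (j : Fin 3),
        (∀ m, k.succAbove (i.succAbove m) = l.succAbove (j.succAbove m)) → (k = l ∧ i = j) ∨
        (i ≤ j ∧ k = j.succ ∧ l = i.castSucc) ∨ (j ≤ i ∧ l = i.succ ∧ k = j.castSucc) := by decide
    rcases this k i l j e' with ⟨rfl, rfl⟩ | ⟨a, rfl, rfl⟩ | ⟨a, rfl, rfl⟩
    · exact .refl _
    · exact .rel _ _ ⟨y, i, j, a, rfl, rfl⟩
    · exact .symm _ _ (.rel _ _ ⟨y, j, i, a, rfl, rfl⟩)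
  obtain ⟨f, i⟩ := p
  obtain ⟨f', j⟩ := q
  obtain ⟨x, k, rfl⟩ := h.fsurj f
  obtain ⟨y, l, rfl⟩ := h.fsurj f'
  set ε := h.d2 (h.d3 x k) i with hε
  refine h.adj_ind (Q := fun y => ∀ l j, ε = h.d2 (h.d3 y l) j → R (h.d3 x k, i) (h.d3 y l, j))
    x (one x k i) ?_ y (h.link x.1 x.2 y.1 y.2 (ε.1 0) (ε.1 1)
      (fun a => h.asym _ _ ε.2 (a ▸ a ▸ ε.2)) ⟨_, rfl⟩ ⟨_, rfl⟩ ⟨_, by rw [e]; rfl⟩
      ⟨_, by rw [e]; rfl⟩) l j e
  rintro y z k' l' e' ⟨⟨a, ha⟩, b, hb⟩ ih l'' j'' e''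
  have lt : a < b := (Fin.strictMono_succAbove k').lt_iff_lt.1
    (h.lt_of_ed y.2 (show Ed K ((h.d3 y k').1 a) ((h.d3 y k').1 b) from ha ▸ hb ▸ ε.2))
  obtain ⟨m, m0, m1⟩ := (by decide : ∀ a b : Fin 3, a < b →
    ∃ m : Fin 3, m.succAbove 0 = a ∧ m.succAbove 1 = b) a b lt
  have e1 : ε = h.d2 (h.d3 y k') m := Subtype.ext (funext fun t => by
    fin_cases t
    · exact ha.symm.trans (congrArg _ m0.symm)
    · exact hb.symm.trans (congrArg _ m1.symm))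
  refine .trans _ _ _ (ih k' m e1) ?_
  rw [e'] at e1 ⊢
  exact one z l' m l'' j'' (e1.symm.trans e'')

theorem equ' (f f' : h.T2) (e : h.d1 (h.d2 f 2) 0 = h.d1 (h.d2 f' 2) 0) :
    EqvGen (fun f f' => ∃ x, (f = h.d3 x 2 ∧ f' = h.d3 x 3) ∨ (f = h.d3 x 0 ∧ f' = h.d3 x 1))
      f f' := by
  set R := EqvGen (fun f f' => ∃ x, (f = h.d3 x 2 ∧ f' = h.d3 x 3) ∨
    (f = h.d3 x 0 ∧ f' = h.d3 x 1)) with hR
  have one : ∀ y k l, (h.d3 y k).1 1 = (h.d3 y l).1 1 → R (h.d3 y k) (h.d3 y l) := by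
    intro y k l e
    have : ∀ k l : Fin 4, k.succAbove 1 = l.succAbove 1 → k = l ∨ (k = 2 ∧ l = 3) ∨
      (k = 0 ∧ l = 1) ∨ (k = 3 ∧ l = 2) ∨ (k = 1 ∧ l = 0) := by decide
    rcases this k l (h.inj y.2 e) with rfl | ⟨rfl, rfl⟩ | ⟨rfl, rfl⟩ | ⟨rfl, rfl⟩ | ⟨rfl, rfl⟩
    · exact .refl _
    · exact .rel _ _ ⟨y, Or.inl ⟨rfl, rfl⟩⟩
    · exact .rel _ _ ⟨y, Or.inr ⟨rfl, rfl⟩⟩
    · exact .symm _ _ (.rel _ _ ⟨y, Or.inl ⟨rfl, rfl⟩⟩)
    · exact .symm _ _ (.rel _ _ ⟨y, Or.inr ⟨rfl, rfl⟩⟩)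
  have mid : ∀ y k, (h.d3 y k).1 1 = y.1 1 ∨ (h.d3 y k).1 1 = y.1 2 := fun y k => by
    fin_cases k
    exacts [Or.inr rfl, Or.inr rfl, Or.inl rfl, Or.inl rfl]
  obtain ⟨x, k, rfl⟩ := h.fsurj f
  obtain ⟨y, l, rfl⟩ := h.fsurj f'
  have e : (h.d3 x k).1 1 = (h.d3 y l).1 1 := e
  refine h.adj_ind (Q := fun y => ∀ l, (h.d3 x k).1 1 = (h.d3 y l).1 1 → R (h.d3 x k) (h.d3 y l))
    x (one x k) ?_ y (h.equ x.1 x.2 y.1 y.2 _ (mid x k) (e ▸ mid y l)) l e
  intro y z k' l' e' p ih l'' e''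
  refine .trans _ _ _ (ih k' p.symm) ?_
  rw [e'] at p ⊢
  exact one z l' l'' (p.trans e'')

theorem sc' (hs : IsSimplyConnected (⋃ x ∈ K, spx (range x))) (Γ : Type) [Group Γ]
    (z : h.T1 → Γ) (hz : ∀ f, z (h.d2 f 1) = z (h.d2 f 2) * z (h.d2 f 0)) :
    ∃ s : V → Γ, ∀ e, z e = s (h.d1 e 1) * (s (h.d1 e 0))⁻¹ := by
  classical
  let z' : V → V → Γ := fun u v => if a : Ed K u v then z ⟨![u, v], a⟩ else 1
  have ze : ∀ e : h.T1, z' (e.1 0) (e.1 1) = z e := fun e =>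
    (dif_pos e.2).trans (congrArg z (Subtype.ext (funext fun t => by fin_cases t <;> rfl)))
  obtain ⟨s, hs'⟩ := cob_ord (range '' K)
    (fun β hβ => let ⟨x, hx, a⟩ := mem_iUnion₂.1 hβ; ⟨_, ⟨x, hx, rfl⟩, a⟩)
    (by rintro _ ⟨x, hx, rfl⟩; exact subset_biUnion_of_mem (u := fun x => spx (range x)) hx)
    hs (Ed K) h.asym (by rintro _ ⟨x, hx, rfl⟩ _ ⟨i, rfl⟩ _ ⟨j, rfl⟩; exact tot hx i j) z' (by
      rintro _ ⟨x, hx, rfl⟩ _ ⟨a, rfl⟩ _ ⟨b, rfl⟩ _ ⟨c, rfl⟩ e1 e2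
      have l1 := h.lt_of_ed hx e1
      have l2 := h.lt_of_ed hx e2
      refine ⟨⟨x, hx, a, c, l1.trans l2, rfl, rfl⟩, ?_⟩
      obtain ⟨k, rfl, rfl, rfl⟩ := (by decide : ∀ a b c : Fin 4, a < b → b < c →
        ∃ k : Fin 4, k.succAbove 0 = a ∧ k.succAbove 1 = b ∧ k.succAbove 2 = c) a b c l1 l2
      have := hz (h.d3 ⟨x, hx⟩ k)
      rw [← ze, ← ze, ← ze] at this
      exact this.symm)
  refine ⟨s, fun e => ?_⟩
  obtain ⟨x, hx, i, j, -, a, b⟩ := e.2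
  rw [← ze]
  exact hs' _ ⟨x, hx, rfl⟩ _ ⟨i, a⟩ _ ⟨j, b⟩ e.2

/-- the ordered complex -/
def tri (hs : IsSimplyConnected (⋃ x ∈ K, spx (range x)))
    (fr : ∀ (g : G) (v : V), g • v = v → g = 1) : Tri G V h.T1 h.T2 h.T3 where
  d1 := h.d1
  d2 := h.d2
  d3 := h.d3
  e1 _ _ _ := rfl
  e2 _ _ _ := rfl
  e3 _ _ _ := rfl
  s2 f i j a := congrArg f.1 ((by decide : ∀ i j : Fin 2, i ≤ j →
    j.succ.succAbove (i.succAbove 0) = i.castSucc.succAbove (j.succAbove 0)) i j a)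
  s3 x i j a := Subtype.ext (funext fun m => congrArg x.1 ((by decide : ∀ i j : Fin 3, i ≤ j →
    ∀ m : Fin 2, j.succ.succAbove (i.succAbove m) = i.castSucc.succAbove (j.succAbove m)) i j a m))
  free := fr
  fin := by
    obtain ⟨F, hF, a⟩ := h.fin
    have : Finite {y : h.T3 // y.1 ∈ F} := by
      have := hF.to_subtype
      exact Finite.of_injective (fun y => (⟨y.1.1, y.2⟩ : F)) fun y z e =>
        Subtype.ext (Subtype.ext (congrArg (fun a : F => a.1) e))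
    refine Finite.of_surjective (fun y : {y : h.T3 // y.1 ∈ F} => Quotient.mk _ y.1) fun c => ?_
    induction c using Quotient.inductionOn' with
    | h x =>
      obtain ⟨g, hg⟩ := a x.1 x.2
      exact ⟨⟨g • x, hg⟩, Quotient.sound ⟨g, rfl⟩⟩
  ne := by
    obtain ⟨β, hβ⟩ := hs.nonempty
    obtain ⟨x, hx, -⟩ := mem_iUnion₂.1 hβ
    exact ⟨⟨x, hx⟩⟩
  two f := by
    obtain ⟨x, k, rfl⟩ := h.fsurj f
    obtain ⟨p, ⟨p1, p2, p3⟩, u⟩ := h.two x.1 x.2 k
    refine ⟨(x, k), (⟨p.1, p1⟩, p.2), fun e => p2 (Prod.ext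
      (congrArg Subtype.val (Prod.ext_iff.1 e).1).symm (Prod.ext_iff.1 e).2.symm), fun r => ⟨?_, ?_⟩⟩
    · intro e
      by_cases e' : r = (x, k)
      · exact Or.inl e'
      · have := u (r.1.1, r.2) ⟨r.1.2, fun a => e' (Prod.ext
          (Subtype.ext (Prod.ext_iff.1 a).1) (Prod.ext_iff.1 a).2), congrArg Subtype.val e⟩
        exact Or.inr (Prod.ext (Subtype.ext (Prod.ext_iff.1 this).1) (Prod.ext_iff.1 this).2)
    · rintro (rfl | rfl)
      · rfl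
      · exact Subtype.ext p3
  conn x y := h.adj_ind (Q := fun y => EqvGen (fun x y => ∃ k l, h.d3 x k = h.d3 y l) x y) x
    (.refl _) (fun y z k l e _ ih => .trans _ _ _ ih (.rel _ _ ⟨k, l, e⟩)) y
    (h.conn x.1 x.2 y.1 y.2)
  link := h.link'
  equ := h.equ'
  h1 z hz := by
    obtain ⟨s, hs'⟩ := h.sc' hs (Multiplicative ℝ) (fun e => Multiplicative.ofAdd (z e))
      fun f => by rw [hz, ofAdd_add]
    refine ⟨fun v => - (s v).toAdd, fun e => ?_⟩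
    have := congrArg Multiplicative.toAdd (hs' e)
    simp only [toAdd_ofAdd, toAdd_mul, toAdd_inv] at this
    linarith

theorem tri_cyc (hs : IsSimplyConnected (⋃ x ∈ K, spx (range x)))
    (fr : ∀ (g : G) (v : V), g • v = v → g = 1) (hc : Cyc G K) : (h.tri hs fr).Cyc := fun e => by
  obtain ⟨g, hg⟩ := hc _ _ e.2
  exact ⟨g, ReflTransGen.mono (fun u v a => ⟨⟨![u, v], a⟩, rfl, rfl⟩) _ _ hg⟩

theorem idx0 : ∀ i p q r : Fin 4, i < p → p < q → q < r → i = 0 ∧ p = 1 ∧ q = 2 ∧ r = 3 := by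
  intro i p q r a b c
  simp only [Fin.ext_iff, Fin.lt_def] at *
  omega

theorem disc (hs : IsSimplyConnected (⋃ x ∈ K, spx (range x)))
    (fr : ∀ (g : G) (v : V), g • v = v → g = 1) : Nv.Disc (h.tri hs fr) := by
  classical
  have ce : ∀ {Γ : Type} [Group Γ] (c : h.T2 → Γ), ∃ c' : V → V → V → Γ,
      ∀ f : h.T2, c' (f.1 0) (f.1 1) (f.1 2) = c f := fun c =>
    ⟨fun u v w => if a : ∃ x ∈ K, ∃ k, ![u, v, w] = Fin.removeNth k x then c ⟨_, a⟩ else 1,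
      fun f => by
        have e : ![f.1 0, f.1 1, f.1 2] = f.1 := funext fun t => by fin_cases t <;> rfl
        simp only [e, dif_pos f.2]
        rfl⟩
  refine ⟨h.sc' hs, fun Γ _ c hc => ?_, fun Γ _ c hc => ?_⟩
  · obtain ⟨c', e⟩ := ce c
    have := fun v => cob_ord {σ | ∃ x ∈ K, ∃ i, x i = v ∧ σ = x '' Ioi i}
      (fun β hβ => by
        simp only [mem_iUnion] at hβ
        obtain ⟨x, hx, i, hi, a⟩ := hβ
        exact ⟨_, ⟨x, hx, i, hi, rfl⟩, a⟩)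
      (by
        rintro _ ⟨x, hx, i, hi, rfl⟩ β hβ
        simp only [mem_iUnion]
        exact ⟨x, hx, i, hi, hβ⟩)
      (h.upper v) (Ed K) h.asym
      (by rintro _ ⟨x, hx, -, -, rfl⟩ _ ⟨i, -, rfl⟩ _ ⟨j, -, rfl⟩; exact tot hx i j)
      (fun u w => (c' v u w)⁻¹) (by
        rintro _ ⟨x, hx, i, rfl, rfl⟩ _ ⟨p, l0, rfl⟩ _ ⟨q, -, rfl⟩ _ ⟨r, -, rfl⟩ e1 e2
        have l1 := h.lt_of_ed hx e1
        have l2 := h.lt_of_ed hx e2
        refine ⟨⟨x, hx, p, r, l1.trans l2, rfl, rfl⟩, ?_⟩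
        obtain ⟨rfl, rfl, rfl, rfl⟩ := idx0 i p q r l0 l1 l2
        have := hc ⟨x, hx⟩
        rw [← e, ← e, ← e] at this
        rw [← mul_inv_rev]
        exact congrArg _ this.symm)
    choose s hs' using this
    refine ⟨fun ε => s (ε.1 0) (ε.1 1), fun f => ?_⟩
    obtain ⟨x, k, rfl⟩ := h.fsurj f
    have := hs' _ _ ⟨x.1, x.2, k.succAbove 0, rfl, rfl⟩ _
      ⟨k.succAbove 1, Fin.strictMono_succAbove k (by decide), rfl⟩ _
      ⟨k.succAbove 2, Fin.strictMono_succAbove k (by decide), rfl⟩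
      (h.fed (h.d3 x k) (by decide : (1 : Fin 3) < 2))
    rw [inv_eq_iff_eq_inv, mul_inv_rev, inv_inv] at this
    exact (e _).symm.trans this
  · obtain ⟨c', e⟩ := ce c
    have := fun v => cob_ord {σ | ∃ x ∈ K, ∃ i, x i = v ∧ σ = x '' Iio i}
      (fun β hβ => by
        simp only [mem_iUnion] at hβ
        obtain ⟨x, hx, i, hi, a⟩ := hβ
        exact ⟨_, ⟨x, hx, i, hi, rfl⟩, a⟩)
      (by
        rintro _ ⟨x, hx, i, hi, rfl⟩ β hβ
        simp only [mem_iUnion]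
        exact ⟨x, hx, i, hi, hβ⟩)
      (h.lower v) (Ed K) h.asym
      (by rintro _ ⟨x, hx, -, -, rfl⟩ _ ⟨i, -, rfl⟩ _ ⟨j, -, rfl⟩; exact tot hx i j)
      (fun u w => c' u w v) (by
        rintro _ ⟨x, hx, i, rfl, rfl⟩ _ ⟨p, -, rfl⟩ _ ⟨q, -, rfl⟩ _ ⟨r, l0, rfl⟩ e1 e2
        have l1 := h.lt_of_ed hx e1
        have l2 := h.lt_of_ed hx e2
        refine ⟨⟨x, hx, p, r, l1.trans l2, rfl, rfl⟩, ?_⟩
        obtain ⟨rfl, rfl, rfl, rfl⟩ := idx0 p q r i l1 l2 l0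
        have := hc ⟨x, hx⟩
        rw [← e, ← e, ← e] at this
        exact this.symm)
    choose s hs' using this
    refine ⟨fun ε => s (ε.1 1) (ε.1 0), fun f => ?_⟩
    obtain ⟨x, k, rfl⟩ := h.fsurj f
    exact (e _).symm.trans (hs' _ _ ⟨x.1, x.2, k.succAbove 2, rfl, rfl⟩ _
      ⟨k.succAbove 0, Fin.strictMono_succAbove k (by decide), rfl⟩ _
      ⟨k.succAbove 1, Fin.strictMono_succAbove k (by decide), rfl⟩
      (h.fed (h.d3 x k) (by decide : (0 : Fin 3) < 1)))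

end Cpx

end Pool.Agent.Work.MP_3d425c_gt.Tp
end

-- merged part: Pool.Agent.Work.MP_3d425c_gt.Tp.Fol
section
/-! The holonomy data of a foliation in normal form. -/

namespace Pool.Agent.Work.MP_3d425c_gt.Tp
open Set Relation Pool.Agent.Work.MP_3d425c_gt.Md

theorem cat_mono {F1 F2 : ℝ → ℝ} {n : ℝ} (h1 : StrictMonoOn F1 (Icc 0 1))
    (h2 : StrictMonoOn F2 (Icc 0 n)) (e : F1 1 = F2 0) :
    StrictMonoOn (fun s => if s ≤ 1 then F1 s else F2 (s - 1)) (Icc 0 (n + 1)) := by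
  intro s hs t ht hst
  by_cases a : t ≤ 1
  · simp only [if_pos a, if_pos (hst.le.trans a)]
    exact h1 ⟨hs.1, hst.le.trans a⟩ ⟨ht.1, a⟩ hst
  have a' := not_le.1 a
  have tn : t - 1 ∈ Icc 0 n := ⟨by linarith, by linarith [ht.2]⟩
  by_cases c : s ≤ 1
  · simp only [if_neg a, if_pos c]
    exact (h1.monotoneOn ⟨hs.1, c⟩ ⟨zero_le_one, le_rfl⟩ c).trans_lt
      (e ▸ h2 ⟨le_rfl, tn.1.trans tn.2⟩ tn (by linarith))
  · simp only [if_neg a, if_neg c]
    exact h2 ⟨by linarith [not_le.1 c], by linarith [hs.2]⟩ tn (by linarith)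

theorem ext_iso {α : ℝ → ℝ} (h : StrictMonoOn α (Icc 0 1))
    (hs : SurjOn α (Icc 0 1) (Icc (α 0) (α 1))) : ∃ A : ℝ ≃o ℝ, (∀ t ∈ Icc (0 : ℝ) 1, A t = α t) ∧
      (∀ t ≤ 0, A t = α 0 + t) ∧ ∀ t, 1 ≤ t → A t = α 1 + (t - 1) := by
  let A : ℝ → ℝ := fun t => if t ≤ 0 then α 0 + t else if t ≤ 1 then α t else α 1 + (t - 1)
  have a0 : ∀ t ≤ 0, A t = α 0 + t := fun t ht => if_pos ht
  have a1 : ∀ t ∈ Icc (0 : ℝ) 1, A t = α t := fun t ht => by
    rcases ht.1.eq_or_lt with rfl | c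
    · rw [a0 0 le_rfl, add_zero]
    · exact (if_neg (not_le.2 c)).trans (if_pos ht.2)
  have a2 : ∀ t, 1 ≤ t → A t = α 1 + (t - 1) := fun t ht => by
    rcases ht.eq_or_lt with rfl | c
    · rw [a1 1 ⟨zero_le_one, le_rfl⟩, sub_self, add_zero]
    · exact (if_neg (not_le.2 (zero_lt_one.trans c))).trans (if_neg (not_le.2 c))
  have m : StrictMono A := by
    have m1 : StrictMonoOn A (Iic 0) := fun s hs t ht e => by
      rw [a0 s hs, a0 t ht]; linarith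
    have m2 : StrictMonoOn A (Icc 0 1) := fun s hs t ht e => by
      rw [a1 s hs, a1 t ht]; exact h hs ht e
    have m3 : StrictMonoOn A (Ici 1) := fun s hs t ht e => by
      rw [a2 s hs, a2 t ht]; linarith
    refine StrictMonoOn.Iic_union_Ici (a := 1) ?_ m3
    have := m1.union m2 isGreatest_Iic (isLeast_Icc zero_le_one)
    rwa [Iic_union_Icc_eq_Iic zero_le_one] at this
  refine ⟨m.orderIsoOfSurjective A fun y => ?_, a1, a0, a2⟩
  rcases le_total y (α 0) with c | c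
  · exact ⟨y - α 0, by rw [a0 _ (by linarith)]; ring⟩
  rcases le_total y (α 1) with d | d
  · obtain ⟨t, ht, e⟩ := hs ⟨c, d⟩
    exact ⟨t, (a1 t ht).trans e⟩
  · exact ⟨y - α 1 + 1, by rw [a2 _ (by linarith)]; ring⟩

theorem match_iso {α β : ℝ → ℝ} (h : StrictMonoOn α (Icc 0 1))
    (hs : SurjOn α (Icc 0 1) (Icc (α 0) (α 1))) (h' : StrictMonoOn β (Icc 0 1))
    (hs' : SurjOn β (Icc 0 1) (Icc (β 0) (β 1))) (e0 : α 0 = β 0) (e1 : α 1 = β 1) :
    ∃ φ : ℝ ≃o ℝ, (∀ t, t ∉ Ioo (0 : ℝ) 1 → φ t = t) ∧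
      ∀ t ∈ Icc (0 : ℝ) 1, φ t ∈ Icc (0 : ℝ) 1 ∧ β (φ t) = α t := by
  obtain ⟨A, a1, a0, a2⟩ := ext_iso h hs
  obtain ⟨B, b1, b0, b2⟩ := ext_iso h' hs'
  have off : ∀ t, t ∉ Ioo (0 : ℝ) 1 → (A.trans B.symm) t = t := fun t ht => by
    rw [OrderIso.trans_apply, OrderIso.symm_apply_eq]
    rcases not_and_or.1 ht with c | c
    · rw [a0 t (not_lt.1 c), b0 t (not_lt.1 c), e0]
    · rw [a2 t (not_lt.1 c), b2 t (not_lt.1 c), e1]
  refine ⟨A.trans B.symm, off, fun t ht => ?_⟩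
  have m : (A.trans B.symm) t ∈ Icc (0 : ℝ) 1 :=
    ⟨(off 0 (by simp)).symm.trans_le ((A.trans B.symm).monotone ht.1),
      ((A.trans B.symm).monotone ht.2).trans_eq (off 1 (by simp))⟩
  exact ⟨m, by rw [← b1 _ m, ← a1 t ht]; simp⟩

variable {G V : Type} {Y : Type*} [Group G] [MulAction G V] [MulAction G Y] [TopologicalSpace Y]
  {K : Set (Fin 4 → V)} {b : Y → V → ℝ} {ht : (Fin 4 → V) → Y → ℝ}

/-- a point of the edge from `u` to `v` -/
noncomputable def pt (u v : V) (t : ℝ) : V → ℝ := (1 - t) • dl u + t • dl v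

theorem pt_mem {σ : Set V} {u v : V} (hu : u ∈ σ) (hv : v ∈ σ) {t : ℝ} (h : t ∈ Icc (0 : ℝ) 1) :
    pt u v t ∈ spx σ :=
  spx_convex σ (dl_mem hu) (dl_mem hv) (sub_nonneg.2 h.2) h.1 (sub_add_cancel _ _)

theorem exists_fol (h : Cpx G K) (hs : IsSimplyConnected (⋃ x ∈ K, spx (range x)))
    (fr : ∀ (g : G) (v : V), g • v = v → g = 1) (hb : Bary G K b) (hn : Normal G K b ht) :
    ∃ φ, (h.tri hs fr).Fol φ := by
  classical
  have : Nonempty Y := by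
    obtain ⟨β, hβ⟩ := hs.nonempty
    obtain ⟨y, -⟩ := hb.onto ▸ hβ
    exact ⟨y⟩
  let P : V → V → ℝ → Y := fun u v t => Function.invFun b (pt u v t)
  have bP : ∀ x ∈ K, ∀ i j, ∀ t ∈ Icc (0 : ℝ) 1, b (P (x i) (x j) t) = pt (x i) (x j) t :=
    fun x hx i j t h' => Function.invFun_eq (show pt (x i) (x j) t ∈ range b from
      hb.onto ▸ mem_biUnion hx (pt_mem (mem_range_self i) (mem_range_self j) h'))
  have P0 : ∀ u v w, P u v 0 = P u w 0 := fun u v w => by simp [P, pt]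
  have P1 : ∀ u v w, P u w 1 = P v w 1 := fun u v w => by simp [P, pt]
  have P10 : ∀ u v w, P u v 1 = P v w 0 := fun u v w => by simp [P, pt]
  have Pg : ∀ g : G, ∀ x ∈ K, ∀ i j, ∀ t ∈ Icc (0 : ℝ) 1,
      P (g • x i) (g • x j) t = g • P (x i) (x j) t := fun g x hx i j t h' => by
    refine hb.emb.injective ((bP (g • x) (h.inv g x hx) i j t h').trans (funext fun w => ?_))
    rw [← smul_inv_smul g w, hb.equi, bP x hx i j t h']
    simp [pt, dl, -smul_inv_smul]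
  have mono : ∀ x ∈ K, ∀ i j, i < j → StrictMonoOn (fun t => ht x (P (x i) (x j) t)) (Icc 0 1) := by
    intro x hx i j hij s h1 t h2 e
    have ne : x j ≠ x i := fun a => hij.ne' (h.inj hx a)
    refine hn.mono x hx i j hij _ _ ?_ ?_ ?_
    · rw [bP x hx i j s h1]; exact pt_mem (by simp) (by simp) h1
    · rw [bP x hx i j t h2]; exact pt_mem (by simp) (by simp) h2
    · rw [bP x hx i j s h1, bP x hx i j t h2]
      simpa [pt, dl_self, dl_ne ne] using e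
  have surj : ∀ x ∈ K, ∀ i j, SurjOn (fun t => ht x (P (x i) (x j) t)) (Icc 0 1)
      (Icc (ht x (P (x i) (x j) 0)) (ht x (P (x i) (x j) 1))) := by
    intro x hx i j
    refine intermediate_value_Icc zero_le_one ((hn.cont x hx).comp ?_ fun t h' => ?_)
    · refine hb.emb.isInducing.continuousOn_iff.2 (ContinuousOn.congr
        (f := pt (x i) (x j)) ?_ fun t h' => bP x hx i j t h')
      unfold pt
      fun_prop
    · rw [mem_preimage, bP x hx i j t h']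
      exact pt_mem (mem_range_self i) (mem_range_self j) h'
  let pa : V → V → V → ℝ → Y := fun u v w s => if s ≤ 1 then P u v s else P v w (s - 1)
  have pam : ∀ x ∈ K, ∀ i j k, i < j → j < k →
      StrictMonoOn (fun s => ht x (pa (x i) (x j) (x k) s)) (Icc 0 (1 + 1)) := by
    intro x hx i j k h1 h2
    simp only [pa, apply_ite (ht x)]
    exact cat_mono (mono x hx i j h1) (mono x hx j k h2) (congrArg _ (P10 _ _ _))
  have pab : ∀ x ∈ K, ∀ i j k, ∀ σ : Set V, x i ∈ σ → x j ∈ σ → x k ∈ σ → ∀ s ∈ Icc (0 : ℝ) (1 + 1),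
      b (pa (x i) (x j) (x k) s) ∈ spx σ := by
    intro x hx i j k σ a1 a2 a3 s h'
    by_cases c : s ≤ 1
    · simp only [pa, if_pos c]
      rw [bP x hx i j s ⟨h'.1, c⟩]
      exact pt_mem a1 a2 ⟨h'.1, c⟩
    · have m : s - 1 ∈ Icc (0 : ℝ) 1 := ⟨by linarith [not_le.1 c], by linarith [h'.2]⟩
      simp only [pa, if_neg c]
      rw [bP x hx j k _ m]
      exact pt_mem a2 a3 m
  have two : ∀ {t : ℝ}, t ∈ Icc (0 : ℝ) 1 → 2 * t ∈ Icc (0 : ℝ) (1 + 1) := fun a =>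
    ⟨by linarith [a.1], by linarith [a.2]⟩
  have l01 : ∀ k : Fin 4, k.succAbove 0 < k.succAbove 1 := by decide
  have l12 : ∀ k : Fin 4, k.succAbove 1 < k.succAbove 2 := by decide
  have ex : ∀ f : h.T2, ∃ φ : ℝ ≃o ℝ, (∀ t, t ∉ Ioo (0 : ℝ) 1 → φ t = t) ∧
      ∀ t ∈ Icc (0 : ℝ) 1, φ t ∈ Icc (0 : ℝ) 1 ∧ ∀ x k, f = h.d3 x k →
        ht x.1 (pa (f.1 0) (f.1 1) (f.1 2) (2 * φ t)) = ht x.1 (P (f.1 0) (f.1 2) t) := by
    intro f
    obtain ⟨x, k, rfl⟩ := h.fsurj f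
    obtain ⟨φ, p1, p2⟩ := match_iso (mono x.1 x.2 _ _ ((l01 k).trans (l12 k))) (surj x.1 x.2 _ _)
      (β := fun t => ht x.1 (pa (x.1 (k.succAbove 0)) (x.1 (k.succAbove 1)) (x.1 (k.succAbove 2))
        (2 * t)))
      (fun s a t c e => pam x.1 x.2 _ _ _ (l01 k) (l12 k) (two a) (two c) (by linarith))
      (fun y hy => by
        simp only [pa, mul_zero, mul_one, zero_le_one, if_true, Nat.not_ofNat_le_one, if_false,
          show (2 : ℝ) - 1 = 1 by norm_num] at hy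
        rcases le_total y (ht x.1 (P (x.1 (k.succAbove 0)) (x.1 (k.succAbove 1)) 1)) with c | c
        · obtain ⟨t, a, e⟩ := surj x.1 x.2 _ _ ⟨hy.1, c⟩
          refine ⟨t / 2, ⟨by linarith [a.1], by linarith [a.2]⟩, ?_⟩
          simp only [pa, show 2 * (t / 2) = t by ring, if_pos a.2]
          exact e
        · obtain ⟨t, a, e⟩ := surj x.1 x.2 _ _ ⟨P10 _ _ _ ▸ c, hy.2⟩
          refine ⟨(t + 1) / 2, ⟨by linarith [a.1], by linarith [a.2]⟩, ?_⟩
          simp only [pa, show 2 * ((t + 1) / 2) = t + 1 by ring, add_sub_cancel_right]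
          split_ifs with d
          · obtain rfl : t = 0 := le_antisymm (by linarith) a.1
            rw [zero_add, P10 _ _ (x.1 (k.succAbove 2))]
            exact e
          · exact e)
      (by simp only [pa, mul_zero, zero_le_one, if_true]; exact congrArg _ (P0 _ _ _))
      (by
        simp only [pa, mul_one, Nat.not_ofNat_le_one, if_false, show (2 : ℝ) - 1 = 1 by norm_num]
        exact congrArg _ (P1 _ _ _))
    refine ⟨φ, p1, fun t a => ⟨(p2 t a).1, fun y l e => ?_⟩⟩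
    have m : ∀ i, x.1 (k.succAbove i) ∈ range x.1 ∩ range y.1 := fun i =>
      ⟨⟨_, rfl⟩, _, (congrFun (congrArg Subtype.val e) i).symm⟩
    have m1 := pab x.1 x.2 _ _ _ _ (m 0) (m 1) (m 2) _ (two (p2 t a).1)
    have m2 : b (P (x.1 (k.succAbove 0)) (x.1 (k.succAbove 2)) t) ∈ spx _ :=
      bP x.1 x.2 _ _ t a ▸ pt_mem (m 0) (m 2) a
    exact le_antisymm (hn.same _ x.2 _ y.2 _ _ m1 m2 (p2 t a).2.le)
      (hn.same _ x.2 _ y.2 _ _ m2 m1 (p2 t a).2.ge)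
  choose φ p1 p2 using ex
  refine ⟨φ, ⟨p1, fun x s hs' => ?_⟩, fun g f => ?_⟩
  · let Q : ℝ → ℝ := fun r => if r ≤ 1 then ht x.1 (P (x.1 0) (x.1 1) r)
      else ht x.1 (pa (x.1 1) (x.1 2) (x.1 3) (r - 1))
    have Qm : StrictMonoOn Q (Icc 0 (1 + 1 + 1)) :=
      cat_mono (mono x.1 x.2 0 1 (by decide)) (pam x.1 x.2 1 2 3 (by decide) (by decide))
        (by simp only [pa, zero_le_one, if_true]; exact congrArg _ (P10 _ _ _))
    have r0 : ∀ t ∈ Icc (0 : ℝ) 1, ht x.1 (pa (x.1 1) (x.1 2) (x.1 3) (2 * φ (h.d3 x 0) t)) =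
      ht x.1 (P (x.1 1) (x.1 3) t) := fun t a => (p2 _ t a).2 x 0 rfl
    have r1 : ht x.1 (pa (x.1 0) (x.1 2) (x.1 3) (2 * φ (h.d3 x 1) s)) =
      ht x.1 (P (x.1 0) (x.1 3) s) := (p2 _ s hs').2 x 1 rfl
    have r2 : ht x.1 (pa (x.1 0) (x.1 1) (x.1 3) (2 * φ (h.d3 x 2) s)) =
      ht x.1 (P (x.1 0) (x.1 3) s) := (p2 _ s hs').2 x 2 rfl
    have r3 : ∀ t ∈ Icc (0 : ℝ) 1, ht x.1 (pa (x.1 0) (x.1 1) (x.1 2) (2 * φ (h.d3 x 3) t)) =
      ht x.1 (P (x.1 0) (x.1 2) t) := fun t a => (p2 _ t a).2 x 3 rfl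
    have n1 := two (p2 (h.d3 x 1) s hs').1
    have n2 := two (p2 (h.d3 x 2) s hs').1
    show (if 2 * φ (h.d3 x 2) s ≤ 1 then 2 * φ (h.d3 x 2) s
      else 1 + 2 * φ (h.d3 x 0) (2 * φ (h.d3 x 2) s - 1)) =
      if 2 * φ (h.d3 x 1) s ≤ 1 then 2 * φ (h.d3 x 3) (2 * φ (h.d3 x 1) s)
      else 2 * φ (h.d3 x 1) s + 1
    generalize 2 * φ (h.d3 x 2) s = u at *
    generalize 2 * φ (h.d3 x 1) s = w at *
    have L : ∀ r, r = (if u ≤ 1 then u else 1 + 2 * φ (h.d3 x 0) (u - 1)) →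
        r ∈ Icc (0 : ℝ) (1 + 1 + 1) ∧ Q r = ht x.1 (P (x.1 0) (x.1 3) s) := by
      intro r hr
      by_cases c : u ≤ 1
      · rw [if_pos c] at hr
        subst hr
        simp only [pa, if_pos c] at r2
        exact ⟨⟨n2.1, by linarith⟩, (if_pos c).trans r2⟩
      · rw [if_neg c] at hr
        have m : u - 1 ∈ Ioc (0 : ℝ) 1 := ⟨by linarith [not_le.1 c], by linarith [n2.2]⟩
        have m' := two (p2 (h.d3 x 0) _ (Ioc_subset_Icc_self m)).1
        have : 0 < φ (h.d3 x 0) (u - 1) :=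
          (p1 _ 0 (by simp)).symm.trans_lt ((φ _).strictMono m.1)
        simp only [pa, if_neg c] at r2
        refine ⟨⟨by linarith [m'.1], by linarith [m'.2]⟩, (if_neg (by linarith)).trans ?_⟩
        rw [hr, add_sub_cancel_left, r0 _ (Ioc_subset_Icc_self m), r2]
    have R : ∀ r, r = (if w ≤ 1 then 2 * φ (h.d3 x 3) w else w + 1) →
        r ∈ Icc (0 : ℝ) (1 + 1 + 1) ∧ Q r = ht x.1 (P (x.1 0) (x.1 3) s) := by
      intro r hr
      by_cases c : w ≤ 1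
      · rw [if_pos c] at hr
        have m' := two (p2 (h.d3 x 3) _ ⟨n1.1, c⟩).1
        have := r3 w ⟨n1.1, c⟩
        rw [← hr] at m' this
        simp only [pa, if_pos c] at r1
        refine ⟨⟨m'.1, by linarith [m'.2]⟩, Eq.trans ?_ (this.trans r1)⟩
        simp only [Q, pa, apply_ite (ht x.1), if_pos (show r - 1 ≤ 1 by linarith [m'.2])]
      · rw [if_neg c] at hr
        simp only [pa, if_neg c] at r1
        refine ⟨⟨by linarith [n1.1], by linarith [n1.2]⟩,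
          (if_neg (by linarith [not_le.1 c])).trans ?_⟩
        simp only [hr, add_sub_cancel_right, pa, if_neg c, r1]
    exact Qm.injOn (L _ rfl).1 (R _ rfl).1 ((L _ rfl).2.trans (R _ rfl).2.symm)
  · ext t
    by_cases c : t ∈ Ioo (0 : ℝ) 1
    swap
    · rw [p1 _ t c, p1 _ t c]
    have a := Ioo_subset_Icc_self c
    obtain ⟨x, k, rfl⟩ := h.fsurj f
    obtain ⟨q1, q2⟩ := p2 (h.d3 x k) t a
    obtain ⟨q3, q4⟩ := p2 (g • h.d3 x k) t a
    have m1 := pab x.1 x.2 (k.succAbove 0) (k.succAbove 1) (k.succAbove 2) (range x.1) ⟨_, rfl⟩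
      ⟨_, rfl⟩ ⟨_, rfl⟩ _ (two q1)
    have m2 : b (P (x.1 (k.succAbove 0)) (x.1 (k.succAbove 2)) t) ∈ spx (range x.1) :=
      bP x.1 x.2 _ _ t a ▸ pt_mem (mem_range_self _) (mem_range_self _) a
    have e := le_antisymm (hn.inv g _ x.2 _ _ m1 m2 (q2 x k rfl).le)
      (hn.inv g _ x.2 _ _ m2 m1 (q2 x k rfl).ge)
    have pg : ∀ s ∈ Icc (0 : ℝ) (1 + 1), g • pa (x.1 (k.succAbove 0)) (x.1 (k.succAbove 1))
        (x.1 (k.succAbove 2)) s = pa (g • x.1 (k.succAbove 0)) (g • x.1 (k.succAbove 1))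
        (g • x.1 (k.succAbove 2)) s := fun s h' => by
      by_cases d : s ≤ 1
      · simp only [pa, if_pos d, Pg g x.1 x.2 _ _ s ⟨h'.1, d⟩]
      · simp only [pa, if_neg d,
          Pg g x.1 x.2 _ _ (s - 1) ⟨by linarith [not_le.1 d], by linarith [h'.2]⟩]
    rw [pg _ (two q1), ← Pg g x.1 x.2 _ _ t a] at e
    have := (pam (g • x.1) (h.inv g _ x.2) _ _ _ (l01 k) (l12 k)).injOn (two q3) (two q1)
      ((q4 (g • x) k rfl).trans e.symm)
    linarith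

end Pool.Agent.Work.MP_3d425c_gt.Tp
end

-- merged part: Pool.Agent.Work.MP_3d425c_gt.Sm.Ph
section
/-! Block Ph: the carried foliation. `exists_phi`: copy Tp/Fol.lean (cat_mono, match_iso are
imported): φ f matches the long edge of f with the two short edges by the heights ht (f 0), and by
Hts.compat by the heights seen from any vertex of any tetrahedron containing f.
`edge_leaf`: heights seen from u; h.link and h.adj_ind: every tetrahedron z round the edge uv has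
exactly one level s with height c (its long edge contains the heights of u and v; mono, intermediate
values); a common face f contains u and v, so c is the height of a point t ∈ (0,1) of the long edge
of f, and Sp with injectivity (mono; Md.Basic pos_mem) gives s = pos z k t on both sides: a Step. -/

namespace Pool.Agent.Work.MP_3d425c_gt.Sm
open Set Relation Metric Topology Filter
open scoped RealInnerProductSpace

variable {G V : Type} [Group G] [MulAction G V] {lt : V → V → Prop} {T : Set (Set V)}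
  (h : SC G lt T) {ht : V → V → V → ℝ → ℝ} {k : V → V → ℝ}

/-- two edges in a row -/
noncomputable def ph_pa (ht : V → V → V → ℝ → ℝ) (a u v w : V) (s : ℝ) : ℝ :=
  if s ≤ 1 then ht a u v s else ht a v w (s - 1)

theorem ph_eq (hh : Hts G lt T ht k) {σ : Set V} (hσ : σ ∈ T) {a b u v u' v' : V} (ha : a ∈ σ)
    (hb : b ∈ σ) (hu : u ∈ σ) (hv : v ∈ σ) (hu' : u' ∈ σ) (hv' : v' ∈ σ) (l : lt u v)
    (l' : lt u' v') {t t' : ℝ} (m : t ∈ Icc (0 : ℝ) 1) (m' : t' ∈ Icc (0 : ℝ) 1)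
    (e : ht a u v t = ht a u' v' t') : ht b u v t = ht b u' v' t' := by
  rcases lt_trichotomy (ht b u v t) (ht b u' v' t') with c | c | c
  · exact absurd e (hh.compat σ hσ b hb a ha u hu v hv u' hu' v' hv' l l' t m t' m' c).ne
  · exact c
  · exact absurd e (hh.compat σ hσ b hb a ha u' hu' v' hv' u hu v hv l' l t' m' t m c).ne'

theorem ph_surj (hh : Hts G lt T ht k) {σ : Set V} (hσ : σ ∈ T) {a u v : V} (ha : a ∈ σ)
    (hu : u ∈ σ) (hv : v ∈ σ) (l : lt u v) :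
    SurjOn (ht a u v) (Icc 0 1) (Icc (ht a u v 0) (ht a u v 1)) :=
  intermediate_value_Icc zero_le_one (hh.cont σ hσ a ha u hu v hv l)

theorem ph_mono (hh : Hts G lt T ht k) {σ : Set V} (hσ : σ ∈ T) {a u v w : V} (ha : a ∈ σ)
    (hu : u ∈ σ) (hv : v ∈ σ) (hw : w ∈ σ) (l : lt u v) (l' : lt v w) :
    StrictMonoOn (ph_pa ht a u v w) (Icc 0 (1 + 1)) :=
  Tp.cat_mono (hh.mono σ hσ a ha u hu v hv l) (hh.mono σ hσ a ha v hv w hw l')
    ((hh.one σ hσ a ha u hu v hv l).trans (hh.zero σ hσ a ha v hv w hw l').symm)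

theorem ph_two {t : ℝ} (a : t ∈ Icc (0 : ℝ) 1) : 2 * t ∈ Icc (0 : ℝ) (1 + 1) :=
  ⟨by linarith [a.1], by linarith [a.2]⟩

theorem ph_sub {s : ℝ} (a : s ∈ Icc (0 : ℝ) (1 + 1)) (c : ¬ s ≤ 1) : s - 1 ∈ Icc (0 : ℝ) 1 :=
  ⟨by linarith [not_le.1 c], by linarith [a.2]⟩

theorem ph_tri (hh : Hts G lt T ht k) {σ : Set V} (hσ : σ ∈ T) {u v w : V}
    (hu : u ∈ σ) (hv : v ∈ σ) (hw : w ∈ σ) (l : lt u v) (l' : lt v w) (l'' : lt u w) :
    ∃ φ : ℝ ≃o ℝ, (∀ t, t ∉ Ioo (0 : ℝ) 1 → φ t = t) ∧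
      ∀ t ∈ Icc (0 : ℝ) 1, φ t ∈ Icc (0 : ℝ) 1 ∧ ph_pa ht u u v w (2 * φ t) = ht u u w t := by
  have e10 : ht u u v 1 = ht u v w 0 :=
    (hh.one σ hσ u hu u hu v hv l).trans (hh.zero σ hσ u hu v hv w hw l').symm
  refine Tp.match_iso (β := fun t => ph_pa ht u u v w (2 * t)) (hh.mono σ hσ u hu u hu w hw l'')
    (ph_surj hh hσ hu hu hw l'')
    (fun s a t c e => ph_mono hh hσ hu hu hv hw l l' (ph_two a) (ph_two c) (by linarith))
    (fun y hy => ?_) ?_ ?_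
  · simp only [ph_pa, mul_zero, mul_one, zero_le_one, if_true, Nat.not_ofNat_le_one, if_false,
      show (2 : ℝ) - 1 = 1 by norm_num] at hy
    rcases le_total y (ht u u v 1) with c | c
    · obtain ⟨t, a, e⟩ := ph_surj hh hσ hu hu hv l ⟨hy.1, c⟩
      refine ⟨t / 2, ⟨by linarith [a.1], by linarith [a.2]⟩, ?_⟩
      simp only [ph_pa, show 2 * (t / 2) = t by ring, if_pos a.2]
      exact e
    · obtain ⟨t, a, e⟩ := ph_surj hh hσ hu hv hw l' ⟨e10 ▸ c, hy.2⟩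
      refine ⟨(t + 1) / 2, ⟨by linarith [a.1], by linarith [a.2]⟩, ?_⟩
      simp only [ph_pa, show 2 * ((t + 1) / 2) = t + 1 by ring, add_sub_cancel_right]
      split_ifs with d
      · obtain rfl : t = 0 := le_antisymm (by linarith) a.1
        rw [zero_add, e10]
        exact e
      · exact e
  · simp only [ph_pa, mul_zero, zero_le_one, if_true]
    exact (hh.zero σ hσ u hu u hu w hw l'').trans (hh.zero σ hσ u hu u hu v hv l).symm
  · simp only [ph_pa, mul_one, Nat.not_ofNat_le_one, if_false, show (2 : ℝ) - 1 = 1 by norm_num]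
    exact (hh.one σ hσ u hu u hu w hw l'').trans (hh.one σ hσ u hu v hv w hw l').symm

theorem ph_l01 : ∀ m : Fin 4, m.succAbove 0 < m.succAbove 1 := by decide
theorem ph_l12 : ∀ m : Fin 4, m.succAbove 1 < m.succAbove 2 := by decide
theorem ph_l02 : ∀ m : Fin 4, m.succAbove 0 < m.succAbove 2 := by decide

theorem ph_ex (hh : Hts G lt T ht k) (f : h.T2) :
    ∃ φ : ℝ ≃o ℝ, (∀ t, t ∉ Ioo (0 : ℝ) 1 → φ t = t) ∧
      ∀ t ∈ Icc (0 : ℝ) 1, φ t ∈ Icc (0 : ℝ) 1 ∧ ∀ x m, f = h.d3 x m → ∀ i,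
        ph_pa ht (x.1 i) (f.1 0) (f.1 1) (f.1 2) (2 * φ t) = ht (x.1 i) (f.1 0) (f.1 2) t := by
  obtain ⟨x, m, rfl⟩ := h.fsurj f
  obtain ⟨φ, p1, p2⟩ := ph_tri hh x.2.1 (mem_range_self _) (mem_range_self _) (mem_range_self _)
    (x.2.2 _ _ (ph_l01 m)) (x.2.2 _ _ (ph_l12 m)) (x.2.2 _ _ (ph_l02 m))
  refine ⟨φ, p1, fun t a => ⟨(p2 t a).1, fun y l e i => ?_⟩⟩
  have q : ph_pa ht ((h.d3 x m).1 0) ((h.d3 x m).1 0) ((h.d3 x m).1 1) ((h.d3 x m).1 2) (2 * φ t) =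
    ht ((h.d3 x m).1 0) ((h.d3 x m).1 0) ((h.d3 x m).1 2) t := (p2 t a).2
  have n := ph_two (p2 t a).1
  rw [e] at q ⊢
  have r : ∀ j, (h.d3 y l).1 j ∈ range y.1 := fun j => ⟨_, rfl⟩
  unfold ph_pa at q ⊢
  split_ifs at q ⊢ with c
  · exact ph_eq hh y.2.1 (r 0) (mem_range_self i) (r 0) (r 1) (r 0) (r 2) (y.2.2 _ _ (ph_l01 l))
      (y.2.2 _ _ (ph_l02 l)) ⟨n.1, c⟩ a q
  · exact ph_eq hh y.2.1 (r 0) (mem_range_self i) (r 1) (r 2) (r 0) (r 2) (y.2.2 _ _ (ph_l12 l))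
      (y.2.2 _ _ (ph_l02 l)) (ph_sub n c) a q

theorem SC.exists_phi (hh : Hts G lt T ht k) : ∃ φ, h.tri.Fol φ ∧ h.Sp ht φ := by
  choose φ p1 p2 using ph_ex h hh
  have R := fun (x : h.T3) (i : Fin 4) => mem_range_self (f := x.1) i
  have e10 : ∀ (x : h.T3) a i j m, i < j → j < m →
      ht (x.1 a) (x.1 i) (x.1 j) 1 = ht (x.1 a) (x.1 j) (x.1 m) 0 := fun x a i j m c d =>
    (hh.one _ x.2.1 _ (R x a) _ (R x i) _ (R x j) (x.2.2 _ _ c)).trans
      (hh.zero _ x.2.1 _ (R x a) _ (R x j) _ (R x m) (x.2.2 _ _ d)).symm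
  have fl : h.tri.Flat φ := by
    refine ⟨p1, fun x s hs' => ?_⟩
    let Q : ℝ → ℝ := fun r => if r ≤ 1 then ht (x.1 0) (x.1 0) (x.1 1) r
      else ph_pa ht (x.1 0) (x.1 1) (x.1 2) (x.1 3) (r - 1)
    have Qm : StrictMonoOn Q (Icc 0 (1 + 1 + 1)) :=
      Tp.cat_mono (hh.mono _ x.2.1 _ (R x 0) _ (R x 0) _ (R x 1) (x.2.2 _ _ (by decide)))
        (ph_mono hh x.2.1 (R x 0) (R x 1) (R x 2) (R x 3) (x.2.2 _ _ (by decide))
          (x.2.2 _ _ (by decide)))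
        (by
          simp only [ph_pa, zero_le_one, if_true]
          exact e10 x 0 0 1 2 (by decide) (by decide))
    have r0 : ∀ t ∈ Icc (0 : ℝ) 1, ph_pa ht (x.1 0) (x.1 1) (x.1 2) (x.1 3) (2 * φ (h.d3 x 0) t) =
      ht (x.1 0) (x.1 1) (x.1 3) t := fun t a => (p2 _ t a).2 x 0 rfl 0
    have r1 : ph_pa ht (x.1 0) (x.1 0) (x.1 2) (x.1 3) (2 * φ (h.d3 x 1) s) =
      ht (x.1 0) (x.1 0) (x.1 3) s := (p2 _ s hs').2 x 1 rfl 0
    have r2 : ph_pa ht (x.1 0) (x.1 0) (x.1 1) (x.1 3) (2 * φ (h.d3 x 2) s) =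
      ht (x.1 0) (x.1 0) (x.1 3) s := (p2 _ s hs').2 x 2 rfl 0
    have r3 : ∀ t ∈ Icc (0 : ℝ) 1, ph_pa ht (x.1 0) (x.1 0) (x.1 1) (x.1 2) (2 * φ (h.d3 x 3) t) =
      ht (x.1 0) (x.1 0) (x.1 2) t := fun t a => (p2 _ t a).2 x 3 rfl 0
    have n1 := ph_two (p2 (h.d3 x 1) s hs').1
    have n2 := ph_two (p2 (h.d3 x 2) s hs').1
    show (if 2 * φ (h.d3 x 2) s ≤ 1 then 2 * φ (h.d3 x 2) s
      else 1 + 2 * φ (h.d3 x 0) (2 * φ (h.d3 x 2) s - 1)) =
      if 2 * φ (h.d3 x 1) s ≤ 1 then 2 * φ (h.d3 x 3) (2 * φ (h.d3 x 1) s)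
      else 2 * φ (h.d3 x 1) s + 1
    generalize 2 * φ (h.d3 x 2) s = u at *
    generalize 2 * φ (h.d3 x 1) s = w at *
    have L : ∀ r, r = (if u ≤ 1 then u else 1 + 2 * φ (h.d3 x 0) (u - 1)) →
        r ∈ Icc (0 : ℝ) (1 + 1 + 1) ∧ Q r = ht (x.1 0) (x.1 0) (x.1 3) s := by
      intro r hr
      by_cases c : u ≤ 1
      · rw [if_pos c] at hr
        subst hr
        simp only [ph_pa, if_pos c] at r2
        exact ⟨⟨n2.1, by linarith⟩, (if_pos c).trans r2⟩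
      · rw [if_neg c] at hr
        have m : u - 1 ∈ Ioc (0 : ℝ) 1 := ⟨by linarith [not_le.1 c], by linarith [n2.2]⟩
        have m' := ph_two (p2 (h.d3 x 0) _ (Ioc_subset_Icc_self m)).1
        have : 0 < φ (h.d3 x 0) (u - 1) :=
          (p1 _ 0 (by simp)).symm.trans_lt ((φ _).strictMono m.1)
        simp only [ph_pa, if_neg c] at r2
        refine ⟨⟨by linarith [m'.1], by linarith [m'.2]⟩, (if_neg (by linarith)).trans ?_⟩
        rw [hr, add_sub_cancel_left, r0 _ (Ioc_subset_Icc_self m), r2]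
    have R' : ∀ r, r = (if w ≤ 1 then 2 * φ (h.d3 x 3) w else w + 1) →
        r ∈ Icc (0 : ℝ) (1 + 1 + 1) ∧ Q r = ht (x.1 0) (x.1 0) (x.1 3) s := by
      intro r hr
      by_cases c : w ≤ 1
      · rw [if_pos c] at hr
        have m' := ph_two (p2 (h.d3 x 3) _ ⟨n1.1, c⟩).1
        have := r3 w ⟨n1.1, c⟩
        rw [← hr] at m' this
        simp only [ph_pa, if_pos c] at r1
        refine ⟨⟨m'.1, by linarith [m'.2]⟩, Eq.trans ?_ (this.trans r1)⟩
        simp only [Q, ph_pa, if_pos (show r - 1 ≤ 1 by linarith [m'.2])]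
      · rw [if_neg c] at hr
        simp only [ph_pa, if_neg c] at r1
        refine ⟨⟨by linarith [n1.1], by linarith [n1.2]⟩,
          (if_neg (by linarith [not_le.1 c])).trans ?_⟩
        simp only [hr, add_sub_cancel_right, ph_pa, if_neg c, r1]
    exact Qm.injOn (L _ rfl).1 (R' _ rfl).1 ((L _ rfl).2.trans (R' _ rfl).2.symm)
  refine ⟨φ, ⟨fl, fun g f => ?_⟩, fun x m t a => ?_⟩
  · ext t
    by_cases c : t ∈ Ioo (0 : ℝ) 1
    swap
    · rw [p1 _ t c, p1 _ t c]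
    have a := Ioo_subset_Icc_self c
    obtain ⟨x, m, rfl⟩ := h.fsurj f
    obtain ⟨q1, q2⟩ := p2 (h.d3 x m) t a
    obtain ⟨q3, q4⟩ := p2 (g • h.d3 x m) t a
    have i01 := hh.inv g _ x.2.1 _ (R x 0) _ (R x _) _ (R x _) (x.2.2 _ _ (ph_l01 m))
    have i12 := hh.inv g _ x.2.1 _ (R x 0) _ (R x _) _ (R x _) (x.2.2 _ _ (ph_l12 m))
    have i02 := hh.inv g _ x.2.1 _ (R x 0) _ (R x _) _ (R x _) (x.2.2 _ _ (ph_l02 m)) t a
    have pg : ∀ s ∈ Icc (0 : ℝ) (1 + 1), ph_pa ht (g • x.1 0) (g • x.1 (m.succAbove 0))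
        (g • x.1 (m.succAbove 1)) (g • x.1 (m.succAbove 2)) s = ph_pa ht (x.1 0)
        (x.1 (m.succAbove 0)) (x.1 (m.succAbove 1)) (x.1 (m.succAbove 2)) s := fun s h' => by
      by_cases d : s ≤ 1
      · simp only [ph_pa, if_pos d, i01 s ⟨h'.1, d⟩]
      · simp only [ph_pa, if_neg d, i12 _ (ph_sub h' d)]
    have := (ph_mono hh x.2.1 (R x 0) (R x _) (R x _) (R x _) (x.2.2 _ _ (ph_l01 m))
      (x.2.2 _ _ (ph_l12 m))).injOn (ph_two q3) (ph_two q1)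
      (((pg _ (ph_two q3)).symm.trans ((q4 (g • x) m rfl 0).trans i02)).trans (q2 x m rfl 0).symm)
    linarith
  · fin_cases m
    · have b := fl.smem' (h.d3 x 2) (t := (t + 1) / 2) (by linarith [a.1]) (by linarith [a.2])
      have r : ph_pa ht (x.1 0) (x.1 0) (x.1 1) (x.1 3) _ = ht (x.1 0) (x.1 0) (x.1 3) _ :=
        (p2 _ _ b).2 x 2 rfl 0
      rw [OrderIso.apply_symm_apply, show 2 * ((t + 1) / 2) = t + 1 by ring] at r
      refine r.symm.trans ?_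
      show _ = ht (x.1 0) (x.1 1) (x.1 3) t
      unfold ph_pa
      split_ifs with d
      · obtain rfl : t = 0 := le_antisymm (by linarith) a.1
        rw [zero_add]
        exact e10 x 0 0 1 3 (by decide) (by decide)
      · rw [add_sub_cancel_right]
    · rfl
    · rfl
    · have b := fl.smem' (h.d3 x 1) (t := t / 2) (by linarith [a.1]) (by linarith [a.2])
      have r : ph_pa ht (x.1 0) (x.1 0) (x.1 2) (x.1 3) _ = ht (x.1 0) (x.1 0) (x.1 3) _ :=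
        (p2 _ _ b).2 x 1 rfl 0
      rw [OrderIso.apply_symm_apply, show 2 * (t / 2) = t by ring] at r
      exact r.symm.trans (if_pos a.2)

theorem ph_le (hh : Hts G lt T ht k) (x : h.T3) {a : V} (ha : a ∈ range x.1) {i j : Fin 4}
    (c : i ≤ j) : k a (x.1 i) ≤ k a (x.1 j) := by
  rcases c.eq_or_lt with rfl | c
  · exact le_rfl
  · have l := x.2.2 i j c
    rw [← hh.zero _ x.2.1 a ha _ (mem_range_self i) _ (mem_range_self j) l,
      ← hh.one _ x.2.1 a ha _ (mem_range_self i) _ (mem_range_self j) l]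
    exact (hh.mono _ x.2.1 a ha _ (mem_range_self i) _ (mem_range_self j) l
      ⟨le_rfl, zero_le_one⟩ ⟨zero_le_one, le_rfl⟩ zero_lt_one).le

theorem ph_sp (hh : Hts G lt T ht k) {φ : h.T2 → ℝ ≃o ℝ} (hf : h.tri.Fol φ) (hs : h.Sp ht φ)
    (x : h.T3) (m : Fin 4) {a : V} (ha : a ∈ range x.1) {t : ℝ} (c : t ∈ Ioo (0 : ℝ) 1) :
    ht a (x.1 0) (x.1 3) (h.tri.pos φ x m t) = ht a ((h.d3 x m).1 0) ((h.d3 x m).1 2) t :=
  ph_eq hh x.2.1 (mem_range_self 0) ha (mem_range_self 0) (mem_range_self 3) (mem_range_self _)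
    (mem_range_self _) (x.2.2 _ _ (by decide)) (x.2.2 _ _ (ph_l02 m))
    (Ioo_subset_Icc_self (hf.1.pos_mem x m c)) (Ioo_subset_Icc_self c)
    (hs x m t (Ioo_subset_Icc_self c))

theorem SC.edge_leaf (hh : Hts G lt T ht k) {φ : h.T2 → ℝ ≃o ℝ} (hf : h.tri.Fol φ)
    (hs : h.Sp ht φ) (x y : h.T3) {u v : V} (ux : u ∈ range x.1) (vx : v ∈ range x.1)
    (uy : u ∈ range y.1) (vy : v ∈ range y.1) {s s' : ℝ} (h1 : s ∈ Icc (0 : ℝ) 1)
    (h2 : s' ∈ Icc (0 : ℝ) 1) (e : ht u (x.1 0) (x.1 3) s = ht u (y.1 0) (y.1 3) s')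
    (lo : k u u < ht u (x.1 0) (x.1 3) s) (hi : ht u (x.1 0) (x.1 3) s < k u v) :
    EqvGen (h.tri.Step φ) (x, s) (y, s') := by
  have ne : u ≠ v := fun q => by
    subst q
    exact lt_asymm lo hi
  have inj : ∀ z : h.T3, u ∈ range z.1 → InjOn (ht u (z.1 0) (z.1 3)) (Icc 0 1) := fun z hz =>
    (hh.mono _ z.2.1 u hz _ (mem_range_self 0) _ (mem_range_self 3)
      (z.2.2 _ _ (by decide))).injOn
  refine h.adj_ind (P := fun f => u ∈ f ∧ v ∈ f) (Q := fun z => ∀ r ∈ Icc (0 : ℝ) 1,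
    ht u (x.1 0) (x.1 3) s = ht u (z.1 0) (z.1 3) r → EqvGen (h.tri.Step φ) (x, s) (z, r)) x
    (fun r hr q => ?_) (fun y z m l e q ih r hr q' => ?_) y
    (h.link _ x.2.1 _ y.2.1 u v ne ux vx uy vy) s' h2 e
  · rw [inj x ux h1 hr q]
    exact .refl _
  · obtain ⟨⟨i, hi'⟩, j, hj⟩ := q
    have uy : u ∈ range y.1 := ⟨_, hi'⟩
    have uz : u ∈ range z.1 := ⟨_, (e ▸ hi' : (h.d3 z l).1 i = u)⟩
    have l02 := y.2.2 _ _ (ph_l02 m)
    have a0 : ht u (y.1 (m.succAbove 0)) (y.1 (m.succAbove 2)) 0 < ht u (x.1 0) (x.1 3) s := by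
      rw [hh.zero _ y.2.1 u uy _ (mem_range_self _) _ (mem_range_self _) l02]
      refine (ph_le h hh y uy ((Fin.strictMono_succAbove m).monotone (Fin.zero_le i))).trans_lt ?_
      exact (show y.1 (m.succAbove i) = u from hi') ▸ lo
    have a1 : ht u (x.1 0) (x.1 3) s < ht u (y.1 (m.succAbove 0)) (y.1 (m.succAbove 2)) 1 := by
      rw [hh.one _ y.2.1 u uy _ (mem_range_self _) _ (mem_range_self _) l02]
      refine LT.lt.trans_le ?_
        (ph_le h hh y uy ((Fin.strictMono_succAbove m).monotone (Fin.le_last j)))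
      exact (show y.1 (m.succAbove j) = v from hj) ▸ hi
    obtain ⟨t, c, q⟩ := intermediate_value_Ioo zero_le_one
      (hh.cont _ y.2.1 u uy _ (mem_range_self _) _ (mem_range_self _) l02) ⟨a0, a1⟩
    have b1 := (ph_sp h hh hf hs y m uy c).trans q
    have b2 := ph_sp h hh hf hs z l uz c
    rw [← e] at b2
    refine .trans _ _ _ (ih _ (Ioo_subset_Icc_self (hf.1.pos_mem y m c)) b1.symm)
      (.rel _ _ ⟨m, l, t, c, e, rfl, ?_⟩)
    exact inj z uz hr (Ioo_subset_Icc_self (hf.1.pos_mem z l c)) (q'.symm.trans (b2.trans q).symm)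

end Pool.Agent.Work.MP_3d425c_gt.Sm
end

-- merged part: Pool.Agent.Work.MP_3d425c_gt.Sm.T1
section
/-! Block T1: plaques at one level. `lev`: intermediate values of t ↦ H a (χ a (t • l a)) (hcont, cont).
`cut`: U = {p | c < H a p}; Good.ord and the cone. `level`: intermediate values along the long edge.
`same`: Eu.cut1 with Q p q = every plaque (z, r) at level c of a tetrahedron z ∋ p, q is on the leaf of
(x, s); SC.edge_leaf (heights seen from p; compat_eq, compat) for one pair, Good.ext and k.enum for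
two pairs with a common point; the pairs at the ends are (x 0, x 3), (y 0, y 3).
`exists_tet`: Eu.cut0, Good.ext, k.enum. -/

namespace Pool.Agent.Work.MP_3d425c_gt.Sm
open Set Relation Metric Topology Filter
open scoped RealInnerProductSpace

variable {Y : Type} [TopologicalSpace Y] {η : ℝ} {L : LM Y 300 η} {G : Type} [Group G]
  [MulAction G Y] {V : SubMulAction G Y} {w : Y → ℝ} (h : L.Good V w)
  (k : SC G (L.lt V) (L.T V w)) {φ : k.T2 → ℝ ≃o ℝ}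

/-- the point of the plaque `(x, s)` on the long edge -/
noncomputable def SC.pt (k : SC G (L.lt V) (L.T V w)) (x : k.T3) (s : ℝ) : Y :=
  L.γ (x.1 0).1 (x.1 3).1 s

theorem t1_norm (a : Y) (t : ℝ) : ‖t • L.l a‖ = |t| := by
  rw [norm_smul, L.unit, mul_one, Real.norm_eq_abs]

theorem t1_inner (a : Y) (t : ℝ) : ⟪L.l a, t • L.l a⟫ = t := by
  rw [real_inner_smul_right, real_inner_self_eq_norm_sq, L.unit]
  ring

include h in
theorem LM.Good.t1_cone (a : Y) {y : Y} {t : ℝ} (ht : |t| ≤ 15) (hy : L.d a y < 60) :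
    (t + 1 / 4 < ⟪L.l a, L.ψ a y⟫ → L.H a (L.χ a (t • L.l a)) < L.H a y) ∧
      (⟪L.l a, L.ψ a y⟫ < t - 1 / 4 → L.H a y < L.H a (L.χ a (t • L.l a))) := by
  have e0 := h.pos
  have e1 := h.small
  obtain ⟨m1, m2⟩ := L.right a y (by linarith)
  have n1 := abs_le.1 (L.norm_ψ a (y := y) (by linarith))
  have n2 := t1_norm (L := L) a t
  have m3 : t • L.l a ∈ ball (0 : E3) 300 := mem_ball_zero_iff.2 (by linarith)
  have n3 : η * ‖L.ψ a y - t • L.l a‖ ≤ 1 / 1000 * 100 :=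
    mul_le_mul e1 ((norm_sub_le _ _).trans (by linarith)) (norm_nonneg _) (by norm_num)
  constructor
  · intro k
    have := L.cone a _ m3 _ m1 (by
      rw [inner_sub_right, t1_inner]
      linarith)
    rwa [m2] at this
  · intro k
    have := L.cone a _ m1 _ m3 (by
      rw [inner_sub_right, t1_inner, norm_sub_rev]
      linarith)
    rwa [m2] at this

include h in
theorem LM.Good.t1_diam (x : k.T3) {p q : V} (hp : p ∈ range x.1) (hq : q ∈ range x.1) :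
    L.d p.1 q.1 < 4.01 := h.diam x.2.1 hp hq

include h in
theorem LM.Good.t1_ends (a : Y) (x : k.T3) (hx : L.d a (x.1 0).1 < 50) {p : V}
    (hp : p ∈ range x.1) : L.H a (x.1 0).1 ≤ L.H a p.1 ∧ L.H a p.1 ≤ L.H a (x.1 3).1 := by
  have m : ∀ i, x.1 i ∈ L.S V a := fun i => by
    have h1 := h.t1_diam k x (mem_range_self 0) (mem_range_self i)
    have h2 := L.tri a (x.1 0).1 (x.1 i).1
    show L.d a (x.1 i).1 < 60
    linarith
  have o : ∀ i j, i ≤ j → L.H a (x.1 i).1 ≤ L.H a (x.1 j).1 := fun i j hij => by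
    rcases hij.eq_or_lt with e | e
    · rw [e]
    · exact ((h.lt_iff a (m i) (m j) ((h.t1_diam k x (mem_range_self i)
        (mem_range_self j)).trans (by norm_num))).1 (x.2.2 i j e)).le
  obtain ⟨i, rfl⟩ := hp
  exact ⟨o 0 i (Fin.zero_le i), o i 3 (Fin.le_last i)⟩

include h in
theorem LM.Good.t1_pt (x : k.T3) {p : V} (hp : p ∈ range x.1) {s : ℝ} (hs : s ∈ Icc (0 : ℝ) 1) :
    L.d p.1 (k.pt x s) < 9 := by
  have h1 := h.t1_diam k x hp (mem_range_self 0)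
  have h2 := h.t1_diam k x (mem_range_self 0) (mem_range_self 3)
  have h3 := h.γ_near (u := (x.1 0).1) (v := (x.1 3).1) (by linarith) hs
  have h4 := L.tri p.1 (x.1 0).1 (k.pt x s)
  unfold SC.pt at h4 ⊢
  linarith

include h in
theorem LM.Good.t1_N (a : Y) {u : E3} (hu : ‖u‖ < 40) {p : V} (hp : p ∈ L.N V w a u) :
    L.d a p.1 < 43 := by
  have h1 := (h.eu a).near (by linarith) hp
  have h2 : L.d a p.1 < 60 := hp.1
  have h3 := abs_le.1 (L.norm_ψ a (y := p.1) (by linarith))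
  have h4 := norm_sub_le u (u - L.P V a p)
  rw [sub_sub_cancel] at h4
  have h5 := h.small
  unfold LM.P at h1 h4
  linarith

include h in
theorem LM.Good.t1_long (a : Y) (x : k.T3) (hx : L.d a (x.1 0).1 < 50) {s : ℝ}
    (hs : s ∈ Ioo (0 : ℝ) 1) :
    L.H a (x.1 0).1 < L.H a (k.pt x s) ∧ L.H a (k.pt x s) < L.H a (x.1 3).1 := by
  have hl := x.2.2 0 3 (by decide)
  have m := h.γ_mono (a := a) (by linarith) hl
  have h1 := m (left_mem_Icc.2 zero_le_one) (Ioo_subset_Icc_self hs) hs.1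
  have h2 := m (Ioo_subset_Icc_self hs) (right_mem_Icc.2 zero_le_one) hs.2
  simp only [h.γ_zero, h.γ_one hl.1] at h1 h2
  exact ⟨h1, h2⟩

include h in
/-- plaques at one level of tetrahedra round an edge that crosses the level -/
theorem LM.Good.t1_pair (hf : k.tri.Fol φ)
    (hs : k.Sp (fun a u v t => L.H a.1 (L.γ u.1 v.1 t)) φ) (a : Y) {p q : V}
    (hp : L.d a p.1 < 60) {c : ℝ} (h1 : L.H a p.1 < c) (h2 : c < L.H a q.1) (x y : k.T3)
    (px : p ∈ range x.1) (qx : q ∈ range x.1) (py : p ∈ range y.1) (qy : q ∈ range y.1)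
    {s s' : ℝ} (m1 : s ∈ Ioo (0 : ℝ) 1) (m2 : s' ∈ Ioo (0 : ℝ) 1) (e1 : L.H a (k.pt x s) = c)
    (e2 : L.H a (k.pt y s') = c) : EqvGen (k.tri.Step φ) (x, s) (y, s') := by
  have d1 := h.t1_pt k x px (Ioo_subset_Icc_self m1)
  have d2 := h.t1_pt k y py (Ioo_subset_Icc_self m2)
  have d3 := h.t1_diam k x px qx
  have d4 := L.tri a p.1 (k.pt x s)
  have d5 := L.tri a p.1 (k.pt y s')
  have d6 := L.tri a p.1 q.1
  have d7 := L.d_self p.1
  exact k.edge_leaf h.hts hf hs x y px qx py qy (Ioo_subset_Icc_self m1) (Ioo_subset_Icc_self m2)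
    (L.compat_eq (a := a) (b := p.1) (x := k.pt x s) (y := k.pt y s') (by linarith) (by linarith)
      (by linarith) (by linarith) (e1.trans e2.symm))
    (L.compat a p.1 p.1 (k.pt x s) (by linarith) (by linarith) (by linarith) (by linarith)
      (h1.trans_eq e1.symm))
    (L.compat a p.1 (k.pt x s) q.1 (by linarith) (by linarith) (by linarith) (by linarith)
      (e1.trans_lt h2))

include h in
theorem LM.Good.lev (a : Y) {r c : ℝ} (hr : 0 ≤ r) (hr' : r ≤ 15)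
    (h1 : L.H a (L.χ a ((-r) • L.l a)) ≤ c) (h2 : c ≤ L.H a (L.χ a (r • L.l a))) :
    ∃ t, |t| ≤ r ∧ L.H a (L.χ a (t • L.l a)) = c := by
  have e1 := h.small
  have n : ∀ t ∈ Icc (-r) r, ‖t • L.l a‖ < 16 := fun t ht => by
    rw [t1_norm]
    exact (abs_le.2 ht).trans_lt (by linarith)
  have c1 : ContinuousOn (fun t : ℝ => L.H a (L.χ a (t • L.l a))) (Icc (-r) r) :=
    (L.hcont a).comp ((L.cont a).comp (continuous_id.smul continuous_const).continuousOn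
      fun t ht => mem_ball_zero_iff.2 ((n t ht).trans (by norm_num))) fun t ht => by
        have h3 := n t ht
        have h4 := abs_le.1 (L.d_χ a (u := t • L.l a) (by linarith))
        show L.d a (L.χ a (t • L.l a)) < 300 - 1
        linarith
  obtain ⟨t, ht, e⟩ := intermediate_value_Icc (by linarith) c1 ⟨h1, h2⟩
  exact ⟨t, abs_le.2 ht, e⟩

include h in
theorem LM.Good.between (a : Y) {y : Y} {r : ℝ} (hr : r ≤ 15) (hy : L.d a y < r - 1 / 2) :
    L.H a (L.χ a ((-r) • L.l a)) < L.H a y ∧ L.H a y < L.H a (L.χ a (r • L.l a)) := by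
  have e1 := h.small
  have d0 := L.nonneg a y
  have n1 := abs_le.1 (L.norm_ψ a (y := y) (by linarith))
  have n2 := abs_real_inner_le_norm (L.l a) (L.ψ a y)
  rw [L.unit, one_mul] at n2
  have n3 := abs_le.1 n2
  exact ⟨(h.t1_cone a (t := -r) (abs_le.2 ⟨by linarith, by linarith⟩) (by linarith)).1
    (by linarith), (h.t1_cone a (t := r) (abs_le.2 ⟨by linarith, by linarith⟩) (by linarith)).2
    (by linarith)⟩

include h in
theorem LM.Good.cut (a : Y) {t : ℝ} (ht : |t| ≤ 15) :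
    Cut (L.S V a) (L.P V a) (L.l a) {p | L.H a (L.χ a (t • L.l a)) < L.H a p.1} t := by
  refine ⟨L.unit a, fun p hp q hq k1 k2 => (h.ord a hp hq).1 ((not_lt.1 k1).trans_lt k2),
    fun p hp k1 => (h.t1_cone a ht hp).1 ?_, fun p hp k1 => ((h.t1_cone a ht hp).2 ?_).not_gt⟩
  · unfold LM.P at k1
    linarith
  · unfold LM.P at k1
    linarith

include h in
/-- a tetrahedron with vertices below and above the level `c` has a plaque at that level -/
theorem LM.Good.level (a : Y) (x : k.T3) (hx : L.d a (x.1 0).1 < 50) {p q : V}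
    (hp : p ∈ range x.1) (hq : q ∈ range x.1) {c : ℝ} (h1 : L.H a p.1 < c) (h2 : c < L.H a q.1) :
    ∃ s ∈ Ioo (0 : ℝ) 1, L.H a (k.pt x s) = c := by
  have hl := x.2.2 0 3 (by decide)
  refine intermediate_value_Ioo zero_le_one (h.γ_cont (a := a) (by linarith) hl.1) ?_
  simp only [h.γ_zero, h.γ_one hl.1]
  exact ⟨(h.t1_ends k a x hx hp).1.trans_lt h1, h2.trans_le (h.t1_ends k a x hx hq).2⟩

include h in
theorem LM.Good.same (hf : k.tri.Fol φ)
    (hs : k.Sp (fun a u v t => L.H a.1 (L.γ u.1 v.1 t)) φ) (a : Y) {t : ℝ} (ht : |t| ≤ 15)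
    (gen : ∀ p ∈ L.S V a, L.H a p.1 ≠ L.H a (L.χ a (t • L.l a))) (x y : k.T3) {u u' : E3}
    (hu : ‖u‖ < 27) (hu' : ‖u'‖ < 27) (ex : range x.1 = L.N V w a u) (ey : range y.1 = L.N V w a u')
    {s s' : ℝ} (h1 : s ∈ Ioo (0 : ℝ) 1) (h2 : s' ∈ Ioo (0 : ℝ) 1)
    (e1 : L.H a (k.pt x s) = L.H a (L.χ a (t • L.l a)))
    (e2 : L.H a (k.pt y s') = L.H a (L.χ a (t • L.l a))) :
    EqvGen (k.tri.Step φ) (x, s) (y, s') := by
  have mx : ∀ i, x.1 i ∈ L.N V w a u := fun i => ex ▸ mem_range_self i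
  have my : ∀ i, y.1 i ∈ L.N V w a u' := fun i => ey ▸ mem_range_self i
  have dx := h.t1_N a (by linarith) (mx 0)
  have dy := h.t1_N a (by linarith) (my 0)
  obtain ⟨a1, a2⟩ := h.t1_long k a x (by linarith) h1
  obtain ⟨b1, b2⟩ := h.t1_long k a y (by linarith) h2
  rw [e1] at a1 a2
  rw [e2] at b1 b2
  refine (h.eu a).cut1 (h.cut a ht) ht (fun p q => ∀ z : k.T3, ∀ r ∈ Ioo (0 : ℝ) 1,
    p ∈ range z.1 → q ∈ range z.1 → L.H a (k.pt z r) = L.H a (L.χ a (t • L.l a)) →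
      EqvGen (k.tri.Step φ) (x, s) (z, r)) ?_ hu hu' (mx 0) (mx 3) (my 0) (my 3) a1.not_gt a2
    b1.not_gt b2 (fun z r hr pz qz e => h.t1_pair k hf hs a (by linarith) a1 a2 x z
      (mem_range_self 0) (mem_range_self 3) pz qz h1 hr e1 e) y s' h2 (mem_range_self 0)
    (mem_range_self 3) e2
  intro v hv p hp q hq p' hp' q' hq' k1 k2 k3 k4 hQ z r hr pz qz e
  have nv := mem_ball_zero_iff.1 hv
  obtain ⟨v', n1, n2, n3⟩ := h.ext a (u := v) (by linarith)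
  obtain ⟨z₀, ez⟩ := k.enum n3
  have sub : ∀ {o}, o ∈ L.N V w a v → o ∈ range z₀.1 := fun ho => ez ▸ n2 ho
  have d1 := h.t1_N a (u := v) (by linarith) hp
  have d2 := h.t1_diam k z₀ (sub hp) (mem_range_self 0)
  have d3 := L.tri a p.1 (z₀.1 0).1
  obtain ⟨r₀, hr₀, e₀⟩ := h.level k a z₀ (by linarith) (sub hp) (sub hq)
    (lt_of_le_of_ne (not_lt.1 k1) (gen p hp.1)) k2
  exact .trans _ _ _ (hQ z₀ r₀ hr₀ (sub hp) (sub hq) e₀) (h.t1_pair k hf hs a hp'.1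
    (lt_of_le_of_ne (not_lt.1 k3) (gen p' hp'.1)) k4 z₀ z (sub hp') (sub hq') pz qz hr₀ hr e₀ e)

include h in
theorem LM.Good.exists_tet (a : Y) {t : ℝ} (ht : |t| ≤ 15) {z : E3} (hz : ⟪L.l a, z⟫ = 0)
    (h5 : ‖z‖ ≤ 5) : ∃ (x : k.T3) (u : E3) (t' : ℝ), ‖u - (z + t' • L.l a)‖ < 4 ∧ |t' - t| ≤ 3 ∧
      range x.1 = L.N V w a u ∧ ∃ p ∈ range x.1, ∃ q ∈ range x.1,
        ‖z + t' • L.l a - L.P V a p‖ < 2 ∧ ‖z + t' • L.l a - L.P V a q‖ < 2 ∧
        L.H a p.1 ≤ L.H a (L.χ a (t • L.l a)) ∧ L.H a (L.χ a (t • L.l a)) < L.H a q.1 := by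
  obtain ⟨t', h1, p, hp, q, hq, k1, k2⟩ := (h.eu a).cut0 (h.cut a ht) ht hz (by linarith)
  have h2 := abs_le.1 h1
  have h3 := abs_le.1 ht
  have h4 : ‖z + t' • L.l a‖ < 41 := by
    have h6 := norm_add_le z (t' • L.l a)
    have h7 : |t'| ≤ 18 := abs_le.2 ⟨by linarith, by linarith⟩
    rw [t1_norm] at h6
    linarith
  obtain ⟨u, n1, n2, n3⟩ := h.ext a h4
  obtain ⟨x, ex⟩ := k.enum n3
  exact ⟨x, u, t', n1, h1, ex, p, ex ▸ n2 hp, q, ex ▸ n2 hq, (h.eu a).near (by linarith) hp,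
    (h.eu a).near (by linarith) hq, not_lt.1 k1, k2⟩

end Pool.Agent.Work.MP_3d425c_gt.Sm
end
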