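import Mathlib

/-! Co-oriented foliations of three-manifolds tangent to a continuous plane field. -/

namespace Pool.Agent.Work.MP_3d425c_gt.Sm
open Set Filter Topology

variable {M : Type} [TopologicalSpace M] [ChartedSpace (EuclideanSpace ℝ (Fin 3)) M]

/-- The vector from `y` to `z` in the preferred chart at `x`. -/
noncomputable def dif (x y z : M) : EuclideanSpace ℝ (Fin 3) :=
  chartAt (EuclideanSpace ℝ (Fin 3)) x z - chartAt (EuclideanSpace ℝ (Fin 3)) x y

/-- `A` is an atlas of a co-oriented codimension one foliation; plaques are the levels of the last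
coordinate. `ord`: near a common point two charts have the same levels, in the same order.
`tan`: plaques are tangent to a continuous plane field (strict tangency to `ker l` at `x`). -/
structure Foliation (A : Set (OpenPartialHomeomorph M ((ℝ × ℝ) × ℝ))) : Prop where
  cov : ∀ x, ∃ e ∈ A, x ∈ e.source
  ord : ∀ e ∈ A, ∀ e' ∈ A, ∀ x ∈ e.source ∩ e'.source, ∀ᶠ q in 𝓝 (x, x),
    (e q.1).2 < (e q.2).2 ↔ (e' q.1).2 < (e' q.2).2
  tan : ∀ e ∈ A, ∀ x ∈ e.source, ∃ l : EuclideanSpace ℝ (Fin 3) →L[ℝ] ℝ, l ≠ 0 ∧ ∀ η > 0,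
    ∀ᶠ q in 𝓝 (x, x), η * ‖dif x q.1 q.2‖ < l (dif x q.1 q.2) → (e q.1).2 < (e q.2).2

omit [ChartedSpace (EuclideanSpace ℝ (Fin 3)) M] in
/-- `x` and `y` are joined by a path that stays locally in a plaque. -/
def SameLeaf (A : Set (OpenPartialHomeomorph M ((ℝ × ℝ) × ℝ))) (x y : M) : Prop :=
  ∃ γ : Path x y, ∀ t, ∀ e ∈ A, γ t ∈ e.source → ∀ᶠ s in 𝓝 t, (e (γ s)).2 = (e (γ t)).2

omit [ChartedSpace (EuclideanSpace ℝ (Fin 3)) M] in
/-- Every leaf meets a closed curve that is positively transverse to the foliation. -/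
def Taut (A : Set (OpenPartialHomeomorph M ((ℝ × ℝ) × ℝ))) : Prop :=
  ∀ x, ∃ γ : ℝ → M, Continuous γ ∧ Function.Periodic γ 1 ∧ SameLeaf A x (γ 0) ∧
    ∀ t, ∀ e ∈ A, γ t ∈ e.source → ∀ᶠ q in 𝓝 (t, t), q.1 < q.2 → (e (γ q.1)).2 < (e (γ q.2)).2

end Pool.Agent.Work.MP_3d425c_gt.Sm
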