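import Pool.Agent.Work.MP_3d425c_gt.Sm.Main

/-! The smooth front end for a group isomorphic to the fundamental group. -/

namespace Pool.Agent.Work.MP_3d425c_gt.Sm
open scoped Manifold ContDiff

variable {M : Type} [TopologicalSpace M] [ChartedSpace E3 M] [IsManifold 𝓘(ℝ, E3) ∞ M]
  [CompactSpace M] [T2Space M] [ConnectedSpace M]

/-- the universal cover with the action of a group isomorphic to the fundamental group -/
theorem exists_cover (m : M) {G : Type} [Group G] (i : G ≃* FundamentalGroup M m) :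
    ∃ (Y : Type) (_ : TopologicalSpace Y) (_ : MulAction G Y) (p : Y → M),
      IsQuotientCoveringMap p G ∧ SimplyConnectedSpace Y := by
  obtain ⟨Y, _, _, p, hp, hs⟩ := Tp.exists_universal_cover_manifold E3 m
  let _ : MulAction G Y := MulAction.compHom Y i.toMonoidHom
  refine ⟨Y, inferInstance, inferInstance, p, ?_, hs⟩
  refine
    { hp.toIsQuotientMap with
      continuous_const_smul := fun g => hp.continuous_const_smul (i g)
      apply_eq_iff_mem_orbit := fun {a b} => hp.apply_eq_iff_mem_orbit.trans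
        ⟨fun ⟨g, e⟩ => ⟨i.symm g, ?_⟩, fun ⟨g, e⟩ => ⟨i g, e⟩⟩
      disjoint := fun y => ?_ }
  · show i (i.symm g) • b = a
    rw [i.apply_symm_apply]
    exact e
  · obtain ⟨U, hU, h⟩ := hp.disjoint y
    exact ⟨U, hU, fun g c => i.injective ((h (i g) c).trans (map_one i).symm)⟩

/-- the carried taut foliation, for a group isomorphic to the fundamental group -/
theorem normal_form' (m : M) {G : Type} [Group G] (i : G ≃* FundamentalGroup M m)
    {A : Set (OpenPartialHomeomorph M ((ℝ × ℝ) × ℝ))} (hA : Foliation A) (hT : Taut A) :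
    ∃ (X0 X1 X2 X3 : Type) (_ : MulAction G X0) (_ : MulAction G X1) (_ : MulAction G X2)
      (_ : MulAction G X3) (T : Md.Tri G X0 X1 X2 X3) (φ : X2 → ℝ ≃o ℝ), Nv.Disc T ∧
      (∀ v, ∃ f, T.d1 (T.d2 f 2) 0 = v) ∧ T.Fol φ ∧ T.Taut φ := by
  obtain ⟨Y, _, _, p, hp, _⟩ := exists_cover m i
  exact normal_form p hp hA hT

theorem main' (m : M) {G : Type} [Group G] (i : G ≃* FundamentalGroup M m)
    (tf : ∀ a : G, a ≠ 1 → ¬ IsOfFinOrder a)
    (cent : ∀ a : G, a ≠ 1 → IsCyclic (Subgroup.centralizer ({a} : Set G)))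
    (big : ∀ E : Subgroup G, E.FG → IsCyclic E ∨ E.FiniteIndex ∨
      ∃ f : E →* Multiplicative (ℤ × ℤ), Function.Surjective f)
    {A : Set (OpenPartialHomeomorph M ((ℝ × ℝ) × ℝ))} (hA : Foliation A) (hT : Taut A) :
    Nontrivial G ∧ ∃ r : G → G → Prop,
      IsStrictTotalOrder G r ∧ ∀ a b c, r a b ↔ r (c * a) (c * b) := by
  obtain ⟨X0, X1, X2, X3, _, _, _, _, T, φ, a, b, c, d⟩ := normal_form' m i hA hT
  exact T.main_taut ⟨tf, cent⟩ big a b φ c d

end Pool.Agent.Work.MP_3d425c_gt.Sm
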