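import Pool.Agent.Work.MP_3d425c_gt.Sm.Main2
import Pool.Agent.Work.MP_3d425c_gt.Bg.Final
import Pool.Agent.Work.MP_3d425c_gt.Bg.Tf2

/-! Taut foliations on closed hyperbolic manifolds and on rational homology spheres with cyclic
centralisers. -/

namespace Pool.Agent.Work.MP_3d425c_gt.Sm
open scoped Manifold ContDiff

variable {M : Type} [TopologicalSpace M] [ChartedSpace E3 M] [IsManifold 𝓘(ℝ, E3) ∞ M]
  [CompactSpace M] [T2Space M] [ConnectedSpace M]

/-- closed hyperbolic manifolds -/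
theorem main_lat (m : M) {G : Type} [Group G] (i : G ≃* FundamentalGroup M m)
    {ρ : G →* Matrix.ProjectiveSpecialLinearGroup (Fin 2) ℂ} (L : Lt.Lat ρ)
    {A : Set (OpenPartialHomeomorph M ((ℝ × ℝ) × ℝ))} (hA : Foliation A) (hT : Taut A) :
    Nontrivial G ∧ ∃ r : G → G → Prop,
      IsStrictTotalOrder G r ∧ ∀ a b c, r a b ↔ r (c * a) (c * b) := by
  obtain ⟨X0, X1, X2, X3, _, _, _, _, T, φ, a, b, c, d⟩ := normal_form' m i hA hT
  have e := Bg.oneEnd_of_lat L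
  exact Bg.main_taut T (Bg.hyp_of_lat L (Bg.mfd_end a b e) a) (Or.inl e) a b φ c d

/-- rational homology spheres with cyclic centralisers -/
theorem main_qhs (m : M) {G : Type} [Group G] (i : G ≃* FundamentalGroup M m)
    (h0 : ∀ χ : G →* Multiplicative ℝ, χ = 1)
    (cent : ∀ a : G, a ≠ 1 → IsCyclic (Subgroup.centralizer ({a} : Set G)))
    {A : Set (OpenPartialHomeomorph M ((ℝ × ℝ) × ℝ))} (hA : Foliation A) (hT : Taut A) :
    Nontrivial G ∧ ∃ r : G → G → Prop,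
      IsStrictTotalOrder G r ∧ ∀ a b c, r a b ↔ r (c * a) (c * b) := by
  obtain ⟨X0, X1, X2, X3, _, _, _, _, T, φ, a, b, c, d⟩ := normal_form' m i hA hT
  obtain ⟨ρ, hρ, hb⟩ := Md.Tri.ball h0 c d b
  obtain ⟨y, hy⟩ := hb φ c fun f t => by rw [sub_self, abs_zero]; exact hρ.le
  have : Infinite G := Bg.inf_of_nc (Nv.fw_nov a hy c.1) (hy.inf c)
  exact Bg.main_taut T ⟨Bg.tf_disc (Bg.mfd_taut a b (Or.inr h0) c d) a, cent⟩ (Or.inr h0) a b φ c d

end Pool.Agent.Work.MP_3d425c_gt.Sm
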